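import Pool.Agent.Lib.MP_f61260_nt.Det5

set_option autoImplicit false

namespace Pool.Agent.Lib.MP_f61260_nt

/-- at most `D` conjugates -/
def Orb (A : Subgroup GA) (α : Qb) (D : ℕ) : Prop :=
  ∃ R : Finset Qb, R.card ≤ D ∧ ∀ g ∈ A, g α ∈ R

lemma Orb.mono {A A' : Subgroup GA} {α : Qb} {D : ℕ} (h : Orb A α D) (h' : A' ≤ A) : Orb A' α D :=
  let ⟨R, h1, h2⟩ := h; ⟨R, h1, fun g hg => h2 g (h' hg)⟩

lemma Orb.mul {A : Subgroup GA} {α y : Qb} {D : ℕ} (h : Orb A α D) (hy : Fx A y) :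
    Orb A (α * y) D := by
  classical
  obtain ⟨R, h1, h2⟩ := h
  exact ⟨R.image (· * y), Finset.card_image_le.trans h1, fun g hg =>
    Finset.mem_image.2 ⟨g α, h2 g hg, by rw [map_mul, hy g hg]⟩⟩

lemma Orb.idx {A Q : Subgroup GA} {α : Qb} {D e : ℕ} (h : Orb (A ⊓ Q) α D) (hQ : IdxLe ⊤ Q e) :
    Orb A α (e * D) := by
  classical
  obtain ⟨R, h1, h2⟩ := h
  obtain ⟨T, hT⟩ : IdxLe A (A ⊓ Q) e := hQ.restrict le_top le_rfl
  refine ⟨Finset.univ.biUnion fun i : T.ι => R.image (T.r i), ?_, fun g hg => ?_⟩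
  · refine (Finset.card_biUnion_le_card_mul _ _ D fun i _ => Finset.card_image_le.trans h1).trans ?_
    rw [Finset.card_univ]
    exact Nat.mul_le_mul_right D hT
  · obtain ⟨i, hi⟩ := T.ex g hg
    refine Finset.mem_biUnion.2 ⟨i, Finset.mem_univ _, Finset.mem_image.2 ⟨_, h2 _ hi, ?_⟩⟩
    rw [← AlgEquiv.mul_apply, mul_inv_cancel_left]

lemma Orb.idxLe {A : Subgroup GA} {α : Qb} {D : ℕ} (h : Orb A α D) : IdxLe A (St ℚ α) D :=
  let ⟨R, h1, h2⟩ := h; (idx_of_finset R h2).mono h1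

lemma Orb.up {A : Subgroup GA} {β x ω : Qb} {D p : ℕ} (hx : x ≠ 0) (hω : IsPrimitiveRoot ω p)
    (hp : 0 < p) (hA : Fx A (x ^ p)) {h : GA} (h1 : h ∈ A) (h2 : h x = ω * x) (h3 : h ω = ω)
    (h4 : h β = β) (h5 : Orb (A ⊓ St ℚ x) β D) : Orb A β D := by
  have : NeZero p := ⟨hp.ne'⟩
  obtain ⟨R, h6, h7⟩ := h5
  refine ⟨R, h6, fun g hg => ?_⟩
  obtain ⟨ξ, h8, h9⟩ := mult_ex g⁻¹ hx (hA _ (A.inv_mem hg))
  obtain ⟨l, -, hl⟩ := hω.eq_pow_of_pow_eq_one h8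
  have h10 := h7 (g * h ^ l) ⟨A.mul_mem hg (A.pow_mem h1 l), by
    change (g * h ^ l) x = x
    rw [AlgEquiv.mul_apply, pow_act h2 h3, hl, ← h9, ← AlgEquiv.mul_apply, mul_inv_cancel,
      AlgEquiv.one_apply]⟩
  rwa [AlgEquiv.mul_apply, mem_St.1 ((St ℚ β).pow_mem h4 l)] at h10

lemma IdxLe.pow_mem {Q : Subgroup GA} {e : ℕ} (h : IdxLe ⊤ Q e) (τ : GA) :
    ∃ j, 0 < j ∧ j ≤ e ∧ τ ^ j ∈ Q := by
  obtain ⟨T, hT⟩ := h
  have key : ∀ i j : ℕ, i < j → j ≤ e →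
      T.idx (Subgroup.mem_top (τ ^ i)) = T.idx (Subgroup.mem_top (τ ^ j)) →
      ∃ N : ℕ, 0 < N ∧ N ≤ e ∧ τ ^ N ∈ Q := by
    intro i j hij hj h
    obtain ⟨d, rfl⟩ := Nat.exists_eq_add_of_lt hij
    have := Q.mul_mem (Q.inv_mem (T.idx_spec (Subgroup.mem_top (τ ^ i))))
      (h ▸ T.idx_spec (Subgroup.mem_top (τ ^ (i + d + 1))))
    rw [add_assoc, pow_add] at this
    exact ⟨d + 1, d.succ_pos, by omega, by simpa [mul_assoc] using this⟩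
  obtain ⟨i, hi, j, hj, hij, h⟩ := Finset.exists_ne_map_eq_of_card_lt_of_maps_to
    (s := Finset.range (e + 1)) (t := Finset.univ)
    (by rw [Finset.card_range]; exact Nat.lt_succ_of_le hT)
    (f := fun i => T.idx (Subgroup.mem_top (τ ^ i))) fun _ _ => Finset.mem_univ _
  rw [Finset.mem_range] at hi hj
  rcases lt_or_gt_of_ne hij with h1 | h1
  · exact key i j h1 (by omega) h
  · exact key j i h1 (by omega) h.symm

lemma Orb.pow_fact {t : Qb} {D : ℕ} (h : Orb ⊤ t D) (τ : GA) : (τ ^ D.factorial) t = t := by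
  obtain ⟨j, h1, h2, h3⟩ := h.idxLe.pow_mem τ
  obtain ⟨k, hk⟩ := Nat.dvd_factorial h1 h2
  rw [hk, pow_mul]
  exact (St ℚ t).pow_mem h3 k

lemma ab_mod {z : Qb} {N a b : ℕ} (h : z ^ N = 1) (hab : a ≡ b [MOD N]) : z ^ a = z ^ b := by
  rw [pow_eq_pow_mod a h, hab, ← pow_eq_pow_mod b h]

lemma ab_cop {y y' : Qb} (hy : y' ≠ 0) {a b : ℕ} (hab : a.Coprime b) (ha : y ^ a = y' ^ a)
    (hb : y ^ b = y' ^ b) : y = y' := by
  have h1 : (y / y') ^ a = 1 := by rw [div_pow, ha, div_self (pow_ne_zero _ hy)]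
  have h2 : (y / y') ^ b = 1 := by rw [div_pow, hb, div_self (pow_ne_zero _ hy)]
  have h3 := (pow_gcd_eq_one.2 ⟨h1, h2⟩ : (y / y') ^ a.gcd b = 1)
  rwa [hab, pow_one, div_eq_one_iff_eq hy] at h3

lemma ab_iter {τ : GA} {z : Qb} {u : ℕ} (h : τ z = z ^ u) (e : ℕ) : (τ ^ e) z = z ^ u ^ e := by
  induction e with
  | zero => simp
  | succ e ih => rw [pow_succ', AlgEquiv.mul_apply, ih, map_pow, h, ← pow_mul, ← pow_succ']

namespace Ctx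

variable {ι : Type} (c : Ctx ι) (e : ℕ)

/-- the automorphisms that act on the roots of unity of order `N` as `e`-th powers -/
def Pw (N : ℕ) : Subgroup GA where
  carrier := {σ | 0 < N → ∃ u : ℕ, u.Coprime N ∧ σ (c.z N) = c.z N ^ u ^ e}
  one_mem' := fun _ => ⟨1, Nat.coprime_one_left N, by simp⟩
  mul_mem' := by
    intro σ τ hσ hτ hN
    obtain ⟨u, h1, h2⟩ := hσ hN
    obtain ⟨v, h3, h4⟩ := hτ hN
    exact ⟨u * v, Nat.Coprime.mul_left h1 h3, by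
      rw [AlgEquiv.mul_apply, h4, map_pow, h2, ← pow_mul, mul_pow]⟩
  inv_mem' := by
    intro σ hσ hN
    obtain ⟨u, h1, h2⟩ := hσ hN
    obtain ⟨r, hr⟩ := Nat.exists_eq_succ_of_ne_zero (Nat.totient_pos.2 hN).ne'
    have h3 := (Nat.ModEq.pow_totient h1).pow e
    rw [hr, pow_succ', mul_pow, one_pow] at h3
    refine ⟨u ^ r, h1.pow_left r, σ.injective ?_⟩
    rw [← AlgEquiv.mul_apply, mul_inv_cancel, AlgEquiv.one_apply, map_pow, h2, ← pow_mul,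
      ab_mod (c.prim N hN).pow_eq_one h3, pow_one]

variable {c e}

lemma st_le_Pw {N : ℕ} : St ℚ (c.z N) ≤ c.Pw e N := fun σ hσ _ =>
  ⟨1, Nat.coprime_one_left N, by rw [one_pow, pow_one]; exact hσ⟩

lemma Pw_one : c.Pw e 1 = ⊤ := by
  refine top_le_iff.1 fun σ _ => st_le_Pw ?_
  rw [mem_St, IsPrimitiveRoot.one_right_iff.1 (c.prim 1 one_pos), map_one]

lemma Pw_mono {N N' : ℕ} (h0 : 0 < N') (h : N ∣ N') : c.Pw e N' ≤ c.Pw e N := by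
  intro σ hσ hN
  obtain ⟨u, h1, h2⟩ := hσ h0
  refine ⟨u, h1.coprime_dvd_right h, ?_⟩
  obtain ⟨k, rfl⟩ := h
  rw [← c.hz.pw N k hN (Nat.pos_of_mul_pos_left h0), map_pow, h2, pow_right_comm]

lemma Pw_inf {a b : ℕ} (ha : 0 < a) (hb : 0 < b) (h : a.Coprime b) :
    c.Pw e a ⊓ c.Pw e b ≤ c.Pw e (a * b) := by
  intro σ hσ _
  obtain ⟨u, h1, h2⟩ := hσ.1 ha
  obtain ⟨v, h3, h4⟩ := hσ.2 hb
  obtain ⟨w, h5, h6⟩ := Nat.chineseRemainder h u v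
  refine ⟨w, Nat.Coprime.mul_right ?_ ?_, ab_cop (pow_ne_zero _ (c.hz.ne _)) h ?_ ?_⟩
  · exact (Nat.ModEq.gcd_eq h5).trans h1
  · exact (Nat.ModEq.gcd_eq h6).trans h3
  · rw [← map_pow, pow_right_comm, mul_comm a b, c.hz.pw b a hb ha, h4]
    exact ab_mod (c.prim b hb).pow_eq_one (h6.pow e).symm
  · rw [← map_pow, pow_right_comm, c.hz.pw a b ha hb, h2]
    exact ab_mod (c.prim a ha).pow_eq_one (h5.pow e).symm

lemma idx_Pw {q : ℕ} (hq : q.Prime) (h2 : q ≠ 2) (he : 0 < e) (k : ℕ) :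
    IdxLe ⊤ (c.Pw e (q ^ k)) e := by
  have hN := pow_pos hq.pos k
  have : NeZero (q ^ k) := ⟨hN.ne'⟩
  have : NeZero e := ⟨he.ne'⟩
  have := ZMod.isCyclic_units_of_prime_pow q hq h2 k
  obtain ⟨g, hg⟩ := IsCyclic.exists_generator (α := (ZMod (q ^ k))ˣ)
  have hz := c.prim _ hN
  choose n hn using fun σ : GA => Subgroup.mem_zpowers_iff.1 (hg (hz.autToPow ℚ σ))
  obtain ⟨T, hT⟩ := exists_trans (B := ⊤) (A := c.Pw e (q ^ k)) (Finset.univ : Finset (ZMod e))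
    (fun σ => (n σ : ZMod e)) (fun _ _ => Finset.mem_univ _) fun σ _ τ _ h _ => by
      obtain ⟨m, hm⟩ := ((ZMod.intCast_eq_intCast_iff _ _ _).1 h).dvd
      have h3 : hz.autToPow ℚ (σ⁻¹ * τ) = (g ^ m) ^ e := by
        rw [map_mul, map_inv, ← hn, ← hn, ← zpow_neg, ← zpow_add, neg_add_eq_sub, hm, mul_comm,
          zpow_mul, zpow_natCast]
      refine ⟨_, ZMod.val_coe_unit_coprime (g ^ m), ?_⟩
      rw [← hz.autToPow_spec ℚ, h3]
      refine ab_mod hz.pow_eq_one ((ZMod.natCast_eq_natCast_iff _ _ _).1 ?_)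
      simp
  exact ⟨T, hT.trans (by rw [Finset.card_univ, ZMod.card])⟩

lemma fx_Pw {N : ℕ} (h0 : 0 < N) {t : Qb} (h1 : Fx (St ℚ (c.z N)) t)
    (h2 : ∀ τ : GA, (τ ^ e) t = t) : Fx (c.Pw e N) t := by
  intro σ hσ
  obtain ⟨u, h3, h4⟩ := hσ h0
  have hz := c.prim N h0
  obtain ⟨τ, hτ⟩ := (Normal.minpoly_eq_iff_mem_orbit (F := ℚ) Qb).1
    ((Polynomial.cyclotomic_eq_minpoly_rat (hz.pow_of_coprime u h3) h0).symm.trans
      (Polynomial.cyclotomic_eq_minpoly_rat hz h0))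
  have h5 := h1 ((τ ^ e)⁻¹ * σ) (by
    rw [mem_St, AlgEquiv.mul_apply, h4, ← ab_iter (τ := τ) hτ, ← AlgEquiv.mul_apply,
      inv_mul_cancel, AlgEquiv.one_apply])
  have h6 := congrArg (τ ^ e : GA) h5
  rwa [← AlgEquiv.mul_apply, mul_inv_cancel_left, h2] at h6

end Ctx

end Pool.Agent.Lib.MP_f61260_nt
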