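import Pool.Agent.Lib.MP_f61260_nt.Det1

set_option autoImplicit false

namespace Pool.Agent.Lib.MP_f61260_nt

open Matrix Finset Real
open scoped ComplexOrder

section

variable {n s : Type} [Fintype n] [DecidableEq n] [Fintype s] [DecidableEq s]

/-- the matrix `X` with the rows `u v` replaced by the rows of `G` -/
noncomputable def Rep {K : Type} (X : Matrix n n K) (G : Matrix s n K) (u : s → n) :
    Matrix n n K := of fun e => if h : ∃ v, u v = e then G h.choose else X e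

lemma det_rep {K : Type} [CommRing K] (X : Matrix n n K) (T : Matrix s n K) {u : s → n}
    (hu : Function.Injective u) :
    (Rep X (T * X) u).det = (T.submatrix id u).det * X.det := by
  set E : Matrix n s K := (1 : Matrix n n K).submatrix id u with hE
  have h1 : Rep X (T * X) u = (1 + E * (T - Eᵀ)) * X := by
    have h2 : Eᵀ * X = X.submatrix u id := by
      ext v i
      simp [hE, mul_apply, one_apply]
    rw [Matrix.add_mul, Matrix.one_mul, Matrix.mul_assoc, Matrix.sub_mul, h2]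
    ext e i
    rw [Rep, of_apply, Matrix.add_apply, mul_apply]
    split_ifs with h
    · rw [sum_eq_single h.choose (fun v _ hv => by
        rw [hE, submatrix_apply, id, one_apply_ne fun h' => hv (hu (h'.symm.trans
          h.choose_spec.symm)), zero_mul]) (by simp)]
      rw [hE, submatrix_apply, id, h.choose_spec, one_apply_eq, one_mul, Matrix.sub_apply,
        submatrix_apply, h.choose_spec, id, add_sub_cancel]
    · rw [sum_eq_zero fun v _ => by
        rw [hE, submatrix_apply, id, one_apply_ne fun h' => h ⟨v, h'.symm⟩, zero_mul], add_zero]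
  have h2 : 1 + (T - Eᵀ) * E = T.submatrix id u := by
    ext v v'
    simp [hE, Matrix.sub_mul, mul_apply, one_apply, hu.eq_iff, eq_comm]
  rw [h1, det_mul, det_one_add_mul_comm, h2]

lemma arch_abs {ι : Type} [Fintype ι] (X : Matrix n n ℂ) (T : Matrix s n ℂ) (hX : X.det ≠ 0)
    {u : ι → s → n} (hu : Function.Injective (Function.uncurry u)) {c : ℝ} (hc : 0 < c) :
    ∏ k, (‖(T.submatrix id (u k)).det * X.det‖ ^ 2 * (Fintype.card ι : ℝ) ^ Fintype.card s) ≤
      (c ^ Fintype.card n * exp ((∑ i, ∑ j, ‖(T * X) i j‖ ^ 2 + ∑ i, ∑ j, ‖X i j‖ ^ 2) / c -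
        Fintype.card n)) ^ Fintype.card ι := by
  rcases isEmpty_or_nonempty ι with _ | _
  · simp
  set m : ℝ := (Fintype.card ι : ℝ) with hm
  have hm0 : 0 < m := Nat.cast_pos.2 Fintype.card_pos
  set Z : Matrix (s ⊕ n) n ℂ := fromRows (T * X) X with hZ
  have hG : IsUnit (Zᴴ * Z).det := by
    refine (isUnit_iff_isUnit_det _).1 (PosDef.conjTranspose_mul_self Z fun y y' h => ?_).isUnit
    refine mulVec_injective_iff_isUnit.2 ((isUnit_iff_isUnit_det _).2 hX.isUnit) ?_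
    exact funext fun i => congrFun h (Sum.inr i)
  set Y := (Zᴴ * Z)⁻¹ * Zᴴ with hY
  have h1 : Y * Z = 1 := by rw [hY, Matrix.mul_assoc, nonsing_inv_mul _ hG]
  set P : Matrix (s ⊕ n) (s ⊕ n) ℂ := 1 - Z * Y with hP
  have h2 : ∑ b, ∑ a, ‖P a b‖ ^ 2 = Fintype.card s := by
    have e1 : Pᴴ = P := by
      rw [hP, hY, conjTranspose_sub, conjTranspose_one, conjTranspose_mul, conjTranspose_mul,
        conjTranspose_conjTranspose, conjTranspose_nonsing_inv, conjTranspose_mul,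
        conjTranspose_conjTranspose, Matrix.mul_assoc]
    have e2 : (Pᴴ * P).trace = ((∑ b, ∑ a, ‖P a b‖ ^ 2 : ℝ) : ℂ) := by
      simp [trace, mul_apply, Complex.conj_mul']
    rw [e1, hP, Matrix.mul_sub, Matrix.mul_one, Matrix.sub_mul, Matrix.one_mul, Matrix.mul_assoc,
      ← Matrix.mul_assoc Y, h1, Matrix.one_mul, sub_self, sub_zero, trace_sub, trace_mul_comm, h1,
      trace_one, trace_one, Fintype.card_sum, Nat.cast_add, add_sub_cancel_right] at e2
    exact_mod_cast e2.symm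
  have h3 : ∑ k, ∑ v, ∑ a, ‖P a (Sum.inr (u k v))‖ ^ 2 ≤ Fintype.card s := by
    rw [← h2, ← Fintype.sum_prod_type']
    exact (sum_map univ ⟨_, Sum.inr_injective.comp hu⟩ fun b => ∑ a, ‖P a b‖ ^ 2).ge.trans
      (sum_le_univ_sum_of_nonneg fun _ => by positivity)
  have h4 : ∀ k, ‖(T.submatrix id (u k)).det * X.det‖ ^ 2 * m ^ Fintype.card s ≤
      c ^ Fintype.card n * exp ((∑ i, ∑ j, ‖(T * X) i j‖ ^ 2 + ∑ i, ∑ j, ‖X i j‖ ^ 2) / c -
        Fintype.card n) * exp (m * ∑ v, ∑ a, ‖P a (Sum.inr (u k v))‖ ^ 2 - Fintype.card s) := by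
    intro k
    set E : Matrix n s ℂ := (1 : Matrix n n ℂ).submatrix id (u k) with hE
    set E' : Matrix (s ⊕ n) s ℂ := fromRows 0 E with hE'
    have e0 : T * E = T.submatrix id (u k) := by
      ext v v'
      simp [hE, mul_apply, one_apply]
    have e1 : P.submatrix id (fun v => Sum.inr (u k v)) = P * E' := by
      ext a v
      rw [Matrix.mul_apply, Fintype.sum_sum_type]
      simp [hE', hE, one_apply]
    have e2 : fromCols ((√m : ℂ) • P.submatrix id fun v => Sum.inr (u k v)) ((√c : ℂ)⁻¹ • Z) =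
        fromBlocks 1 T 0 1 * fromBlocks (-(T * E)) 0 E X * fromBlocks 1 0 (-(Y * E')) 1 *
          fromBlocks ((√m : ℂ) • 1) 0 0 ((√c : ℂ)⁻¹ • 1) := by
      have e3 : fromBlocks 1 T 0 1 * fromBlocks (-(T * E)) 0 E X = fromCols E' Z := by
        rw [fromBlocks_multiply, hZ, hE', fromCols_fromRows_eq_fromBlocks]
        simp
      rw [e3, fromCols_mul_fromBlocks, fromCols_mul_fromBlocks, e1, hP]
      rw [Matrix.sub_mul, Matrix.mul_assoc]
      simp [sub_eq_add_neg]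
    have e4 := det_amgm (fromCols ((√m : ℂ) • P.submatrix id fun v => Sum.inr (u k v))
      ((√c : ℂ)⁻¹ • Z)) one_pos
    have e5 : ∑ i, ∑ j, ‖fromCols ((√m : ℂ) • P.submatrix id fun v => Sum.inr (u k v))
        ((√c : ℂ)⁻¹ • Z) i j‖ ^ 2 = m * ∑ v, ∑ a, ‖P a (Sum.inr (u k v))‖ ^ 2 +
          (∑ i, ∑ j, ‖(T * X) i j‖ ^ 2 + ∑ i, ∑ j, ‖X i j‖ ^ 2) / c := by
      simp only [Fintype.sum_sum_type (α₁ := s) (α₂ := n) fun j => ‖fromCols _ _ _ j‖ ^ 2,
        fromCols_apply_inl, fromCols_apply_inr, Matrix.smul_apply, smul_eq_mul, norm_mul, mul_pow,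
        norm_inv, Complex.norm_real, inv_pow, Real.norm_eq_abs, sq_abs, sq_sqrt hm0.le,
        sq_sqrt hc.le, submatrix_apply, id, sum_add_distrib, ← mul_sum]
      rw [sum_comm, Fintype.sum_sum_type, div_eq_inv_mul]
      rfl
    rw [e5, e2] at e4
    simp only [det_mul, det_fromBlocks_zero₂₁, det_fromBlocks_zero₁₂, det_one, det_smul, det_neg,
      norm_mul, norm_pow, norm_neg, norm_one, one_pow, one_mul, mul_one, norm_inv, div_one,
      Complex.norm_real, Real.norm_eq_abs, mul_pow, ← pow_mul, mul_comm _ 2, e0,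
      Fintype.card_sum, Nat.cast_add] at e4
    simp only [pow_mul, inv_pow, sq_abs, sq_sqrt hm0.le, sq_sqrt hc.le] at e4
    rw [mul_assoc, ← exp_add, norm_mul, mul_pow, ← inv_mul_le_iff₀ (by positivity)]
    exact (le_of_eq (by ring)).trans (e4.trans_eq (congrArg exp (by ring)))
  refine (prod_le_prod (fun _ _ => by positivity) fun k _ => h4 k).trans ?_
  rw [prod_mul_distrib, prod_const, card_univ, ← exp_sum]
  refine mul_le_of_le_one_right (by positivity) (exp_le_one_iff.2 ?_)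
  rw [sum_sub_distrib, ← mul_sum, sum_const, card_univ, nsmul_eq_mul, sub_nonpos]
  exact mul_le_mul_of_nonneg_left h3 hm0.le

end

/-- the matrix of the characters -/
def Xm {K : Type} [CommRing K] (N : ℕ) (ϖ : K) : Matrix (Fin N) (Fin N) K :=
  of fun e i => (ϖ ^ (i : ℕ)) ^ (e : ℕ)

/-- the rows that contain `γ` -/
def Gm {K : Type} [CommRing K] {N : ℕ} (ϖ : K) (γ : Fin N → K) (s : ℕ) :
    Matrix (Fin s) (Fin N) K := of fun v i => γ i * (ϖ ^ (i : ℕ)) ^ (v : ℕ)

lemma Xm_det {K : Type} [Field K] {N : ℕ} {ϖ : K} (h : IsPrimitiveRoot ϖ N) :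
    (Xm N ϖ).det ≠ 0 := by
  rw [← det_transpose]
  exact det_vandermonde_ne_zero_iff.2 fun i j hij => Fin.ext (h.pow_inj i.2 j.2 hij)

lemma arch_m {N s m : ℕ} {ϖ : ℂ} (h : IsPrimitiveRoot ϖ N) (hN : 0 < N) (γ : Fin N → ℂ)
    {μ : Fin N → ℝ} {D : ℝ} (h1 : ∀ i, 1 ≤ μ i) (h2 : ∀ i, ‖γ i‖ ≤ D * μ i)
    {u : Fin m → Fin s → Fin N} (hu : Function.Injective (Function.uncurry u)) :
    ∏ k, ‖(Rep (Xm N ϖ) (Gm ϖ γ s) (u k)).det‖ ^ 2 ≤
      (N ^ N * exp (s * D ^ 2) / m ^ s * (∏ i, μ i) ^ 2) ^ m := by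
  rcases Nat.eq_zero_or_pos m with rfl | hm
  · simp
  have hX := Xm_det h
  have hμ : ∀ i, 0 < μ i := fun i => one_pos.trans_le (h1 i)
  have hP : 0 < ∏ i, μ i := prod_pos fun i _ => hμ i
  have hϖ := h.norm'_eq_one hN.ne'
  have hN' : (0 : ℝ) < N := Nat.cast_pos.2 hN
  obtain ⟨T, hT⟩ : ∃ T, Gm ϖ γ s = T * Xm N ϖ :=
    ⟨_, (nonsing_inv_mul_cancel_right _ _ hX.isUnit).symm⟩
  set Δ : Matrix (Fin N) (Fin N) ℂ := diagonal fun i => ((μ i : ℝ) : ℂ)⁻¹ with hΔ
  have hd : ‖Δ.det‖ = (∏ i, μ i)⁻¹ := by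
    rw [hΔ, det_diagonal, norm_prod, ← prod_inv_distrib]
    exact prod_congr rfl fun i _ => by rw [norm_inv, Complex.norm_real, norm_of_nonneg (hμ i).le]
  have h3 := arch_abs (Xm N ϖ * Δ) T (by
    rw [det_mul]
    exact mul_ne_zero hX (norm_ne_zero_iff.1 (hd ▸ inv_ne_zero hP.ne'))) hu hN'
  have h4 : ∑ i, ∑ j, ‖(T * (Xm N ϖ * Δ)) i j‖ ^ 2 ≤ s * (N * D ^ 2) := by
    rw [← Matrix.mul_assoc, ← hT]
    refine (sum_le_card_nsmul _ _ _ fun i _ => sum_le_card_nsmul _ _ (D ^ 2) fun j _ =>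
      pow_le_pow_left₀ (norm_nonneg _) ?_ 2).trans (by simp)
    rw [hΔ, mul_diagonal, norm_mul, norm_inv, Complex.norm_real, norm_of_nonneg (hμ j).le,
      ← div_eq_mul_inv, div_le_iff₀ (hμ j)]
    simpa [Gm, hϖ] using h2 j
  have h5 : ∑ i, ∑ j, ‖(Xm N ϖ * Δ) i j‖ ^ 2 ≤ N * N := by
    refine (sum_le_card_nsmul _ _ _ fun i _ => sum_le_card_nsmul _ _ 1 fun j _ =>
      pow_le_one₀ (norm_nonneg _) ?_).trans (by simp)
    rw [hΔ, mul_diagonal, norm_mul, norm_inv, Complex.norm_real, norm_of_nonneg (hμ j).le,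
      ← div_eq_mul_inv, div_le_one (hμ j)]
    simpa [Xm, hϖ] using h1 j
  simp only [Fintype.card_fin] at h3
  have h6 : ∀ k, ‖(Rep (Xm N ϖ) (Gm ϖ γ s) (u k)).det‖ ^ 2 =
      ‖(T.submatrix id (u k)).det * (Xm N ϖ * Δ).det‖ ^ 2 * (m : ℝ) ^ s *
        ((∏ i, μ i) ^ 2 / m ^ s) := fun k => by
    rw [hT, det_rep _ _ (u := u k) fun v v' hv => (Prod.ext_iff.1 (@hu (k, v) (k, v') hv)).2, det_mul,
      norm_mul, norm_mul, norm_mul, hd]
    field_simp
  rw [prod_congr rfl fun k _ => h6 k, prod_mul_distrib, prod_const, card_univ, Fintype.card_fin,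
    div_mul_eq_mul_div, mul_div_assoc, mul_pow]
  refine mul_le_mul_of_nonneg_right (h3.trans (pow_le_pow_left₀ (by positivity)
    (mul_le_mul_of_nonneg_left (exp_le_exp.2 ?_) (by positivity)) _)) (by positivity)
  rw [sub_le_iff_le_add, div_le_iff₀ hN']
  nlinarith

end Pool.Agent.Lib.MP_f61260_nt
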