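import Pool.Agent.Lib.MP_f61260_nt.Bd.Seq

set_option autoImplicit false

namespace Pool.Agent.Lib.MP_f61260_nt.Bd

open Polynomial Module Finset Function

noncomputable section

variable {k : Type} [Field k]

lemma not_full {s : ℕ} {u : ℤ → k} {a b : ℕ}
    (h : ∀ R : Fin s → ℕ, (∀ r, a ≤ R r ∧ R r < b) → Injective R →
      (Matrix.of fun r y : Fin s => u (R r + (y : ℕ))).det = 0) :
    ∃ V : k[X], V ≠ 0 ∧ V.natDegree < s ∧ ∀ j : ℤ, a ≤ j → j < b → ac V u j = 0 := by
  classical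
  let ρ : {j : ℕ // a ≤ j ∧ j < b} → Fin s → k := fun j y => u (j.1 + (y : ℕ))
  have h1 : Submodule.span k (Set.range ρ) < ⊤ := lt_top_iff_ne_top.2 fun h1 => by
    obtain ⟨κ, f, h2, h3, h4⟩ := exists_linearIndependent' k ρ
    have : Finite κ := h4.finite
    have := Fintype.ofFinite κ
    have h5 := finrank_eq_card_basis (Basis.mk h4 (h3.trans h1).ge)
    rw [finrank_fin_fun] at h5
    let e := (Fintype.equivFinOfCardEq h5.symm).symm
    refine ((Matrix.isUnit_iff_isUnit_det _).1 (Matrix.linearIndependent_rows_iff_isUnit.1 ?_)).ne_zero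
      (h (fun r => (f (e r)).1) (fun r => (f (e r)).2) fun r r' h6 =>
        e.injective (h2 (Subtype.ext h6)))
    exact h4.comp e e.injective
  obtain ⟨f, h2, h3⟩ := Submodule.exists_le_ker_of_lt_top _ h1
  obtain ⟨V, h4, h5, h6⟩ := ex_poly (g := fun y : Fin s => f fun y' => if y = y' then 1 else 0)
    fun h4 => h2 (LinearMap.ext fun v => by
      rw [LinearMap.pi_apply_eq_sum_univ]
      exact Finset.sum_eq_zero fun y _ => by rw [congrFun h4 y]; simp)
  refine ⟨V, h4, h5, fun j h7 h8 => ?_⟩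
  obtain ⟨j, rfl⟩ := Int.eq_ofNat_of_zero_le (show 0 ≤ j by omega)
  have h9 := h3 (Submodule.subset_span ⟨⟨j, by omega, by omega⟩, rfl⟩)
  rw [LinearMap.mem_ker, LinearMap.pi_apply_eq_sum_univ] at h9
  rw [h6]
  exact Eq.trans (Finset.sum_congr rfl fun y _ => mul_comm _ _) h9

lemma greedy {s p : ℕ} (hs : 0 < s) (u : ℤ → k) (m : ℕ) : ∀ a : ℕ,
    (∀ R : Fin m → Fin s → ℕ, (∀ i r, a ≤ R i r ∧ R i r < p) → Injective (uncurry R) →
      ∃ i, (Matrix.of fun r y : Fin s => u (R i r + (y : ℕ))).det = 0) →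
    ∃ (B : k[X]) (T : Finset ℤ), B ≠ 0 ∧ B.natDegree ≤ m * s ∧ T.card < m ∧
      ∀ j : ℤ, a ≤ j → j + (m * s : ℕ) < p → (∀ t ∈ T, ¬ (j ≤ t ∧ t ≤ j + (m * s : ℕ))) →
        ac B u j = 0 := by
  classical
  induction m with
  | zero =>
    intro a h
    obtain ⟨i, -⟩ := h (fun i => i.elim0) (fun i => i.elim0) fun x => x.1.elim0
    exact i.elim0
  | succ m ih =>
    intro a h
    have h0 : (m + 1) * s = m * s + s := by ring
    by_cases h1 : ∃ b, b ≤ p ∧ ∃ R : Fin s → ℕ, (∀ r, a ≤ R r ∧ R r < b) ∧ Injective R ∧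
      (Matrix.of fun r y : Fin s => u (R r + (y : ℕ))).det ≠ 0
    swap
    · obtain ⟨V, h2, h3, h4⟩ := not_full (u := u) (a := a) (b := p) fun R h2 h3 =>
        by_contra fun h4 => h1 ⟨p, le_rfl, R, h2, h3, h4⟩
      exact ⟨V, ∅, h2, by omega, by simp, fun j h5 h6 _ => h4 j h5 (by omega)⟩
    obtain ⟨h2, R0, h3, h4, h5⟩ := Nat.find_spec h1
    have h6 := h3 ⟨0, hs⟩
    obtain ⟨V, h7, h8, h9⟩ := not_full (u := u) (a := a) (b := Nat.find h1 - 1) fun R h7 h8 =>
      by_contra fun h9 => Nat.find_min h1 (m := Nat.find h1 - 1) (by omega) ⟨by omega, R, h7, h8, h9⟩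
    generalize Nat.find h1 = b at *
    obtain ⟨C, T, g1, g2, g3, g4⟩ := ih b fun R g1 g2 => by
      obtain ⟨i, hi⟩ := h (Fin.cons R0 R) (fun i => Fin.cases (fun r => ⟨(h3 r).1, (h3 r).2.trans_le h2⟩)
        (fun i r => ⟨le_trans (by omega) (g1 i r).1, (g1 i r).2⟩) i) (by
          rintro ⟨i, r⟩ ⟨i', r'⟩ e
          induction i using Fin.cases <;> induction i' using Fin.cases <;>
            simp only [uncurry, Fin.cons_zero, Fin.cons_succ] at e
          · rw [h4 e]
          · exact absurd e ((h3 r).2.trans_le (g1 _ r').1).ne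
          · exact absurd e ((h3 r').2.trans_le (g1 _ r).1).ne'
          · obtain ⟨rfl, rfl⟩ := Prod.ext_iff.1 (g2 (a₁ := (_, r)) (a₂ := (_, r')) e)
            rfl)
      induction i using Fin.cases with
      | zero => exact absurd hi h5
      | succ i => exact ⟨i, hi⟩
    refine ⟨V * C, insert ((b : ℤ) - 1) T, mul_ne_zero h7 g1, natDegree_mul_le.trans (by omega),
      (card_insert_le _ _).trans_lt (by omega), fun j g5 g6 g7 => ?_⟩
    have g8 := g7 _ (mem_insert_self _ _)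
    rw [h0] at g6 g7 g8
    by_cases g9 : (b : ℤ) ≤ j
    · rw [ac_mul]
      exact ac_zero_of h8.le fun i g10 g11 => g4 i (by omega) (by omega) fun t ht g12 =>
        g7 t (mem_insert_of_mem ht) (by omega)
    · rw [mul_comm, ac_mul]
      exact ac_zero_of g2 fun i g10 g11 => h9 i (by omega) (by omega)

/-- Segments that contain no point of `T` modulo `p`. -/
def Fre (p : ℕ) (T : Finset ℤ) (a b : ℤ) : Prop :=
  ∀ t ∈ T, ∀ q : ℤ, ¬ (a ≤ t + q * p ∧ t + q * p ≤ b)

/-- Sequences that are recurrent on every segment far from `m` points. -/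
def Loc (p m d : ℕ) (u : ℤ → k) : Prop := ∃ T : Finset ℤ, T.card ≤ m ∧ ∀ a b : ℤ,
  Fre p T (a - d) (b + d) → ∃ n ≤ d, ∃ y, Ord n y ∧ ∀ j, a ≤ j → j ≤ b → y j = u j

lemma per_zpow {u : ℤ → k} {b : k} (hb : b ≠ 0) {p : ℤ} (h : ∀ e, u (e + p) = b * u e) (q e : ℤ) :
    u (e + q * p) = b ^ q * u e := by
  induction q using Int.induction_on with
  | zero => simp
  | succ q ih => rw [add_mul, one_mul, ← add_assoc, h, ih, zpow_add_one₀ hb]; ring
  | pred q ih =>
    have := h (e + (-q - 1) * p)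
    rw [show e + (-q - 1) * p + p = e + -q * p by ring, ih] at this
    rw [zpow_sub_one₀ hb, mul_right_comm, this]
    field_simp

lemma loc_of {s p m : ℕ} (hs : 0 < s) (hp : 0 < p) {u : ℤ → k} {β : k}
    (hu : ∀ q e : ℤ, u (e + q * p) = β ^ q * u e)
    (h : ∀ R : Fin m → Fin s → ℕ, (∀ i r, R i r < p) → Injective (uncurry R) →
      ∃ i, (Matrix.of fun r y : Fin s => u ((y : ℕ) - R i r)).det = 0) : Loc p m (m * s) u := by
  classical
  obtain ⟨B, T, h1, h2, h3, h4⟩ := greedy (p := p) hs (sh (1 - p) u) m 0 fun R h1 h2 => by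
    obtain ⟨i, hi⟩ := h (fun i r => p - 1 - R i r) (fun i r => by omega) fun x y e => h2 (by
      have := (h1 x.1 x.2).2
      have := (h1 y.1 y.2).2
      simp only [uncurry] at e ⊢
      omega)
    refine ⟨i, Eq.trans ?_ hi⟩
    congr 2
    funext r y
    have := (h1 i r).2
    rw [sh_apply]
    congr 1
    omega
  have h5 : ∀ j, Fre p (insert 1 (T.image (· + 1))) j (j + (m * s : ℕ)) → ac B u j = 0 := by
    intro j hj
    have h5 := Int.emod_nonneg (j - 1) (b := p) (by omega)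
    have h6 := Int.emod_lt_of_pos (j - 1) (b := p) (by omega)
    have h7 := Int.emod_add_ediv_mul (j - 1) p
    generalize (j - 1) % p = i at *
    generalize (j - 1) / p = q at *
    have h8 := hj 1 (mem_insert_self _ _) (q + 1)
    have h9 := h4 i h5 (by rw [add_mul] at h8; omega) fun t ht h9 =>
      hj (t + 1) (mem_insert_of_mem (mem_image_of_mem _ ht)) q (by omega)
    have h10 : sh ((q + 1) * p) u = β ^ (q + 1) • u := funext fun e => hu _ _
    rw [ac_sh, sh_apply] at h9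
    rw [show j = i + (1 - p) + (q + 1) * p by rw [add_mul]; omega, ← sh_apply _ (ac B u), ← ac_sh,
      h10, map_smul, Pi.smul_apply, h9, smul_zero]
  refine ⟨insert 1 (T.image (· + 1)), (card_insert_le _ _).trans
    (Nat.succ_le_of_lt (card_image_le.trans_lt h3)), fun a b hab => ?_⟩
  obtain ⟨y, h6, h7⟩ := ext1 h1 h2 (u := u) (a := a - (m * s : ℕ)) (b := b + (m * s : ℕ))
    fun j h6 h7 => h5 j fun t ht q h8 => hab t ht q (by omega)
  obtain ⟨n, h8, h9⟩ := ord_of_ann h1 h2 h6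
  exact ⟨n, h8, y, h9, fun j g1 g2 => h7 j (by omega) (by omega)⟩

lemma ex_free {p m W : ℕ} {T : Finset ℤ} (hT : T.card ≤ m) (h : (m + 1) * (W + 1) ≤ p) (A : ℤ) :
    ∃ g, A ≤ g ∧ g + W < A + ((m + 1) * (W + 1) : ℕ) ∧ Fre p T g (g + W) := by
  by_contra! hc
  have h0 : ∀ i j : ℕ, i < j → (i : ℤ) * (W + 1) + W < j * (W + 1) := fun i j hij => by
    have : (i : ℤ) + 1 ≤ j := by omega
    nlinarith
  have h1 : ∀ i : ℕ, i ∈ range (m + 1) → ∃ t ∈ T, ∃ q : ℤ, A + i * (W + 1) ≤ t + q * p ∧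
      t + q * p ≤ A + i * (W + 1) + W := fun i hi => by
    have h1 := h0 i _ (mem_range.1 hi)
    simpa [Fre] using hc (A + i * (W + 1)) (le_add_of_nonneg_right (by positivity))
      (by push_cast at h1 ⊢; omega)
  choose! t ht q hq using h1
  obtain ⟨i, hi, j, hj, hij, e⟩ := exists_ne_map_eq_of_card_lt_of_maps_to
    (by rw [card_range]; omega) ht
  have h2 := hq i hi
  have h3 := hq j hj
  have h4 := h0 i _ (mem_range.1 hi)
  have h5 := h0 j _ (mem_range.1 hj)
  have h6 : (0 : ℤ) ≤ i * (W + 1) := by positivity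
  have h7 : (0 : ℤ) ≤ j * (W + 1) := by positivity
  have h8 : ((m + 1 : ℕ) : ℤ) * (W + 1) ≤ p := by exact_mod_cast h
  have h9 := Int.eq_zero_of_abs_lt_dvd (m := p) (x := q i * p - q j * p) ⟨q i - q j, by ring⟩
    (abs_lt.2 ⟨by omega, by omega⟩)
  rcases hij.lt_or_gt with h10 | h10
  · have := h0 _ _ h10; omega
  · have := h0 _ _ h10; omega

end

end Pool.Agent.Lib.MP_f61260_nt.Bd
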