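import Pool.Agent.Lib.MP_f61260_nt.Bd.Tow

/-! Relations of bounded length. -/

set_option autoImplicit false

namespace Pool.Agent.Lib.MP_f61260_nt

open Finset
open scoped Pointwise

lemma Orb.rel {A A' : Subgroup GA} {α : Qb} {D e : ℕ} (h : Orb A' α D) (hQ : IdxLe A A' e) :
    Orb A α (e * D) := by
  classical
  obtain ⟨R, h1, h2⟩ := h
  obtain ⟨T, hT⟩ := hQ
  refine ⟨univ.biUnion fun i : T.ι => R.image (T.r i), ?_, fun g hg => ?_⟩
  · refine (card_biUnion_le_card_mul _ _ D fun i _ => card_image_le.trans h1).trans ?_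
    rw [card_univ]
    exact Nat.mul_le_mul_right D hT
  · obtain ⟨i, hi⟩ := T.ex g hg
    refine mem_biUnion.2 ⟨i, mem_univ _, mem_image.2 ⟨_, h2 _ hi, ?_⟩⟩
    rw [← AlgEquiv.mul_apply, mul_inv_cancel_left]

lemma Orb.root {A : Subgroup GA} {α : Qb} {D s : ℕ} (hs : 0 < s) (h : Orb A (α ^ s) D) :
    Orb A α (D * s) := by
  classical
  obtain ⟨R, h1, h2⟩ := h
  refine ⟨R.biUnion fun x => (Polynomial.nthRoots s x).toFinset, ?_, fun g hg => ?_⟩
  · exact (card_biUnion_le_card_mul _ _ s fun x _ =>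
      (Multiset.toFinset_card_le _).trans (Polynomial.card_nthRoots _ _)).trans
        (Nat.mul_le_mul_right s h1)
  · exact mem_biUnion.2 ⟨_, h2 g hg, by
      rw [Multiset.mem_toFinset, Polynomial.mem_nthRoots hs, map_pow]⟩

lemma Bd.cover {J : Type} (A : Subgroup GA) (s : Finset J) (r : J → Qb) (σ : ℕ → GA) (m : ℕ)
    (h1 : ∀ i, σ i ∈ A) (h : ∀ τ ∈ A, ∃ i < m, ∃ l ∈ s, τ (r l) = σ i (r l)) :
    ∃ l ∈ s, Orb A (r l) (m * s.card) := by
  classical
  obtain ⟨u, hu, h2, h3⟩ := Subgroup.exists_index_le_card_of_leftCoset_cover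
    (H := fun u : ℕ × J => (St ℚ (r u.2)).subgroupOf A) (g := fun u => ⟨σ u.1, h1 _⟩)
    (s := range m ×ˢ s) (Set.eq_univ_of_forall fun τ => by
      obtain ⟨i, hi, l, hl, h2⟩ := h τ τ.2
      refine Set.mem_iUnion₂.2 ⟨(i, l), by simp [hi, hl], (mem_leftCoset_iff _).2 ?_⟩
      change ((σ i)⁻¹ * τ) (r l) = r l
      rw [AlgEquiv.mul_apply, h2, ← AlgEquiv.mul_apply, inv_mul_cancel, AlgEquiv.one_apply])
  have := Fintype.ofFinite (A ⧸ (St ℚ (r u.2)).subgroupOf A)
  refine ⟨u.2, (mem_product.1 hu).2, univ.image fun q : A ⧸ (St ℚ (r u.2)).subgroupOf A =>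
    (q.out : GA) (r u.2), card_image_le.trans ?_, fun g hg => mem_image.2 ⟨(⟨g, hg⟩ : A), mem_univ _, ?_⟩⟩
  · rwa [card_univ, ← Nat.card_eq_fintype_card, ← Subgroup.index_eq_card, ← card_range m,
      ← card_product]
  · obtain ⟨k, hk⟩ := QuotientGroup.mk_out_eq_mul ((St ℚ (r u.2)).subgroupOf A) ⟨g, hg⟩
    rw [hk]
    exact congrArg g k.2

lemma Bd.pick {J : Type} (A : Subgroup GA) (s : Finset J) (r : J → Qb) (C : ℕ)
    (h : ∀ σ : ℕ → GA, (∀ i, σ i ∈ A) → ∃ i j, j < i ∧ i ≤ C ∧ ∃ l ∈ s, σ i (r l) = σ j (r l)) :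
    ∃ l ∈ s, Orb A (r l) (C * s.card) := by
  by_contra h0
  have key : ∀ m ≤ C, ∃ σ : ℕ → GA, (∀ i, σ i ∈ A) ∧
      ∀ i j, j < i → i ≤ m → ∀ l ∈ s, σ i (r l) ≠ σ j (r l) := by
    intro m hm
    induction m with
    | zero => exact ⟨fun _ => 1, fun _ => A.one_mem, fun i j h1 h2 => by omega⟩
    | succ m ih =>
      obtain ⟨σ, h1, h2⟩ := ih (by omega)
      by_contra h3
      obtain ⟨l, hl, R, h4, h5⟩ := Bd.cover A s r σ (m + 1) h1 fun τ hτ => by
        by_contra h4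
        refine h3 ⟨Function.update σ (m + 1) τ, fun i => ?_, fun i j hj hi l hl => ?_⟩
        · rw [Function.update_apply]
          split_ifs
          exacts [hτ, h1 i]
        rw [Function.update_of_ne (by omega : j ≠ m + 1)]
        rcases hi.eq_or_lt with rfl | hi
        · rw [Function.update_self]
          exact fun h => h4 ⟨j, hj, l, hl, h⟩
        · rw [Function.update_of_ne hi.ne]
          exact h2 i j hj (by omega) l hl
      exact h0 ⟨l, hl, R, h4.trans (Nat.mul_le_mul_right _ hm), h5⟩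
  obtain ⟨σ, h1, h2⟩ := key C le_rfl
  obtain ⟨i, j, h3, h4, l, hl, h5⟩ := h σ h1
  exact h2 i j h3 h4 l hl h5

theorem Ctx.length {ι : Type} [Fintype ι] (c : Ctx ι) (𝒜 : Subgroup GA → Prop)
    (hG : ∀ A, 𝒜 A → A ≤ c.G0)
    (H : ∀ D, ∃ C : ℝ, 0 < C ∧ ∀ A, 𝒜 A → ∀ α, α ≠ 0 → ¬ c.Dv α → Orb A α D →
      ∀ η, c.Dv η → C ≤ ht (α * η)) (L : ℕ) : ∀ E : ℕ, ∃ C : ℝ, 0 < C ∧
    ∀ A, 𝒜 A → ∀ A' ≤ A, IdxLe A A' E → ∀ {J : Type} (s : Finset J), s.card ≤ L →
    ∀ (β g : J → Qb) (t : J → ℕ) (α : Qb) (T t₀ : ℕ), (∀ j ∈ s, Fx A' (β j)) →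
    (∀ j ∈ s, c.Dv (g j)) → (∀ j ∈ s, t j ≤ T) → α ≠ 0 → ¬ c.Dv α →
    ∑ j ∈ s, β j * g j * α ^ t j = 0 → ∑ j ∈ s, (if t j = t₀ then β j * g j else 0) ≠ 0 →
    C ≤ T * ht α := by
  classical
  induction L with
  | zero => exact fun _ => ⟨1, one_pos, fun _ _ _ _ _ _ s hs _ _ _ _ _ _ _ _ _ _ _ _ h =>
      absurd (by rw [card_eq_zero.1 (Nat.le_zero.1 hs), sum_empty]) h⟩
  | succ L ih =>
    intro E
    obtain ⟨n, K, ε, hn, hε, hU⟩ := Bd.unif (L + 1)
    obtain ⟨C1, hC1, H1⟩ := H (E * (K * L))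
    obtain ⟨C2, hC2, H2⟩ := ih (E * (K * L * n))
    have hn' : (0 : ℝ) < n := Nat.cast_pos.2 hn
    refine ⟨min (ε / 2) (min (C1 / n) C2), by positivity,
      fun A hA A' hA' hE J s hs β g t α T t₀ hβ hg ht' h0 hnd h1 h2 => ?_⟩
    by_contra! h3
    obtain ⟨l₀, hl₀, h4⟩ := exists_ne_zero_of_sum_ne_zero h2
    have h5 : β l₀ ≠ 0 := fun h => h4 (by simp [h])
    set w : J → Qb := fun j => g j * α ^ t j with hw
    have hw0 : ∀ j ∈ s, w j ≠ 0 := fun j hj => mul_ne_zero (hg j hj).ne (pow_ne_zero _ h0)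
    obtain ⟨l, hl, h6⟩ := Bd.pick A' (s.erase l₀) (fun l => (w l₀ / w l) ^ n) K fun σ hσ => by
      refine (hU (ι := s) (by simpa using hs)
        (fun i l => σ i (w l) / w l) (fun l => β l * w l) ⟨l₀, hl₀⟩ (mul_ne_zero h5 (hw0 _ hl₀))
        (fun i => div_ne_zero ((map_ne_zero _).2 (hw0 _ hl₀)) (hw0 _ hl₀)) (fun i l => ?_)
        fun i => ?_).imp fun i ⟨j, l, h6, h7, h8, h9⟩ =>
          ⟨j, h6, h7, l, mem_erase.2 ⟨fun h => h8 (Subtype.ext h), l.2⟩, ?_⟩
      · obtain ⟨ξ, h6, h7⟩ := (hg l l.2).act _ (hG A hA (hA' (hσ i)))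
        have h8 := ht_mul (σ i α) α⁻¹
        have := (hg l l.2).ne
        rw [show σ i (w l) / w l = ξ * (σ i α * α⁻¹) ^ t l by
          simp only [hw, map_mul, map_pow, h7, mul_pow, inv_pow]; field_simp, h6.ht, ht_pow]
        rw [ht_conj, ht_inv] at h8
        have := mul_le_mul (Nat.cast_le.2 (ht' l l.2)) h8 (ht_nonneg _) (Nat.cast_nonneg (α := ℝ) T)
        linarith [min_le_left (ε / 2) (min (C1 / n) C2)]
      · rw [sum_coe_sort s fun l => β l * w l * (σ i (w l) / w l), ← map_zero (σ i), ← h1, map_sum]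
        refine sum_congr rfl fun l hl => ?_
        rw [mul_assoc, mul_div_cancel₀ _ (hw0 l hl), mul_assoc, map_mul _ (β l), hβ l hl _ (hσ i)]
      · have := hw0 _ hl₀
        have := hw0 _ l.2
        simp only [map_pow, map_div₀, div_pow, mul_pow] at h9 ⊢
        rw [div_eq_div_iff (pow_ne_zero _ ((map_ne_zero _).2 this))
          (pow_ne_zero _ ((map_ne_zero _).2 this))]
        field_simp at h9
        linear_combination h9
    have hc : (s.erase l₀).card ≤ L := by rw [card_erase_of_mem hl₀]; omega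
    replace h6 : Orb A' ((w l₀ / w l) ^ n) (K * L) :=
      let ⟨R, h, h'⟩ := h6; ⟨R, h.trans (Nat.mul_le_mul_left _ hc), h'⟩
    have hl' := mem_of_mem_erase hl
    have hgl := (hg l hl').ne
    have hg0 := (hg _ hl₀).ne
    by_cases h7 : t l₀ = t l
    · rw [show w l₀ / w l = g l₀ / g l by simp only [hw, h7]; field_simp] at h6
      have key : ∀ φ : ℕ → Qb, ∑ j ∈ s.erase l₀, Function.update β l (β l + β l₀ * (g l₀ / g l)) j *
          g j * φ (t j) = ∑ j ∈ s, β j * g j * φ (t j) := fun φ => by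
        rw [← add_sum_erase _ _ hl₀, ← add_sum_erase _ _ hl, ← add_sum_erase _ _ hl,
          Function.update_self, sum_congr rfl fun j hj => by
            rw [Function.update_of_ne (ne_of_mem_erase hj)], h7]
        field_simp
        ring
      refine ((min_le_right _ _).trans (min_le_right _ _)).not_gt (h3.trans_le' (H2 A hA
        (A' ⊓ St ℚ (g l₀ / g l)) (inf_le_left.trans hA') (hE.trans ((h6.root hn).idxLe.restrict
          le_rfl le_rfl) hA' inf_le_left) (s.erase l₀) hc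
        (Function.update β l (β l + β l₀ * (g l₀ / g l))) g t α T t₀ (fun j hj => ?_)
        (fun j hj => hg j (mem_of_mem_erase hj)) (fun j hj => ht' j (mem_of_mem_erase hj)) h0 hnd
        ((key (α ^ ·)).trans h1) ?_))
      · rw [Function.update_apply]
        split_ifs
        · exact ((hβ l hl').mono inf_le_left).add (((hβ _ hl₀).mono inf_le_left).mul
            ((Fx.st _).mono inf_le_right))
        · exact (hβ j (mem_of_mem_erase hj)).mono inf_le_left
      · have := key fun u => if u = t₀ then 1 else 0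
        simp only [mul_ite, mul_one, mul_zero] at this
        rwa [this]
    · have h8 : (w l₀ / w l) ^ n * (g l / g l₀) ^ n = (α ^ ((t l₀ : ℤ) - t l)) ^ n := by
        rw [← mul_pow, zpow_sub₀ h0]
        simp only [hw, zpow_natCast]
        congr 1
        field_simp
      have h9 : c.Dv ((g l / g l₀) ^ n) := ((hg l hl').mul (hg _ hl₀).inv).pow n
      have h10 := H1 A hA _ (pow_ne_zero _ (div_ne_zero (hw0 _ hl₀) (hw0 _ hl'))) (fun h => hnd (by
        have := ((h8 ▸ h.mul h9).of_pow hn).zpw ((t l₀ : ℤ) - t l)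
        rw [← zpow_mul, ← Int.natAbs_mul_self, zpow_natCast] at this
        exact this.of_pow (by simpa [sub_eq_zero] using h7))) (h6.rel hE) _ h9
      rw [h8, ht_pow, ht_zpow, ← div_le_iff₀' hn'] at h10
      have h11 : |(((t l₀ : ℤ) - t l : ℤ) : ℝ)| ≤ T := by
        have := ht' l hl'
        have := ht' _ hl₀
        have : |(t l₀ : ℤ) - t l| ≤ T := abs_le.2 ⟨by omega, by omega⟩
        rw [← Int.cast_abs, ← Int.cast_natCast]
        exact Int.cast_le.2 this
      exact ((min_le_right _ _).trans (min_le_left _ _)).not_gt (h3.trans_le'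
        (h10.trans (mul_le_mul_of_nonneg_right h11 (ht_nonneg _))))

end Pool.Agent.Lib.MP_f61260_nt
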