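import Pool.Agent.Lib.MP_f61260_nt.Bd.LenTop

set_option autoImplicit false

namespace Pool.Agent.Lib.MP_f61260_nt

open Polynomial

theorem exists_length (Γ : Subgroup ℂˣ) (halg : ∀ g ∈ Γ, IsAlgebraic ℚ (g : ℂ))
    (Q : Polynomial (IntermediateField.adjoin ℚ
      {z : ℂ | z ≠ 0 ∧ ∃ n : ℕ, 1 ≤ n ∧ ∃ g ∈ Γ, (g : ℂ) = z ^ n})) :
    ∃ (L : ℕ) (β : Fin L → ℚ) (η : Fin L → ℂ) (t : Fin L → ℕ),
      (∀ j, η j ∈ {z : ℂ | z ≠ 0 ∧ ∃ n : ℕ, 1 ≤ n ∧ ∃ g ∈ Γ, (g : ℂ) = z ^ n}) ∧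
      Q.map (algebraMap _ ℂ) = ∑ j, Polynomial.C (β j * η j) * Polynomial.X ^ t j := by
  let G := {z : ℂ | z ≠ 0 ∧ ∃ n : ℕ, 1 ≤ n ∧ ∃ g ∈ Γ, (g : ℂ) = z ^ n}
  have h1 : ∀ u ∈ IntermediateField.adjoin ℚ G, u ∈ Submodule.span ℚ G := fun u hu => by
    have h2 : u ∈ Algebra.adjoin ℚ G := by
      rwa [← IntermediateField.adjoin_toSubalgebra_of_isAlgebraic (S := G)
        fun z ⟨_, n, hn, g, hg, h⟩ => (h ▸ halg g hg).of_pow hn]
    rw [← Subalgebra.mem_toSubmodule, Algebra.adjoin_eq_span] at h2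
    refine Submodule.span_mono (fun x hx => ?_) h2
    induction hx using Submonoid.closure_induction with
    | mem x hx => exact hx
    | one => exact ⟨one_ne_zero, 1, le_rfl, 1, Γ.one_mem, by simp⟩
    | mul x y _ _ hx hy =>
      obtain ⟨h3, n, hn, g, hg, h⟩ := hx
      obtain ⟨h4, m, hm, g', hg', h'⟩ := hy
      exact ⟨mul_ne_zero h3 h4, n * m, Nat.mul_pos hn hm, g ^ m * g' ^ n,
        Γ.mul_mem (Γ.pow_mem hg m) (Γ.pow_mem hg' n), by
          simp only [Units.val_mul, Units.val_pow_eq_pow_val, h, h', ← pow_mul, mul_pow, mul_comm n m]⟩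
  have h2 : Q.map (algebraMap _ ℂ) ∈
      Submodule.span ℚ {P : ℂ[X] | ∃ η ∈ G, ∃ t : ℕ, P = monomial t η} := by
    induction Q using Polynomial.induction_on' with
    | add p q hp hq => rw [Polynomial.map_add]; exact add_mem hp hq
    | monomial n a =>
      rw [map_monomial]
      exact Submodule.span_mono (by rintro _ ⟨η, hη, h⟩; exact ⟨η, hη, n, h.symm⟩)
        (Submodule.apply_mem_span_image_of_mem_span ((monomial n).restrictScalars ℚ) (h1 _ a.2))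
  obtain ⟨L, β, P, h⟩ := Submodule.mem_span_set'.1 h2
  choose η h3 t h4 using fun j => (P j).2
  exact ⟨L, β, η, t, h3, h.symm.trans <| Finset.sum_congr rfl fun j _ => by
    rw [h4, smul_monomial, C_mul_X_pow_eq_monomial, Rat.smul_def]⟩

end Pool.Agent.Lib.MP_f61260_nt
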