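import Pool.Agent.Lib.MP_f61260_nt.Bd.Top
import Pool.Agent.Lib.MP_f61260_nt.Bd.Len

set_option autoImplicit false

namespace Pool.Agent.Lib.MP_f61260_nt

open Real

theorem length_bound (S : Finset ℕ) (Γ : Subgroup ℂˣ) (hΓ : Γ.FG)
    (halg : ∀ g ∈ Γ, IsAlgebraic ℚ (g : ℂ)) (θ : ℂ) (hθ : IsAlgebraic ℚ θ) (L : ℕ) :
    ∃ c : ℝ, 0 < c ∧ ∀ z ∈ {z : ℂ | z ≠ 0 ∧ ∃ n : ℕ, 1 ≤ n ∧ ∃ g ∈ Γ, (g : ℂ) = z ^ n},
      ∀ α : ℂ, α ≠ 0 → α ∉ {z : ℂ | z ≠ 0 ∧ ∃ n : ℕ, 1 ≤ n ∧ ∃ g ∈ Γ, (g : ℂ) = z ^ n} →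
      ∀ (β η : Fin L → ℂ) (t : Fin L → ℕ),
      (∀ j, IsAlgebraic ℚ (β j) ∧ (minpoly (IntermediateField.adjoin ℚ ({θ, z} ∪
        {y : ℂ | ∃ n : ℕ, 1 ≤ n ∧ n.primeFactors ⊆ S ∧ ∃ g ∈ Γ, (g : ℂ) = y ^ n} ∪
        {u : ℂ | u ∈ IntermediateField.adjoin ℚ {ζ : ℂ | ∃ n : ℕ, 1 ≤ n ∧ ζ ^ n = 1} ∧
          (minpoly ℚ u).natDegree ≤ L})) (β j)).natDegree ≤ L) →
      (∀ j, η j ∈ {z : ℂ | z ≠ 0 ∧ ∃ n : ℕ, 1 ≤ n ∧ ∃ g ∈ Γ, (g : ℂ) = z ^ n}) →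
      ∀ P : Polynomial ℂ, P = ∑ j, Polynomial.C (β j * η j) * Polynomial.X ^ t j → P ≠ 0 →
      P.eval α = 0 → ∀ f : Polynomial ℤ, Irreducible f → Polynomial.aeval α f = 0 →
        c / (P.natDegree : ℝ) ≤
          Real.log (Polynomial.mahlerMeasure (f.map (Int.castRingHom ℂ))) / (f.natDegree : ℝ) := by
  classical
  obtain ⟨ι, _, γ, N, hN, h1, h2, h3⟩ := fg_basis Γ hΓ
  choose t ht1 ht2 using fun a => exists_sys (Complex.log (γ a)) (by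
    rw [Complex.exp_log (γ a).ne_zero]; exact halg _ (h1 a))
  obtain ⟨z, hz1, hz2⟩ := exists_sys (2 * π * Complex.I) (by
    rw [Complex.exp_two_pi_mul_I]; exact isAlgebraic_one)
  let c : Ctx ι := ⟨z, t, hz1, fun n hn => IsPrimitiveRoot.coe_submonoidClass_iff.1 (by
    rw [hz2]; exact Complex.isPrimitiveRoot_exp n hn.ne'), ht1⟩
  have h4 : ∀ w : ι → ℤ, ((∏ a, c.t a 1 ^ w a : Qb) : ℂ) = ((∏ a, γ a ^ w a : ℂˣ) : ℂ) := fun w => by
    simp only [Units.coe_prod, Units.val_zpow_eq_zpow_val]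
    refine (map_prod (algebraMap Qb ℂ) _ _).trans (Finset.prod_congr rfl fun a _ => ?_)
    rw [map_zpow₀]
    exact congrArg (· ^ w a) ((ht2 a 1).trans (by simp [Complex.exp_log (γ _).ne_zero]))
  have h5 : ∀ x : Qb, c.Dv x ↔ (x : ℂ) ≠ 0 ∧ ∃ n : ℕ, 1 ≤ n ∧ ∃ g ∈ Γ, (g : ℂ) = (x : ℂ) ^ n := by
    refine fun x => ⟨fun h => ⟨fun h' => h.ne (Subtype.ext h'), ?_⟩, fun ⟨_, n, hn, g, hg, h⟩ => ?_⟩
    · obtain ⟨n, hn, w, h⟩ := h
      exact ⟨n, hn, _, Γ.prod_mem fun a _ => Γ.zpow_mem (h1 a) (w a), by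
        rw [← h4, ← h]; rfl⟩
    · obtain ⟨w, hw⟩ := h3 g hg
      exact ⟨n * N, Nat.mul_pos hn hN, w, Subtype.ext (by
        rw [h4, ← hw, pow_mul]; simp [h])⟩
  have hq : ∀ (y : ℂ) (n : ℕ), 1 ≤ n → IsAlgebraic ℚ (y ^ n) → ∃ x : Qb, (x : ℂ) = y :=
    fun y n hn h => ⟨⟨y, mem_algebraicClosure_iff.2 (h.of_pow hn)⟩, rfl⟩
  lift θ to Qb using mem_algebraicClosure_iff.2 hθ
  set S' := S.filter Nat.Prime ∪ N.primeFactors with hS'
  obtain ⟨C, hC, h6⟩ := c.length (fun A => ∃ (n M : ℕ) (y : Qb), 0 < n ∧ n.primeFactors ⊆ S' ∧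
    0 < M ∧ c.Dv y ∧ A = St ℚ θ ⊓ c.Lv n n ⊓ St ℚ y ⊓ c.Pw L.factorial M)
    (fun A ⟨n, M, y, h, _, _, _, hA⟩ =>
      hA ▸ inf_le_left.trans (inf_le_left.trans (inf_le_right.trans (Ctx.Lv_le h))))
    (fun D => (c.simpleD S' (fun p hp => by
      rcases Finset.mem_union.1 hp with h | h
      · exact (Finset.mem_filter.1 h).2
      · exact Nat.prime_of_mem_primeFactors h) (fun w ⟨n, hn, h⟩ => by
        have := h2 (fun a => w a * n) (Units.ext (by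
          simp only [zpow_mul, zpow_natCast, Finset.prod_pow, Units.val_pow_eq_pow_val, ← h4]
          exact congrArg Subtype.val h))
        exact funext fun a => (mul_eq_zero.1 (congrFun this a)).resolve_right
          (by exact_mod_cast hn.ne')) θ D L.factorial_pos).imp
      fun C h => ⟨h.1, fun A ⟨n, M, y, h7, h8, h9, h10, hA⟩ α h11 h12 h13 =>
        h.2 n M y α h7 h8 h9 h10 h11 h12 (hA ▸ h13)⟩) L (∏ _j : Fin L, L)
  refine ⟨C, hC, fun y hy α h0 hnd β η τ hβ hη P hP hP0 hPα f hf hfα => ?_⟩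
  have hD : ∀ η ∈ {z : ℂ | z ≠ 0 ∧ ∃ n : ℕ, 1 ≤ n ∧ ∃ g ∈ Γ, (g : ℂ) = z ^ n}, ∃ x : Qb, (x : ℂ) = η :=
    fun η ⟨_, n, hn, g, hg, h⟩ => hq η n hn (h ▸ halg g hg)
  choose g hg using fun j => hD _ (hη j)
  obtain ⟨y, rfl⟩ := hD y hy
  obtain ⟨α, rfl⟩ := hq α 1 le_rfl (by
    rw [pow_one]
    exact (IsAlgebraic.extendScalars (RingHom.injective_int (algebraMap ℤ ℚ))
      ⟨f, hf.ne_zero, hfα⟩))
  have hi : ∀ x : Qb, IsIntegral ℚ (x : ℂ) := fun x => (mem_algebraicClosure_iff.1 x.2).isIntegral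
  let A : {u : ℕ × ℕ // 0 < u.1 ∧ u.1.primeFactors ⊆ S' ∧ 0 < u.2} → Subgroup GA := fun u =>
    St ℚ θ ⊓ c.Lv u.1.1 u.1.1 ⊓ St ℚ y ⊓ c.Pw L.factorial u.1.2
  have hA : ∀ i j, ∃ k, A k ≤ A i ∧ A k ≤ A j := by
    rintro ⟨⟨n, M⟩, h7, h8, h9⟩ ⟨⟨n', M'⟩, h7', h8', h9'⟩
    have := Nat.mul_pos h7 h7'
    refine ⟨⟨(n * n', M * M'), this, ?_, Nat.mul_pos h9 h9'⟩, ?_, ?_⟩
    · rw [Nat.primeFactors_mul h7.ne' h7'.ne']; exact Finset.union_subset h8 h8'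
    all_goals exact inf_le_inf (inf_le_inf_right _ (inf_le_inf_left _
      (Ctx.Lv_mono this this (by simp) (by simp)))) (Ctx.Pw_mono (Nat.mul_pos h9 h9') (by simp))
  let j₀ : {u : ℕ × ℕ // 0 < u.1 ∧ u.1.primeFactors ⊆ S' ∧ 0 < u.2} := ⟨(1, 1), by simp⟩
  choose b hb using fun j => hq (β j) 1 le_rfl (by rw [pow_one]; exact (hβ j).1)
  suffices h : ∀ j, ∃ k, Orb (A k) (b j) L by
    choose k hk using h
    obtain ⟨⟨⟨n, M⟩, h7, h8, h9⟩, hj⟩ : ∃ i, ∀ j ∈ Finset.univ, A i ≤ A (k j) := by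
      induction (Finset.univ : Finset (Fin L)) using Finset.induction_on with
      | empty => exact ⟨j₀, by simp⟩
      | insert a T _ ih =>
        obtain ⟨j, hj⟩ := ih
        obtain ⟨i, h1, h2⟩ := hA j (k a)
        exact ⟨i, fun j' hi => (Finset.mem_insert.1 hi).elim (· ▸ h2) fun h => h1.trans (hj j' h)⟩
    have hc : ∀ u, P.coeff u = ∑ j, if τ j = u then β j * η j else 0 := fun u => by
      simp only [hP, Polynomial.finsetSum_coeff, Polynomial.coeff_C_mul_X_pow, @eq_comm _ u]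
    have hs : ∀ φ : ℕ → ℂ, ∑ j with P.coeff (τ j) ≠ 0, β j * η j * φ (τ j) =
        ∑ u ∈ P.support, P.coeff u * φ u := fun φ => by
      rw [← Finset.sum_fiberwise_of_maps_to (t := P.support) (g := τ) fun j hj =>
        Polynomial.mem_support_iff.2 (Finset.mem_filter.1 hj).2]
      refine Finset.sum_congr rfl fun u hu => ?_
      rw [hc u, Finset.sum_mul, Finset.filter_filter, Finset.sum_filter]
      refine Finset.sum_congr rfl fun j _ => ?_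
      by_cases h : τ j = u
      · simp [h, Polynomial.mem_support_iff.1 hu]
      · simp [h]
    have h10 := h6 _ ⟨n, M, y, h7, h8, h9, (h5 y).2 hy, rfl⟩ _ inf_le_left
      ((IdxLe.iInf fun j => ((hk j).mono (hj j (Finset.mem_univ _))).idxLe).restrict le_rfl le_rfl)
      (Finset.univ.filter fun j => P.coeff (τ j) ≠ 0)
      ((Finset.card_filter_le _ _).trans (by simp)) b g τ α P.natDegree P.natDegree
      (fun j _ => (Fx.st _).mono (inf_le_right.trans (iInf_le _ j))) (fun j _ => (h5 _).2 (hg j ▸ hη j))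
      (fun j h => Polynomial.le_natDegree_of_ne_zero (Finset.mem_filter.1 h).2)
      (fun h => h0 (congrArg Subtype.val h)) (fun h => hnd ((h5 α).1 h))
      ((algebraMap Qb ℂ).injective (by
        rw [Polynomial.eval_eq_sum, Polynomial.sum, ← hs fun u => (α : ℂ) ^ u] at hPα
        simpa [← hb, ← hg] using hPα))
      fun h => Polynomial.leadingCoeff_ne_zero.2 hP0 (by
        have h11 := hs fun u => if u = P.natDegree then 1 else 0
        have h12 := congrArg (algebraMap Qb ℂ) h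
        simp only [mul_ite, mul_one, mul_zero, Finset.sum_ite_eq', map_sum, map_zero,
          Polynomial.natDegree_mem_support_of_nonzero hP0, if_true, apply_ite (algebraMap Qb ℂ),
          map_mul, ← hb, ← hg] at h11 h12
        exact h11.symm.trans h12)
    refine (div_le_of_le_mul₀ (Nat.cast_nonneg _) (ht_nonneg _) (h10.trans_eq (mul_comm _ _))).trans
      (ht_le_mahler hf ((algebraMap Qb ℂ).injective (by
        rw [← Polynomial.aeval_algebraMap_apply, map_zero]; exact hfα)))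
  refine fun j => Bd.orb_of A j₀ hA ?_ (hi _).tower_top (hb j ▸ (hβ j).2)
  refine fun u => Bd.dir_adj A j₀ hA ?_ u.2
  intro x hx
  rcases hx with ((rfl | rfl) | ⟨n, hn, hnS, g, hg, h⟩) | ⟨h7, h8⟩
  · exact ⟨θ, rfl, j₀, fun _ h => h.1.1.1⟩
  · exact ⟨y, rfl, j₀, fun _ h => h.1.2⟩
  · obtain ⟨x, rfl⟩ := hq x n hn (h ▸ halg g hg)
    obtain ⟨w, hw⟩ := h3 g hg
    refine ⟨x, rfl, ⟨(n * N, 1), Nat.mul_pos hn hN, ?_, one_pos⟩, (Ctx.fx_rad (w := w)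
      (Nat.mul_pos hn hN) (Subtype.ext (by rw [h4, ← hw, pow_mul]; simp [h]))).mono
        (inf_le_left.trans (inf_le_left.trans inf_le_right))⟩
    rw [Nat.primeFactors_mul (by omega) hN.ne']
    exact Finset.union_subset_union_left fun p hp =>
      Finset.mem_filter.2 ⟨hnS hp, Nat.prime_of_mem_primeFactors hp⟩
  · obtain ⟨x, rfl, M, hM⟩ := Bd.dir_adj (s := {ζ : ℂ | ∃ n : ℕ, 1 ≤ n ∧ ζ ^ n = 1})
      (fun M : ℕ+ => St ℚ (c.z M)) 1
      (fun i j => ⟨i * j, fun _ h => c.hz.fix_dvd (i * j).pos (by simp) h,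
        fun _ h => c.hz.fix_dvd (i * j).pos (by simp) h⟩)
      (fun u hu => by
        obtain ⟨n, hn, h⟩ := hu
        obtain ⟨x, rfl⟩ := hq u n hn (h ▸ isAlgebraic_one)
        exact ⟨x, rfl, ⟨n, hn⟩, fun σ hσ => Ctx.fix hn hσ dvd_rfl (Subtype.ext (by simpa using h))⟩)
      h7
    obtain ⟨_, h9⟩ := Bd.orb_of (fun _ : Unit => ⊤) () (fun _ _ => ⟨(), le_rfl, le_rfl⟩)
      (fun q : ℚ => ⟨algebraMap ℚ Qb q, rfl, (), fun σ _ => σ.commutes q⟩) (hi x) h8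
    exact ⟨x, rfl, ⟨(1, M), one_pos, by simp, M.pos⟩,
      (Ctx.fx_Pw M.pos hM h9.pow_fact).mono inf_le_right⟩

end Pool.Agent.Lib.MP_f61260_nt
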