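import Pool.Agent.Lib.MP_f61260_nt.Det4

/-! Linear equations with arbitrary coefficients in unknowns of small height. -/

set_option autoImplicit false

namespace Pool.Agent.Lib.MP_f61260_nt.Bd

open Finset Real

lemma le_pm {P : Type} [Fintype P] (f : P → ℝ) (k : P) : f k ≤ ∏ i, max 1 (f i) := by
  classical
  rw [← mul_prod_erase univ _ (mem_univ k)]
  exact (le_max_right _ _).trans (le_mul_of_one_le_right (by positivity)
    (one_le_prod fun _ _ => le_max_left _ _))

lemma pm_sq {P : Type} [Fintype P] (f : P → ℝ) :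
    ∏ i, max 1 (f i) ≤ (∏ i, max 1 (f i)) ^ 2 :=
  le_self_pow₀ (one_le_prod fun _ _ => le_max_left _ _) two_ne_zero

lemma frob {P : Type} [Fintype P] {N q : ℕ} (hN : Fintype.card P ≤ N) (hq : q.Prime) (h : N < q)
    {z : P → Qb} (h0 : ∑ k, z k = 0)
    (h1 : 2 * ∑ k, ht (z k ^ q) < log (N + 1) - log (N + 1 / 2)) : ∑ k, z k ^ q = 0 := by
  by_contra h2
  have : Fact q.Prime := ⟨hq⟩
  have hq0 : (0 : ℝ) < q := Nat.cast_pos.2 hq.pos
  have := pf_ineq h2 (fun k => z k ^ q) q (a := N + 1 / 2) (b := (q : ℝ)⁻¹) (by positivity)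
    (by positivity) (fun τ => ?_) (fun τ => ?_) fun τ l _ => ?_
  · have h3 : log (N + 1) ≤ log q := log_le_log (by positivity) (by exact_mod_cast h)
    rw [log_inv] at this
    linarith
  · rw [map_sum, IntermediateField.coe_sum]
    refine (norm_sum_le _ _).trans ((sum_le_card_nsmul _ _ _ fun k _ =>
      (le_pm (fun i => ‖(τ (z i ^ q) : ℂ)‖) k).trans (pm_sq _)).trans ?_)
    rw [nsmul_eq_mul, card_univ]
    have : (Fintype.card P : ℝ) ≤ N := Nat.cast_le.2 hN
    gcongr
    linarith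
  · have h3 := sum_pow_q hq 1 univ (fun k => io q (τ (z k))) (R := ∏ i, max 1 ‖io q (τ (z i))‖)
      (by positivity) fun k _ => le_pm (fun i => ‖io q (τ (z i))‖) k
    rw [← map_sum, ← map_sum, h0, map_zero, map_zero, pow_one, zero_pow hq.ne_zero, zero_sub,
      norm_neg, np_eq, ← prod_pow] at h3
    simp only [map_sum, map_pow]
    refine h3.trans (mul_le_mul_of_nonneg_left ((prod_le_prod (fun _ _ => by positivity)
      fun i _ => ?_).trans (pm_sq _)) (by positivity))
    rcases le_total 1 ‖io q (τ (z i))‖ with h4 | h4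
    · rw [max_eq_right h4, norm_pow]; exact le_max_right _ _
    · rw [max_eq_left h4, one_pow]; exact le_max_left _ _
  · rw [map_sum, map_sum]
    exact nsum_le (by positivity) fun k _ =>
      (le_pm (fun i => ‖io l (τ (z i ^ q))‖) k).trans (pm_sq _)

lemma frobn {P : Type} [Fintype P] {N : ℕ} (hN : Fintype.card P ≤ N) {z : P → Qb}
    (h0 : ∑ k, z k = 0) (n : ℕ) : n ≠ 0 → (∀ q, q.Prime → q ∣ n → N < q) →
    2 * (n * ∑ k, ht (z k)) < log (N + 1) - log (N + 1 / 2) → ∑ k, z k ^ n = 0 := by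
  have hs : 0 ≤ ∑ k, ht (z k) := sum_nonneg fun _ _ => ht_nonneg _
  induction n using induction_on_primes with
  | zero => simp
  | one => simpa using fun _ _ => h0
  | prime_mul q a hq ih =>
    intro h1 h2 h3
    have h4 : (a : ℝ) ≤ (q * a : ℕ) := Nat.cast_le.2 (Nat.le_mul_of_pos_left _ hq.pos)
    simp only [mul_comm q a, pow_mul]
    refine frob hN hq (h2 q hq (dvd_mul_right _ _)) (ih (right_ne_zero_of_mul h1)
      (fun l hl h => h2 l hl (h.mul_left _)) (lt_of_le_of_lt (by gcongr) h3)) (h3.trans_le' ?_)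
    simp only [ht_pow, ← mul_sum]
    push_cast
    exact le_of_eq (by ring)

lemma vdm {P : Type} [Fintype P] {N : ℕ} (hN : Fintype.card P ≤ N) {z w : P → Qb}
    (h : ∀ t < N, ∑ k, z k * w k ^ t = 0) (v : Qb) : ∑ k with w k = v, z k = 0 := by
  classical
  have key : ∀ T : Finset Qb, ∀ t, t + T.card < N →
      ∑ k, z k * w k ^ t * ∏ u ∈ T, (w k - u) = 0 := fun T => by
    induction T using Finset.induction_on with
    | empty => simpa using h
    | insert u T hu ih =>
      intro t ht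
      rw [card_insert_of_notMem hu] at ht
      have := congrArg₂ (fun a b => a - u * b) (ih (t + 1) (by omega)) (ih t (by omega))
      simp only [mul_sum, ← sum_sub_distrib, mul_zero, sub_zero] at this
      rw [← this]
      exact sum_congr rfl fun k _ => by rw [prod_insert hu]; ring
  by_cases hv : v ∈ univ.image w
  · have h1 := key ((univ.image w).erase v) 0 (by
      have := card_erase_lt_of_mem hv
      have := (card_image_le (s := univ) (f := w)).trans hN
      omega)
    have h2 : ∏ u ∈ (univ.image w).erase v, (v - u) ≠ 0 :=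
      prod_ne_zero_iff.2 fun u hu => sub_ne_zero.2 (ne_of_mem_erase hu).symm
    refine (mul_eq_zero.1 ?_).resolve_right h2
    rw [← h1, sum_mul, sum_filter]
    refine sum_congr rfl fun k _ => ?_
    split_ifs with h3
    · simp [h3]
    · rw [prod_eq_zero (mem_erase.2 ⟨h3, mem_image_of_mem w (mem_univ k)⟩) (sub_self _), mul_zero]
  · exact sum_eq_zero fun k hk => absurd ((mem_filter.1 hk).2 ▸ mem_image_of_mem w (mem_univ k)) hv

/-- A vanishing sum of `N` numbers of small height splits along the classes modulo the roots of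
unity of order `N !`. -/
theorem cls (N : ℕ) : ∃ ε : ℝ, 0 < ε ∧ ∀ {P : Type} [Fintype P], Fintype.card P ≤ N →
    ∀ z : P → Qb, (∀ k, ht (z k) ≤ ε) → ∑ k, z k = 0 →
      ∀ v, ∑ k with z k ^ N.factorial = v, z k = 0 := by
  have hδ : 0 < log (N + 1) - log (N + 1 / 2) :=
    sub_pos.2 (log_lt_log (by positivity) (by linarith))
  set δ := log (N + 1) - log (N + 1 / 2)
  refine ⟨δ / (4 * ((1 + N.factorial * N) * (N + 1))), by positivity, fun hN z h1 h0 =>
    vdm hN fun t ht => ?_⟩
  have h2 := frobn hN h0 (1 + N.factorial * t) (by omega) (fun q hq h => not_le.1 fun h' =>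
    hq.not_dvd_one ((Nat.dvd_add_left ((hq.dvd_factorial.2 h').mul_right _)).1 h)) ?_
  · simpa only [pow_add, pow_one, pow_mul] using h2
  have h3 := sum_le_card_nsmul _ _ _ fun k (_ : k ∈ univ) => h1 k
  rw [nsmul_eq_mul, card_univ] at h3
  have h4 : ((1 + N.factorial * t : ℕ) : ℝ) ≤ 1 + N.factorial * N := by
    push_cast; gcongr
  have h5 : (Fintype.card _ : ℝ) ≤ N + 1 := (Nat.cast_le.2 hN).trans (by linarith)
  calc _ ≤ 2 * ((1 + N.factorial * N) *
        ((N + 1) * (δ / (4 * ((1 + N.factorial * N) * (N + 1)))))) := by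
        gcongr
        · exact sum_nonneg fun _ _ => ht_nonneg _
        · exact h3.trans (by gcongr)
    _ = δ / 2 := by field_simp; ring
    _ < δ := by linarith

/-- Solutions of small height of one linear equation, uniformly in the coefficients. -/
theorem unif (n : ℕ) : ∃ (s C : ℕ) (ε : ℝ), 0 < s ∧ 0 < ε ∧
    ∀ {ι : Type} [Fintype ι], Fintype.card ι ≤ n → ∀ (y : ℕ → ι → Qb) (a : ι → Qb) (l₀ : ι),
      a l₀ ≠ 0 → (∀ i, y i l₀ ≠ 0) → (∀ i l, ht (y i l) ≤ ε) → (∀ i, ∑ l, a l * y i l = 0) →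
      ∃ i j l, j < i ∧ i ≤ C ∧ l ≠ l₀ ∧ (y i l₀ * y j l) ^ s = (y i l * y j l₀) ^ s := by
  classical
  obtain ⟨ε, hε, hc⟩ := cls (n + 1).factorial
  refine ⟨(n + 1).factorial.factorial, (n + 1).factorial, ε / (n + 1), Nat.factorial_pos _,
    by positivity, fun {ι} _ hn y a l₀ ha hy hh h0 => ?_⟩
  set s := (n + 1).factorial.factorial
  let Q : ℕ → Prop := fun r => ∃ (ρ : Fin r → ℕ) (c : Fin r → ι), (∀ k, c k ≠ l₀) ∧
    (Matrix.of fun k l => y (ρ k) (c l)).det ≠ 0
  have hQ : ∀ r, Q r → r ≤ n := fun r ⟨ρ, c, _, h⟩ => by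
    have : Function.Injective c := fun k l hkl => by_contra fun hne =>
      h (Matrix.det_zero_of_column_eq hne fun i => by simp [hkl])
    simpa using (Fintype.card_le_of_injective c this).trans hn
  obtain ⟨r, ⟨ρ, c, hc0, hd⟩, hr⟩ : ∃ r, Q r ∧ ¬ Q (r + 1) := by
    by_contra h
    push Not at h
    have : ∀ r, Q r := fun r => r.rec ⟨Fin.elim0, Fin.elim0, fun k => k.elim0, by simp⟩ h
    exact absurd (hQ _ (this (n + 1))) (by omega)
  have hrn := hQ r ⟨ρ, c, hc0, hd⟩
  let B : ℕ → ι → Matrix (Fin (r + 1)) (Fin (r + 1)) Qb := fun i l =>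
    Matrix.of fun k k' => y (Fin.cons (α := fun _ => ℕ) i ρ k) (Fin.cons (α := fun _ => ι) l c k')
  have hB : ∀ i, (B i l₀).det = 0 := fun i => by
    have h1 : ∑ l, a l * (B i l).det = 0 := by
      simp only [Matrix.det_succ_column_zero, mul_sum]
      rw [sum_comm]
      refine sum_eq_zero fun k _ => ?_
      have := congrArg (fun u => (-1) ^ (k : ℕ) * u *
        ((B i l₀).submatrix k.succAbove Fin.succ).det) (h0 (Fin.cons (α := fun _ => ℕ) i ρ k))
      simp only [mul_sum, sum_mul, mul_zero, zero_mul] at this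
      rw [← this]
      refine sum_congr rfl fun l _ => ?_
      have e : (B i l).submatrix k.succAbove Fin.succ = (B i l₀).submatrix k.succAbove Fin.succ := by
        ext; simp [B]
      rw [e]
      simp only [B, Matrix.of_apply, Fin.cons_zero]
      ring
    rw [sum_eq_single l₀ (fun l _ hl => ?_) (by simp)] at h1
    · exact (mul_eq_zero.1 h1).resolve_left ha
    · refine mul_eq_zero_of_right _ (by_contra fun h => hr ⟨_, _, fun k => ?_, h⟩)
      refine Fin.cases ?_ (fun k => ?_) k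
      · simpa using hl
      · simpa using hc0 k
  let lab : Fin (r + 1) → ι := Fin.cons (α := fun _ => ι) l₀ c
  let w : Fin (r + 1) × Equiv.Perm (Fin r) → Qb := fun u =>
    ((-1) ^ (u.1 : ℕ) * ((Equiv.Perm.sign u.2 : ℤ) : Qb)) *
      ∏ k, y (ρ (u.2 k)) (lab (u.1.succAbove k))
  have hz : ∀ i, ∑ u, w u * y i (lab u.1) = 0 := fun i => by
    rw [← hB i, Matrix.det_succ_row_zero, Fintype.sum_prod_type]
    refine sum_congr rfl fun k _ => ?_
    rw [Matrix.det_apply', mul_sum]
    refine sum_congr rfl fun σ _ => ?_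
    simp only [w, B, lab, Matrix.of_apply, Matrix.submatrix_apply, Fin.cons_zero, Fin.cons_succ]
    ring
  have hw : ∑ σ, w (0, σ) ≠ 0 := by
    rw [Matrix.det_apply'] at hd
    simpa [w, lab] using hd
  have hcard : Fintype.card (Fin (r + 1) × Equiv.Perm (Fin r)) ≤ (n + 1).factorial := by
    simpa [Fintype.card_perm, ← Nat.factorial_succ] using Nat.factorial_le (Nat.succ_le_succ hrn)
  have hht : ∀ i u, ht (w u * y i (lab u.1)) ≤ ε := fun i u => by
    have h1 : ((-1) ^ (u.1 : ℕ) * ((Equiv.Perm.sign u.2 : ℤ) : Qb)) ^ 2 = 1 := by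
      rcases Int.units_eq_one_or (Equiv.Perm.sign u.2) with h | h <;>
        simp [h, ← pow_mul]
    have h2 := (ht_prod univ fun k => y (ρ (u.2 k)) (lab (u.1.succAbove k))).trans
      (sum_le_card_nsmul _ _ _ fun k _ => hh _ _)
    rw [nsmul_eq_mul, card_univ, Fintype.card_fin] at h2
    have h3 : (r : ℝ) ≤ n := Nat.cast_le.2 hrn
    simp only [w]
    rw [mul_assoc, ht_root two_pos h1]
    calc _ ≤ n * (ε / (n + 1)) + ε / (n + 1) :=
          (ht_mul _ _).trans (add_le_add (h2.trans (by gcongr)) (hh _ _))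
      _ = ε := by field_simp
  obtain ⟨v, hv⟩ : ∃ v, ∑ σ with w (0, σ) ^ s = v, w (0, σ) ≠ 0 := by
    by_contra h
    push Not at h
    refine hw ?_
    rw [← sum_fiberwise_of_maps_to (g := fun σ => w (0, σ) ^ s)
      (fun σ hσ => mem_image_of_mem _ hσ)]
    exact sum_eq_zero fun v _ => h v
  have hv0 : v ≠ 0 := fun h => hv (sum_eq_zero fun σ hσ =>
    pow_eq_zero_iff (Nat.factorial_ne_zero _) |>.1 ((mem_filter.1 hσ).2.trans h))
  have hex : ∀ i, ∃ u : Fin (r + 1) × Equiv.Perm (Fin r), u.1 ≠ 0 ∧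
      (w u * y i (lab u.1)) ^ s = v * y i l₀ ^ s := fun i => by
    by_contra h
    push Not at h
    have h1 := hc hcard _ (hht i) (hz i) (v * y i l₀ ^ s)
    rw [sum_filter, Fintype.sum_prod_type, sum_eq_single 0 (fun k _ hk =>
      sum_eq_zero fun σ _ => if_neg (h (k, σ) hk)) (by simp)] at h1
    refine mul_ne_zero hv (hy i) ?_
    rw [← h1, sum_mul, sum_filter]
    refine sum_congr rfl fun σ _ => ?_
    simp only [lab, Fin.cons_zero, mul_pow, mul_left_inj' (pow_ne_zero _ (hy i))]
  choose f hf1 hf2 using hex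
  obtain ⟨i, hi, j, hj, hij, h⟩ := exists_ne_map_eq_of_card_lt_of_maps_to
    (s := range ((n + 1).factorial + 1)) (t := univ) (f := f)
    (by rw [card_range, card_univ]; omega) fun _ _ => mem_coe.2 (mem_univ _)
  wlog hlt : j < i generalizing i j
  · exact this j hj i hi hij.symm h.symm (by omega)
  refine ⟨i, j, lab (f i).1, hlt, by simpa [Nat.lt_succ_iff] using hi, ?_, ?_⟩
  · obtain ⟨k, hk⟩ := Fin.exists_succ_eq.2 (hf1 i)
    simpa [lab, ← hk] using hc0 k
  · have h1 := hf2 i
    have h2 := hf2 j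
    rw [← h, mul_pow] at h2
    rw [mul_pow] at h1
    refine mul_left_cancel₀ hv0 ?_
    rw [mul_pow, mul_pow]
    linear_combination y i (lab (f i).1) ^ s * h2 - y j (lab (f i).1) ^ s * h1

end Pool.Agent.Lib.MP_f61260_nt.Bd
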