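import Pool.Agent.Lib.MP_f61260_nt.Det5
import Pool.Agent.Lib.MP_f61260_nt.Bd.Unif

set_option autoImplicit false

namespace Pool.Agent.Lib.MP_f61260_nt

open Finset

lemma Bd.fix_of_pow {τ : GA} {b : Qb} {M : ℕ} (hM : 0 < M) (h : τ (b ^ M) = b ^ M) :
    ∃ n, 0 < n ∧ n ≤ M ∧ (τ ^ n) b = b := by
  classical
  obtain ⟨i, hi, j, hj, hij, h1⟩ := exists_ne_map_eq_of_card_lt_of_maps_to (s := range (M + 1))
    (t := (Polynomial.nthRoots M (b ^ M)).toFinset) (f := fun n => (τ ^ n) b)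
    (by
      rw [card_range]
      exact Nat.lt_succ_of_le ((Multiset.toFinset_card_le _).trans (Polynomial.card_nthRoots _ _)))
    fun n _ => by
      rw [mem_coe, Multiset.mem_toFinset, Polynomial.mem_nthRoots hM, ← map_pow]
      exact mem_St.1 ((St ℚ (b ^ M)).pow_mem (mem_St.2 h) n)
  wlog hlt : j < i generalizing i j
  · exact this j hj i hi hij.symm h1.symm (by omega)
  obtain ⟨k, rfl⟩ := Nat.exists_eq_add_of_le hlt.le
  have := mem_range.1 hi
  exact ⟨k, by omega, by omega, (τ ^ j).injective (by rwa [pow_add, AlgEquiv.mul_apply] at h1)⟩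

theorem lift_step (d m : ℕ) : ∃ (P0 : ℕ) (ε : ℝ), 0 < ε ∧ ∀ (p : ℕ) [Fact p.Prime], P0 ≤ p →
    ∀ (σ : GA) (ω x α η : Qb), IsPrimitiveRoot ω p → σ ω = ω → σ x = ω * x → x ≠ 0 → α ≠ 0 →
    η ≠ 0 → (∀ i : ℕ, ht ((σ ^ i) α * η) ≤ ε) → ∀ d' ≤ d, ∀ (c : ℕ → ℕ → Qb) (E : ℕ → Finset ℕ),
    (∀ t < d', (E t).card ≤ m) → (∀ t e, σ (c t e) = ω ^ e * c t e) →
    α ^ d' + ∑ t ∈ Finset.range d', (∑ e ∈ E t, c t e) * α ^ t = 0 →
    ∃ (e : ℤ) (N : ℕ), ¬ p ∣ N ∧ (σ ^ N) (α * x ^ e) = α * x ^ e := by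
  obtain ⟨s, C, ε, hs, hε, hU⟩ := Bd.unif (d * m + 1)
  refine ⟨C + d * s + d + 1, ε / (2 * (d + 1)), by positivity,
    fun p hp hP σ ω x α η hω h1 h2 hx hα hη hh d' hd c E hE hc h0 => ?_⟩
  have hω0 := hω.ne_zero hp.out.ne_zero
  have hωi : ∀ i : ℕ, (σ ^ i) ω = ω := fun i => mem_St.1 ((St ℚ ω).pow_mem (mem_St.2 h1) i)
  have hact : ∀ (e : ℕ) (u : Qb), σ u = ω ^ e * u → ∀ i : ℕ, (σ ^ i) u = ω ^ (i * e) * u :=
    fun e u hu i => by
      induction i with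
      | zero => simp
      | succ i ih =>
        rw [pow_succ', AlgEquiv.mul_apply, ih, map_mul, map_pow, h1, hu]
        ring
  have hA : ∀ i : ℕ, (σ ^ i) α ≠ 0 := fun i => (map_ne_zero _).2 hα
  have hβ : ∀ i t : ℕ, t ≤ d' → ht (((σ ^ i) α / α) ^ t) ≤ ε := fun i t ht' => by
    have e : (σ ^ i) α / α = ((σ ^ i) α * η) * ((σ ^ 0) α * η)⁻¹ := by
      simp only [pow_zero, AlgEquiv.one_apply]; field_simp
    have h3 : (t : ℝ) ≤ d + 1 := (Nat.cast_le.2 (ht'.trans hd)).trans (by linarith)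
    have h4 := ht_mul ((σ ^ i) α * η) ((σ ^ 0) α * η)⁻¹
    rw [ht_inv, ← e] at h4
    rw [ht_pow]
    calc _ ≤ (d + 1) * (ε / (2 * (d + 1)) + ε / (2 * (d + 1))) :=
          mul_le_mul h3 (h4.trans (add_le_add (hh _) (hh _))) (ht_nonneg _) (by positivity)
      _ = ε := by field_simp; ring
  obtain ⟨i, j, l, hji, hi, hl, h3⟩ := hU (ι := Option ((range d').sigma E))
    (by
      rw [Fintype.card_option, Fintype.card_coe, card_sigma]
      refine Nat.succ_le_succ ((sum_le_card_nsmul _ _ m fun t ht => hE t (mem_range.1 ht)).trans ?_)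
      rw [card_range]
      exact Nat.mul_le_mul_right _ hd)
    (fun i l => l.elim (((σ ^ i) α / α) ^ d') fun u => ω ^ (i * u.1.2) * ((σ ^ i) α / α) ^ u.1.1)
    (fun l => l.elim (α ^ d') fun u => c u.1.1 u.1.2 * α ^ u.1.1) none (pow_ne_zero _ hα)
    (fun i => pow_ne_zero _ (div_ne_zero (hA i) hα))
    (fun i l => by
      rcases l with _ | ⟨⟨t, e⟩, hu⟩
      · exact hβ i d' le_rfl
      · exact (ht_root hp.out.pos (by rw [← pow_mul, mul_comm, pow_mul, hω.pow_eq_one, one_pow])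
          _).trans_le (hβ i t (mem_range.1 (mem_sigma.1 hu).1).le))
    fun i => by
      have := congrArg (σ ^ i) h0
      simp only [map_add, map_sum, map_mul, map_pow, map_zero, hact _ _ (hc _ _) i, sum_mul] at this
      rw [← this, Fintype.sum_option]
      simp only [Option.elim]
      rw [sum_coe_sort ((range d').sigma E) fun u =>
        c u.1 u.2 * α ^ u.1 * (ω ^ (i * u.2) * ((σ ^ i) α / α) ^ u.1), sum_sigma]
      simp only [div_pow]
      congr 1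
      · field_simp
      · exact sum_congr rfl fun t _ => sum_congr rfl fun e _ => by field_simp
  rcases l with _ | ⟨⟨t, e⟩, hu⟩
  · exact absurd rfl hl
  obtain ⟨r, hr⟩ := Nat.exists_eq_add_of_lt (mem_range.1 (mem_sigma.1 hu).1)
  obtain ⟨k, rfl⟩ := Nat.exists_eq_add_of_le hji.le
  simp only [Option.elim] at h3 hr
  have h4 : (σ ^ k) α ^ ((r + 1) * s) = ω ^ (k * e * s) * α ^ ((r + 1) * s) := by
    refine (σ ^ j).injective ?_
    have hj := hA j
    have hjk := hA (j + k)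
    rw [map_mul, map_pow, map_pow, map_pow, hωi, ← AlgEquiv.mul_apply, ← pow_add]
    refine mul_left_cancel₀ (pow_ne_zero s (mul_ne_zero (mul_ne_zero (pow_ne_zero t
      (div_ne_zero hjk hα)) (pow_ne_zero t (div_ne_zero hj hα))) (mul_ne_zero
        (pow_ne_zero (j * e) hω0) (pow_ne_zero (r + 1) (inv_ne_zero hα))))) ?_
    rw [pow_mul ω (k * e), pow_mul _ (r + 1), pow_mul _ (r + 1), ← mul_pow _ _ s, ← mul_pow _ _ s,
      ← mul_pow _ _ s]
    convert h3 using 2 <;> rw [hr] <;> ring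
  have hrp : r + 1 < p := by omega
  obtain ⟨u, v, huv⟩ : IsCoprime ((r + 1 : ℕ) : ℤ) p :=
    Nat.isCoprime_iff_coprime.2 ((Nat.coprime_of_lt_prime r.succ_ne_zero hrp hp.out).symm)
  obtain ⟨n, hn, hn', h6⟩ := Bd.fix_of_pow (τ := σ ^ k) (b := α * x ^ (-(e * u) : ℤ))
    (M := (r + 1) * s) (by positivity) (by
      have h7 : ω ^ (k * e * s) * ((ω ^ k) ^ (-(e * u) : ℤ)) ^ ((r + 1) * s) = 1 := by
        rw [← zpow_natCast, ← zpow_natCast, ← zpow_natCast, ← zpow_mul, ← zpow_mul,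
          ← zpow_add₀ hω0, hω.zpow_eq_one_iff_dvd]
        refine ⟨k * e * s * v, ?_⟩
        push_cast at huv ⊢
        linear_combination (-(k * e * s) : ℤ) * huv
      rw [map_pow, map_mul, map_zpow₀, hact 1 x (by rwa [pow_one]) k, mul_one, mul_zpow, mul_pow,
        h4, mul_pow, mul_pow]
      linear_combination (α ^ ((r + 1) * s) * (x ^ (-(e * u) : ℤ)) ^ ((r + 1) * s)) * h7)
  have h8 : (r + 1) * s ≤ d * s := Nat.mul_le_mul_right _ (by omega)
  refine ⟨_, k * n, fun h => (hp.out.dvd_mul.1 h).elim (Nat.not_dvd_of_pos_of_lt ?_ ?_)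
    (Nat.not_dvd_of_pos_of_lt hn ?_), by rw [pow_mul]; exact h6⟩ <;> omega

end Pool.Agent.Lib.MP_f61260_nt
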