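import Mathlib

set_option autoImplicit false

namespace Pool.Agent.Lib.MP_f61260_nt.Bd

open Polynomial Module Finset

noncomputable section

variable {k : Type} [Field k]

/-- The shift of a two sided sequence. -/
def sh (t : ℤ) : End k (ℤ → k) := LinearMap.funLeft k k (· + t)

lemma sh_apply (t : ℤ) (y : ℤ → k) (j : ℤ) : sh t y j = y (j + t) := rfl

lemma sh_pow (n : ℕ) : (sh 1 : End k (ℤ → k)) ^ n = sh n := by
  induction n with
  | zero => ext y j; simp [sh_apply]
  | succ n ih =>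
    refine LinearMap.ext fun y => funext fun j => ?_
    rw [pow_succ, End.mul_apply, ih, sh_apply, sh_apply, sh_apply, Nat.cast_succ, add_assoc]

/-- The recurrence operator of a polynomial. -/
def ac (B : k[X]) : End k (ℤ → k) := aeval (sh 1) B

lemma ac_apply {B : k[X]} {n : ℕ} (hn : B.natDegree ≤ n) (y : ℤ → k) (j : ℤ) :
    ac B y j = ∑ i ∈ range (n + 1), B.coeff i * y (j + i) := by
  rw [ac, aeval_eq_sum_range' (Nat.lt_succ_of_le hn), LinearMap.sum_apply, Finset.sum_apply]
  exact Finset.sum_congr rfl fun i _ => by rw [sh_pow]; rfl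

lemma ac_mul (B C : k[X]) (y : ℤ → k) : ac (B * C) y = ac B (ac C y) := by
  rw [ac, map_mul]; rfl

lemma ac_sh (B : k[X]) (t : ℤ) (y : ℤ → k) : ac B (sh t y) = sh t (ac B y) := funext fun j => by
  rw [sh_apply, ac_apply le_rfl, ac_apply le_rfl]
  exact Finset.sum_congr rfl fun i _ => by rw [sh_apply, add_right_comm]

lemma ac_zero_of {B : k[X]} {n : ℕ} (hn : B.natDegree ≤ n) {y : ℤ → k} {j : ℤ}
    (h : ∀ i, j ≤ i → i ≤ j + n → y i = 0) : ac B y j = 0 := by
  rw [ac_apply hn]
  refine Finset.sum_eq_zero fun i hi => ?_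
  have := mem_range.1 hi
  rw [h _ (by omega) (by omega), mul_zero]

lemma ex_poly {n : ℕ} {g : Fin n → k} (hg : g ≠ 0) :
    ∃ B : k[X], B ≠ 0 ∧ B.natDegree < n ∧ ∀ y j, ac B y j = ∑ i, g i * y (j + (i : ℕ)) := by
  obtain ⟨i, hi⟩ := Function.ne_iff.1 hg
  have h1 : (∑ i : Fin n, monomial (i : ℕ) (g i)) ≠ 0 := fun h => hi (by
    simpa [finsetSum_coeff, coeff_monomial, Fin.val_inj] using congrArg (coeff · i) h)
  refine ⟨_, h1, (natDegree_lt_iff_degree_lt h1).2 ((degree_sum_le _ _).trans_lt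
    ((Finset.sup_lt_iff (WithBot.bot_lt_coe _)).2 fun x _ =>
      (degree_monomial_le _ _).trans_lt (Nat.cast_lt.2 x.2))), fun y j => ?_⟩
  rw [ac, map_sum, LinearMap.sum_apply, Finset.sum_apply]
  refine Finset.sum_congr rfl fun i _ => ?_
  rw [aeval_monomial, sh_pow, End.mul_apply, Module.algebraMap_end_apply]
  rfl

lemma fwd {B : k[X]} (hB : B ≠ 0) {v : ℤ → k} {a b : ℤ}
    (h0 : ∀ j, a ≤ j → j < a + B.natDegree → v j = 0) (h1 : ∀ j, a ≤ j → j ≤ b → ac B v j = 0) :
    ∀ j, a ≤ j → j ≤ b + B.natDegree → v j = 0 := by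
  have h2 : ∀ n : ℕ, ∀ j, a ≤ j → j < a + B.natDegree + n → j ≤ b + B.natDegree → v j = 0 := by
    intro n
    induction n with
    | zero => exact fun j h h' _ => h0 j h (by simpa using h')
    | succ n ih =>
      intro j h h' h''
      by_cases h3 : j < a + B.natDegree + n
      · exact ih j h h3 h''
      have h4 := h1 (j - B.natDegree) (by omega) (by omega)
      rw [ac_apply le_rfl, Finset.sum_range_succ, Finset.sum_eq_zero fun i hi => by
        have := mem_range.1 hi
        rw [ih _ (by omega) (by push_cast at h'; omega) (by omega), mul_zero], zero_add,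
        sub_add_cancel] at h4
      exact (mul_eq_zero.1 h4).resolve_left (leadingCoeff_ne_zero.2 hB)
  exact fun j h h' => h2 ((j - a).toNat + 1) j h (by omega) h'

lemma uniq {B : k[X]} (hB : B ≠ 0) {d : ℕ} (hd : B.natDegree ≤ d) {v : ℤ → k} (h : ac B v = 0)
    {a : ℤ} (h0 : ∀ j, a ≤ j → j < a + d → v j = 0) : v = 0 := by
  have h1 : ∀ j, a ≤ j → v j = 0 := fun j hj =>
    fwd hB (b := j) (fun j h h' => h0 j h (by omega)) (fun j _ _ => congrFun h j) j hj (by omega)
  have h2 : ∀ n : ℕ, ∀ j, a - n ≤ j → v j = 0 := by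
    intro n
    induction n with
    | zero => simpa using h1
    | succ n ih =>
      intro j hj
      by_cases h3 : a - n ≤ j
      · exact ih j h3
      have h4 := congrFun h (j - B.natTrailingDegree)
      rw [ac_apply le_rfl, Finset.sum_eq_single B.natTrailingDegree (fun i _ hi => by
        rcases hi.lt_or_gt with h5 | h5
        · rw [coeff_eq_zero_of_lt_natTrailingDegree h5, zero_mul]
        · rw [ih _ (by push_cast at hj; omega), mul_zero]) (fun h5 => absurd (mem_range.2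
          (Nat.lt_succ_of_le (natTrailingDegree_le_natDegree B))) h5), sub_add_cancel] at h4
      exact (mul_eq_zero.1 h4).resolve_left (trailingCoeff_nonzero_iff_nonzero.2 hB)
  exact funext fun j => h2 (a - j).toNat j (by omega)

lemma ext0 {B : k[X]} (hB : ¬ X ∣ B) (u : ℤ → k) (a : ℤ) :
    ∃ y, ac B y = 0 ∧ ∀ j, a ≤ j → j < a + B.natDegree → y j = u j := by
  have h0 : B ≠ 0 := fun h => hB (h ▸ dvd_zero _)
  obtain ⟨U, hU⟩ : IsUnit (AdjoinRoot.root B) := by
    obtain ⟨P, Q, h⟩ := irreducible_X.coprime_iff_not_dvd.2 hB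
    refine IsUnit.of_mul_eq_one_right (AdjoinRoot.mk B P) ?_
    simpa using congrArg (AdjoinRoot.mk B) h
  let L : AdjoinRoot B →ₗ[k] k :=
    (AdjoinRoot.powerBasis h0).basis.constr k fun i => u (a + (i : ℕ))
  refine ⟨fun j => L (U ^ (j - a) : (AdjoinRoot B)ˣ), funext fun j => ?_, fun j h1 h2 => ?_⟩
  · have h1 : aeval (AdjoinRoot.root B) B = 0 := by rw [AdjoinRoot.aeval_eq, AdjoinRoot.mk_self]
    have h2 := congrArg (fun z => L ((U ^ (j - a) : (AdjoinRoot B)ˣ) * z)) h1
    simp only [aeval_eq_sum_range, Finset.mul_sum, map_sum, mul_zero, map_zero] at h2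
    rw [ac_apply le_rfl, Pi.zero_apply, ← h2]
    refine Finset.sum_congr rfl fun i _ => ?_
    rw [mul_smul_comm, map_smul, smul_eq_mul, ← hU, ← Units.val_pow_eq_pow_val, ← Units.val_mul,
      ← zpow_natCast, ← zpow_add, add_sub_right_comm]
  · obtain ⟨i, rfl⟩ : ∃ i : ℕ, j = a + i := ⟨(j - a).toNat, by omega⟩
    have h3 := (AdjoinRoot.powerBasis h0).basis.constr_basis k (fun i => u (a + (i : ℕ)))
      ⟨i, by rw [AdjoinRoot.powerBasis_dim]; omega⟩
    rw [PowerBasis.coe_basis, AdjoinRoot.powerBasis_gen] at h3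
    simp only [add_sub_cancel_left, zpow_natCast, Units.val_pow_eq_pow_val, hU]
    exact h3

/-- A recurrence that holds on a segment extends to a recurrent sequence. -/
lemma ext1 {B : k[X]} (hB : B ≠ 0) {d : ℕ} (hd : B.natDegree ≤ d) {u : ℤ → k} {a b : ℤ}
    (h : ∀ j, a ≤ j → j + d ≤ b → ac B u j = 0) :
    ∃ y, ac B y = 0 ∧ ∀ j, a + d ≤ j → j + d ≤ b → y j = u j := by
  obtain ⟨e, C, hC, rfl⟩ := WfDvdMonoid.max_power_factor hB irreducible_X
  have h0 := right_ne_zero_of_mul hB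
  rw [natDegree_X_pow_mul _ h0] at hd
  obtain ⟨y, h1, h2⟩ := ext0 hC u (a + e)
  refine ⟨y, by rw [ac_mul, h1, map_zero], fun j h3 h4 => sub_eq_zero.1 ?_⟩
  refine fwd h0 (v := y - u) (a := a + e) (b := b - d + e) (fun j h h' => sub_eq_zero.2 (h2 j h h'))
    (fun j h5 h6 => ?_) j (by omega) (by omega)
  have h7 := h (j - e) (by omega) (by omega)
  rw [ac_mul, ac, map_pow, aeval_X, sh_pow, sh_apply, sub_add_cancel] at h7
  rw [map_sub, h1, zero_sub, Pi.neg_apply, h7, neg_zero]

/-- The span of the shifts by multiples of `l`. -/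
def Md (l : ℤ) (y : ℤ → k) : Submodule k (ℤ → k) :=
  Submodule.span k (Set.range fun t : ℤ => sh (l * t) y)

/-- Sequences whose shifts span a space of dimension `n`. -/
def Ord (n : ℕ) (y : ℤ → k) : Prop := Module.Finite k (Md 1 y) ∧ finrank k (Md 1 y) = n

lemma md_le (l : ℤ) (y : ℤ → k) : Md l y ≤ Md 1 y :=
  Submodule.span_mono fun _ ⟨t, h⟩ => ⟨l * t, by simp only [← h, one_mul]⟩

lemma md_ker {B : k[X]} {y : ℤ → k} (h : ac B y = 0) : Md 1 y ≤ LinearMap.ker (ac B) :=
  Submodule.span_le.2 fun _ ⟨t, ht⟩ => by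
    rw [← ht, SetLike.mem_coe, LinearMap.mem_ker, ac_sh, h, map_zero]

lemma md_sh {y v : ℤ → k} (h : v ∈ Md 1 y) (t : ℤ) : sh t v ∈ Md 1 y := by
  refine (Submodule.span_le (p := (Md 1 y).comap (sh t))).2 ?_ h
  rintro _ ⟨r, rfl⟩
  refine Submodule.subset_span ⟨t + r, funext fun j => ?_⟩
  simp only [sh_apply, one_mul, add_assoc]

lemma ord_of_ann {B : k[X]} (hB : B ≠ 0) {d : ℕ} (hd : B.natDegree ≤ d) {y : ℤ → k}
    (h : ac B y = 0) : ∃ n ≤ d, Ord n y := by
  let f : Md 1 y →ₗ[k] (Fin d → k) :=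
    LinearMap.funLeft k k (fun i : Fin d => ((i : ℕ) : ℤ)) ∘ₗ (Md 1 y).subtype
  have hf : Function.Injective f := (injective_iff_map_eq_zero f).2 fun v hv =>
    Subtype.ext (uniq hB hd (md_ker h v.2) (a := 0) fun j h1 h2 => by
      obtain ⟨i, rfl⟩ := Int.eq_ofNat_of_zero_le h1
      exact congrFun hv ⟨i, by omega⟩)
  exact ⟨_, by simpa using LinearMap.finrank_le_finrank_of_injective hf,
    Module.Finite.of_injective f hf, rfl⟩

lemma Ord.ann {n : ℕ} {y : ℤ → k} (h : Ord n y) :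
    ∃ B : k[X], B ≠ 0 ∧ B.natDegree ≤ n ∧ ac B y = 0 := by
  have := h.1
  let f : Fin (n + 1) → Md 1 y := fun i => ⟨sh (1 * (i : ℕ)) y, Submodule.subset_span ⟨_, rfl⟩⟩
  obtain ⟨g, h1, i, hi⟩ := Fintype.not_linearIndependent_iff.1 fun hf : LinearIndependent k f => by
    have := hf.fintype_card_le_finrank
    rw [h.2, Fintype.card_fin] at this
    omega
  obtain ⟨B, h2, h3, h4⟩ := ex_poly (g := g) (Function.ne_iff.2 ⟨i, hi⟩)
  refine ⟨B, h2, by omega, funext fun j => ?_⟩
  have h5 := congrFun (congrArg Subtype.val h1) j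
  simpa [f, h4, sh_apply] using h5

lemma Ord.eq {n n' : ℕ} {y y' : ℤ → k} (h : Ord n y) (h' : Ord n' y') {a : ℤ}
    (h0 : ∀ j, a ≤ j → j < a + (n + n' : ℕ) → y j = y' j) : y = y' := by
  obtain ⟨B, h1, h2, h3⟩ := h.ann
  obtain ⟨C, h4, h5, h6⟩ := h'.ann
  refine sub_eq_zero.1 (uniq (mul_ne_zero h1 h4) (natDegree_mul_le.trans (add_le_add h2 h5)) ?_
    fun j h h' => sub_eq_zero.2 (h0 j h h'))
  rw [map_sub, ac_mul B C y', h6, mul_comm, ac_mul, h3, map_zero, map_zero, sub_zero]

lemma Ord.zero {y : ℤ → k} (h : Ord 0 y) : y = 0 := by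
  obtain ⟨B, h1, h2, h3⟩ := h.ann
  exact uniq h1 h2 h3 (a := 0) fun j h h' => by omega

/-- Subsequences along a progression. -/
lemma Ord.sub {n : ℕ} {z : ℤ → k} (h : Ord n z) (l c : ℤ) (g : k) :
    ∃ n' ≤ n, n' ≤ finrank k (Md l z) ∧ Ord n' fun j => g * z (l * j + c) := by
  have := h.1
  have h1 : Module.Finite k (Md l z) := Submodule.finiteDimensional_of_le (md_le l z)
  have h2 : Md 1 (fun j => g * z (l * j + c)) =
      (Md l z).map (g • LinearMap.funLeft k k fun j : ℤ => l * j + c) := by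
    rw [Md, Md, Submodule.map_span, ← Set.range_comp]
    congr 2
    funext t j
    simp only [sh_apply, Function.comp, LinearMap.smul_apply, Pi.smul_apply, smul_eq_mul,
      LinearMap.funLeft_apply]
    congr 2
    ring
  have h3 := Submodule.finrank_map_le (g • LinearMap.funLeft k k fun j : ℤ => l * j + c) (Md l z)
  refine ⟨_, (h3.trans (Submodule.finrank_mono (md_le l z))).trans h.2.le, h3, ?_, by rw [h2]⟩
  rw [h2]
  infer_instance

/-- The doubling inequality. -/
lemma Ord.dbl {n p l : ℕ} {z : ℤ → k} (h : Ord n z) (hn : n < p) {β : k}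
    (hβ : Irreducible (X ^ p - C β)) {T : Finset (ZMod l)} (hT : T.card ^ 2 < l)
    (hz : ∀ t : ℤ, (t : ZMod l) ∉ T → z (t + p) = β * z t) : 2 * finrank k (Md l z) ≤ n := by
  classical
  have := h.1
  have h1 : Module.Finite k (Md l z) := Submodule.finiteDimensional_of_le (md_le l z)
  have : NeZero l := ⟨by omega⟩
  obtain ⟨B, h2, h3, h4⟩ := h.ann
  have h5 : ∀ v t, ac (X ^ p - C β) v t = v (t + p) - β * v t := fun v t => by
    rw [ac, map_sub, map_pow, aeval_X, aeval_C, sh_pow]; rfl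
  have h6 : ∀ v ∈ Md 1 z, ac (X ^ p - C β) v = 0 → v = 0 := fun v hv h6 => by
    obtain ⟨P, Q, h7⟩ := hβ.coprime_iff_not_dvd.2 fun h7 => by
      have := natDegree_le_of_dvd h7 h2
      rw [natDegree_X_pow_sub_C] at this
      omega
    have h8 := congrArg (fun R => ac R v) h7
    simp only [ac, map_add, map_one, LinearMap.add_apply, End.one_apply] at h8
    rw [← h8, ← ac, ← ac, ac_mul, ac_mul, h6, md_ker h4 hv, map_zero, map_zero, add_zero]
  have h7 : ∀ v ∈ Md l z, ∀ t : ℤ, (t : ZMod l) ∉ T → ac (X ^ p - C β) v t = 0 := fun v hv => by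
    induction hv using Submodule.span_induction with
    | mem v hv =>
      obtain ⟨r, rfl⟩ := hv
      intro t ht
      simp only [h5, sh_apply]
      rw [add_right_comm, hz _ (by simpa using ht), sub_self]
    | zero => simp
    | add _ _ _ _ h h' => exact fun t ht => by rw [map_add, Pi.add_apply, h t ht, h' t ht, add_zero]
    | smul a _ _ h => exact fun t ht => by rw [map_smul, Pi.smul_apply, h t ht, smul_zero]
  obtain ⟨c, hc⟩ : ∃ c : ZMod l, c ∉ (T ×ˢ T).image fun x => x.1 - x.2 := by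
    by_contra! hc
    have := (Finset.card_le_card (s := univ) fun c _ => hc c).trans Finset.card_image_le
    rw [card_univ, ZMod.card, card_product, ← sq] at this
    omega
  obtain ⟨c, rfl⟩ := ZMod.intCast_surjective c
  let f : (Md l z × Md l z) →ₗ[k] Md 1 z := LinearMap.codRestrict _
    ((Md l z).subtype.coprod (sh c ∘ₗ (Md l z).subtype)) fun v =>
      add_mem (md_le l z v.1.2) (md_sh (md_le l z v.2.2) c)
  have hf : Function.Injective f := (injective_iff_map_eq_zero f).2 fun ⟨v, w⟩ hv => by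
    have h8 : (v : ℤ → k) + sh c w = 0 := congrArg Subtype.val hv
    have h9 := congrArg (ac (X ^ p - C β)) h8
    rw [map_add, ac_sh, map_zero] at h9
    have h10 : (v : ℤ → k) = 0 := h6 _ (md_le l z v.2) (funext fun t => by
      by_cases ht : (t : ZMod l) ∈ T
      · have h10 := congrFun h9 t
        rwa [Pi.add_apply, sh_apply, h7 _ w.2 _ fun h => hc (mem_image.2
          ⟨(_, _), mem_product.2 ⟨h, ht⟩, by simp⟩), add_zero] at h10
      · exact h7 _ v.2 t ht)
    rw [h10, zero_add] at h8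
    exact Prod.ext (Subtype.ext h10) (Subtype.ext (funext fun t => by
      simpa [sh_apply] using congrFun h8 (t - c)))
  have h8 := LinearMap.finrank_le_finrank_of_injective hf
  rwa [finrank_prod, h.2, ← two_mul] at h8

end

end Pool.Agent.Lib.MP_f61260_nt.Bd
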