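import Pool.Agent.Lib.MP_f61260_nt.Bd.Grd

set_option autoImplicit false

namespace Pool.Agent.Lib.MP_f61260_nt.Bd

open Polynomial Module Finset Function

section

variable {k : Type} [Field k]

/-- There is a recurrent sequence of order `n` that agrees with `u` from `a` to `a + M`. -/
def Gm (M n : ℕ) (u : ℤ → k) (a : ℤ) : Prop :=
  ∃ y, Ord n y ∧ ∀ j, a ≤ j → j ≤ a + M → y j = u j

lemma ex_ceil {l : ℤ} (hl : 0 < l) (x : ℤ) : ∃ j, x ≤ l * j ∧ l * j < x + l := by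
  have h1 := Int.emod_nonneg (-x) hl.ne'
  have h2 := Int.emod_lt_of_pos (-x) hl
  have h3 := Int.emod_add_mul_ediv (-x) l
  exact ⟨-(-x / l), by rw [mul_neg]; omega, by rw [mul_neg]; omega⟩

lemma double {p m d l M : ℕ} (hp : p.Prime) {u : ℤ → k} {β : k} (hβ0 : β ≠ 0)
    (hβ : Irreducible (X ^ p - C β)) (hu : ∀ q e : ℤ, u (e + q * p) = β ^ q * u e)
    (h1 : Loc p m d u) (h2 : Loc p m d fun j => u (l * j)) (hl : (3 * m) ^ 2 < l)
    (hM : M ≤ 2 * d * l) (hW : (m + 1) * (2 * d * l + 2 * d + 1) ≤ l * M) (hp1 : l * M < p)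
    (hp2 : l * (3 * d + 1) < p) {n : ℕ} (hn : n ≤ d) {a : ℤ} (h : Gm M n (fun j => u (l * j)) a) :
    ∃ n' ≤ d, 2 * n ≤ n' ∧ ∃ a', Gm M n' u a' := by
  classical
  obtain ⟨y, hy, h⟩ := h
  obtain ⟨T, hT, h1⟩ := h1
  obtain ⟨T', hT', h2⟩ := h2
  obtain ⟨g0, g1, g2, g3⟩ := ex_free hT (hW.trans hp1.le) (l * a)
  obtain ⟨g, rfl⟩ : ∃ g, g0 = g - d := ⟨g0 + d, by ring⟩
  obtain ⟨n', hn', z, hz, h3⟩ := h1 g (g + 2 * d * l) (by convert g3 using 1; push_cast; ring)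
  have hl0 : (0 : ℤ) < l := by omega
  have hW' : (((m + 1) * (2 * d * l + 2 * d + 1) : ℕ) : ℤ) ≤ l * M := by exact_mod_cast hW
  have hM' : (M : ℤ) ≤ 2 * d * l := by exact_mod_cast hM
  have hp3 : (l : ℤ) * (3 * d + 1) < p := by exact_mod_cast hp2
  have hd0 : (0 : ℤ) ≤ l * d := by positivity
  choose J hJ1 hJ2 using fun r : ℤ => ex_ceil hl0 (g + r * p)
  have h4 : ∀ (r : ℤ) {n : ℕ} {y : ℤ → k}, Ord n y → n ≤ d →
      (∀ j, J r ≤ j → j < J r + 2 * d → y j = u (l * j)) →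
      n ≤ finrank k (Md l z) ∧ ∀ j, y j = β ^ r * z (l * j + -(r * p)) := by
    intro r n y hy hn h
    obtain ⟨n0, h4, h5, h6⟩ := hz.sub l (-(r * p)) (β ^ r)
    have h7 := hy.eq h6 (a := J r) fun j h7 h8 => by
      have h9 : j + 1 ≤ J r + 2 * d := by omega
      have := hJ1 r
      have := hJ2 r
      rw [h j h7 h9, h3 _ (by nlinarith) (by nlinarith), ← hu, neg_add_cancel_right]
    exact ⟨by rw [← hy.2, h7, h6.2]; exact h5, congrFun h7⟩
  have h5 := (h4 0 hy hn fun j h5 h6 => by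
    have := hJ1 0
    have := hJ2 0
    have h9 : j + 1 ≤ J 0 + 2 * d := h6
    push_cast at g2 hW'
    refine h j (le_of_mul_le_mul_left ?_ hl0) (le_of_mul_le_mul_left ?_ hl0) <;> nlinarith).1
  refine ⟨n', hn', (Nat.mul_le_mul_left 2 h5).trans (hz.dbl (p := p) (by nlinarith) hβ
    (T := (T' ×ˢ Icc (-1 : ℤ) 1).image fun x =>
      ((-(((l * x.1 - g) / p + x.2 + 1) * p) : ℤ) : ZMod l))
    (lt_of_le_of_lt (Nat.pow_le_pow_left (card_image_le.trans (by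
      rw [card_product, Int.card_Icc]; simp; omega)) 2) hl) fun t ht => ?_),
    g, z, hz, fun j h6 h7 => h3 j h6 (by omega)⟩
  obtain ⟨x, w, h6⟩ : IsCoprime (l : ℤ) p := Nat.isCoprime_iff_coprime.2
    ((Nat.coprime_of_lt_prime (by omega) (by nlinarith) hp).symm)
  obtain ⟨r, j, rfl⟩ : ∃ r j : ℤ, t = l * j + -((r + 1) * p) :=
    ⟨-(w * t) - 1, x * t, by linear_combination -t * h6⟩
  have hp0 : (0 : ℤ) < p := by exact_mod_cast hp.pos
  have a1 := hJ1 r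
  have a2 := hJ2 r
  have a3 := hJ1 (r + 1)
  have a4 := hJ2 (r + 1)
  obtain ⟨n1, h7, y1, h8, h9⟩ := h2 (J r) (J (r + 1) + 2 * d) fun t' ht' q h7 => ht (by
    have h8 := Int.emod_nonneg (l * t' - g) hp0.ne'
    have h9 := Int.emod_lt_of_pos (l * t' - g) hp0
    have h10 := Int.emod_add_ediv_mul (l * t' - g) p
    have h11 := mul_le_mul_of_nonneg_left h7.1 hl0.le
    have h12 := mul_le_mul_of_nonneg_left h7.2 hl0.le
    refine mem_image.2 ⟨(t', r - (l * t' - g) / p - l * q), mem_product.2 ⟨ht', ?_⟩, ?_⟩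
    · generalize (l * t' - g) / p = c at *
      have h13 : (c + l * q) * p < (r + 2) * p := by nlinarith
      have h14 : (r - 1) * p < (c + l * q + 1) * p := by nlinarith
      have := lt_of_mul_lt_mul_right h13 hp0.le
      have := lt_of_mul_lt_mul_right h14 hp0.le
      exact mem_Icc.2 ⟨by dsimp only; omega, by dsimp only; omega⟩
    · generalize (l * t' - g) / p = c
      simp)
  have h10 : J r ≤ J (r + 1) := le_of_mul_le_mul_left (by nlinarith) hl0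
  have h11 := (h4 r h8 h7 fun j g1 g2 => h9 j g1 (by omega)).2 j
  have h12 := (h4 (r + 1) h8 h7 fun j g1 g2 => h9 j (by omega) (by omega)).2 j
  rw [h11, zpow_add_one₀ hβ0, mul_assoc] at h12
  rw [← mul_left_cancel₀ (zpow_ne_zero r hβ0) h12]
  congr 1
  ring

lemma avg {p m M : ℕ} (hp : p.Prime) (hM : (m + 1) ^ 2 * (2 * M + 1) < p - 1) {L : ℤ}
    (hL : ¬ (p : ℤ) ∣ L) {E : Finset ℤ} (hE : ∀ e ∈ E, 0 ≤ e ∧ e < p)
    (h : ∀ a : ℤ, ¬ (p : ℤ) ∣ a → ∃ T : Finset ℤ, T.card ≤ m ∧ ∀ e ∈ E, ∀ j q : ℤ,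
      L * a * j = e + q * p → ¬ Fre p T j (j + M)) : E.card ≤ m := by
  by_contra! hc
  obtain ⟨E', h1, h2⟩ := exists_subset_card_eq (n := m + 1) hc
  have hp' := Nat.prime_iff_prime_int.1 hp
  have h3 : ∀ a ∈ Ioo (0 : ℤ) p, ∃ x ∈ E' ×ˢ E' ×ˢ Icc (-M : ℤ) M, x.1 ≠ x.2.1 ∧
      (p : ℤ) ∣ L * a * x.2.2 - (x.1 - x.2.1) := fun a ha => by
    have h3 : ¬ (p : ℤ) ∣ a := fun h3 => by
      have := mem_Ioo.1 ha
      have := Int.le_of_dvd this.1 h3
      omega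
    obtain ⟨T, h4, h5⟩ := h a h3
    obtain ⟨x, w, h6⟩ := (hp'.coprime_iff_not_dvd.2 fun h6 => (hp'.dvd_or_dvd h6).elim hL h3 :
      IsCoprime (p : ℤ) (L * a))
    have h7 : ∀ e ∈ E', ∃ t ∈ T, ∃ q : ℤ, w * e ≤ t + q * p ∧ t + q * p ≤ w * e + M := fun e he => by
      simpa [Fre] using h5 e (h1 he) (w * e) (-(x * e)) (by linear_combination e * h6)
    choose! t ht q hq using h7
    obtain ⟨e, he, e', he', h8, h9⟩ := exists_ne_map_eq_of_card_lt_of_maps_to (by omega) ht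
    have := hq e he
    have := hq e' he'
    exact ⟨(e, e', w * e - q e * p - (w * e' - q e' * p)), mem_product.2 ⟨he, mem_product.2
      ⟨he', mem_Icc.2 ⟨by dsimp only; omega, by dsimp only; omega⟩⟩⟩, h8,
      ⟨L * a * (q e' - q e) - x * (e - e'), by linear_combination (e - e') * h6⟩⟩
  choose! f h4 h5 h6 using h3
  obtain ⟨a, ha, a', ha', h7, h8⟩ := exists_ne_map_eq_of_card_lt_of_maps_to (by
    rw [card_product, card_product, h2, Int.card_Icc, Int.card_Ioo, ← mul_assoc, ← sq,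
      show ((M : ℤ) + 1 - -M).toNat = 2 * M + 1 by omega]
    omega) h4
  have h9 := h6 a ha
  have h10 : (p : ℤ) ∣ L * (a - a') * (f a).2.2 := by
    have h10 := h6 a' ha'
    rw [← h8] at h10
    exact (dvd_sub h9 h10).trans (dvd_of_eq (by ring))
  have h11 := mem_product.1 (h4 a ha)
  have := hE _ (h1 h11.1)
  have := hE _ (h1 (mem_product.1 h11.2).1)
  have := mem_Ioo.1 ha
  have := mem_Ioo.1 ha'
  rcases hp'.dvd_or_dvd h10 with h12 | h12
  · exact h7 (sub_eq_zero.1 (Int.eq_zero_of_abs_lt_dvd ((hp'.dvd_or_dvd h12).resolve_left hL)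
      (abs_lt.2 ⟨by omega, by omega⟩)))
  · exact h5 a ha (sub_eq_zero.1 (Int.eq_zero_of_abs_lt_dvd
      ((dvd_sub_right (h12.mul_left _)).1 h9) (abs_lt.2 ⟨by omega, by omega⟩)))

end

open Classical in
theorem sparse {k : Type} [Field k] {p m s : ℕ} (hp : p.Prime) (hs0 : 0 < s)
    (hs : 100 * (m + 1) ^ 4 * s < p) (kap : ℤ → k) {b : k}
    (hb : ∀ (a : ℤ) (y : k), ¬ (p : ℤ) ∣ a → y ^ p ≠ b ^ a) (hper : ∀ e, kap (e + p) = b * kap e)
    (h : ∀ a : ℤ, ¬ (p : ℤ) ∣ a → ∀ R : Fin m → Fin s → ℕ, (∀ i r, R i r < p) →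
      Function.Injective (Function.uncurry R) →
      ∃ i, (Matrix.of fun r y : Fin s => kap (a * ((R i r : ℤ) - (y : ℕ)))).det = 0) :
    ((Finset.range p).filter fun e : ℕ => kap e ≠ 0).card ≤ m := by
  have hp' := Nat.prime_iff_prime_int.1 hp
  have hb0 : b ≠ 0 := fun h => hb 1 0 hp'.not_dvd_one (by rw [h, zero_pow hp.ne_zero, zpow_one])
  have h1 : ∀ a q e : ℤ, kap (a * (e + q * p)) = (b ^ a) ^ q * kap (a * e) := fun a q e => by
    rw [mul_add, ← mul_assoc, per_zpow hb0 hper, zpow_mul]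
  have h2 : ∀ a : ℤ, ¬ (p : ℤ) ∣ a → Loc p m (m * s) fun j => kap (a * j) := fun a ha =>
    loc_of hs0 hp.pos (h1 a) fun R g1 g2 => by
      simpa only [neg_mul, ← mul_neg, neg_sub] using h (-a) (by rwa [dvd_neg]) R g1 g2
  rcases Nat.eq_zero_or_pos m with rfl | hm
  · obtain ⟨i, -⟩ := h 1 hp'.not_dvd_one (fun i => i.elim0) (fun i => i.elim0) fun x => x.1.elim0
    exact i.elim0
  have hd : 0 < m * s := Nat.mul_pos hm hs0
  have hs1 : 100 * (m + 1) ^ 3 * (m * s) < p := lt_of_le_of_lt (by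
    rw [← mul_assoc, pow_succ _ 3, ← mul_assoc]; gcongr; omega) hs
  generalize m * s = d at *
  obtain ⟨l, hl⟩ : ∃ l, l = 9 * m ^ 2 + 1 := ⟨_, rfl⟩
  obtain ⟨M, hM⟩ : ∃ M, M = (m + 1) * (4 * d + 1) := ⟨_, rfl⟩
  have a1 : l ≤ 9 * (m + 1) ^ 2 := by nlinarith
  have a2 : M ≤ (m + 1) * (5 * d) := by rw [hM]; gcongr; omega
  have a3 : l * M < p := lt_of_le_of_lt ((Nat.mul_le_mul a1 a2).trans (by nlinarith)) hs1
  have a4 : l * (3 * d + 1) < p := lt_of_le_of_lt (by gcongr; nlinarith) a3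
  have h3 : ¬ (p : ℤ) ∣ l := fun h3 => by
    have := Nat.le_of_dvd (by omega) (Int.natCast_dvd_natCast.1 h3)
    nlinarith
  have h4 : ∀ i : ℕ, ∀ a : ℤ, ¬ (p : ℤ) ∣ a → ∀ n ≤ d, ∀ c,
      Gm M n (fun j => kap (l ^ i * a * j)) c → 2 ^ i * n ≤ d := by
    intro i
    induction i with
    | zero => exact fun _ _ n hn _ _ => by simpa using hn
    | succ i ih =>
      intro a ha n hn c hc
      have h4 : ¬ (p : ℤ) ∣ l ^ i * a := fun h4 =>
        (hp'.dvd_or_dvd h4).elim (fun h => h3 (hp'.dvd_of_dvd_pow h)) ha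
      have e : (fun j => kap (l ^ (i + 1) * a * j)) = fun j => kap (l ^ i * a * (l * j)) :=
        funext fun j => by congr 1; ring
      have h5 := h2 (l ^ (i + 1) * a) fun h5 =>
        (hp'.dvd_or_dvd h5).elim (fun h => h3 (hp'.dvd_of_dvd_pow h)) ha
      rw [e] at hc h5
      obtain ⟨n', h6, h7, c', h8⟩ := double hp (zpow_ne_zero _ hb0)
        (X_pow_sub_C_irreducible_of_prime hp fun y => hb _ y h4) (h1 _) (h2 _ h4) h5
        (by nlinarith) (a2.trans (by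
          rw [show (m + 1) * (5 * d) = d * (5 * (m + 1)) by ring, mul_comm 2 d, mul_assoc]
          exact Nat.mul_le_mul_left d (by nlinarith))) (by
          rw [hM, mul_left_comm]; gcongr; nlinarith) a3 a4 hn hc
      exact le_trans (by rw [pow_succ, mul_assoc]; gcongr) (ih a ha n' h6 c' h8)
  rw [← card_image_of_injective _ (Nat.cast_injective (R := ℤ))]
  refine avg hp (M := 2 * (M + d)) (L := l ^ d * 1) ?_
    (fun h5 => h3 (hp'.dvd_of_dvd_pow (mul_one (_ : ℤ) ▸ h5))) (fun e he => ?_) fun a ha => ?_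
  · have : (m + 1) ^ 2 * (2 * (2 * (M + d)) + 1) ≤ (m + 1) ^ 2 * ((m + 1) * (29 * d)) := by
      gcongr; nlinarith
    have : 0 < (m + 1) ^ 3 * d := by positivity
    have : (m + 1) ^ 2 * ((m + 1) * (29 * d)) = 29 * ((m + 1) ^ 3 * d) := by ring
    rw [mul_assoc] at hs1
    omega
  · obtain ⟨e, he', rfl⟩ := mem_image.1 he
    exact ⟨by omega, by exact_mod_cast mem_range.1 (mem_filter.1 he').1⟩
  obtain ⟨T, h5, h6⟩ := h2 (l ^ d * a) fun h5 =>
    (hp'.dvd_or_dvd h5).elim (fun h => h3 (hp'.dvd_of_dvd_pow h)) ha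
  refine ⟨T.image (· + d), card_image_le.trans h5, fun e he j q h7 h8 => ?_⟩
  obtain ⟨e, he', rfl⟩ := mem_image.1 he
  obtain ⟨n, h9, y, h10, h11⟩ := h6 j (j + M) fun t ht q h9 =>
    h8 _ (mem_image_of_mem _ ht) q (by push_cast; omega)
  have h12 := h4 d a ha n h9 j ⟨y, h10, h11⟩
  obtain rfl : n = 0 := by_contra fun h13 => by
    have := Nat.lt_two_pow_self (n := d)
    nlinarith [Nat.pos_of_ne_zero h13]
  have h13 : y j = kap (l ^ d * a * j) := h11 j le_rfl (by omega)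
  rw [mul_one] at h7
  rw [h10.zero, h7, per_zpow hb0 hper] at h13
  exact mul_ne_zero (zpow_ne_zero _ hb0) (mem_filter.1 he').2 h13.symm

end Pool.Agent.Lib.MP_f61260_nt.Bd
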