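import Pool.Agent.Lib.MP_f61260_nt.Bd.Arch
import Pool.Agent.Lib.MP_f61260_nt.Det4

set_option autoImplicit false

namespace Pool.Agent.Lib.MP_f61260_nt

open Polynomial Real

/-- the interpolation matrix for the rows `u` -/
noncomputable def Mu {K : Type} [CommRing K] {N s : ℕ} (ϖ : K) (γ : Fin N → K)
    (u : Fin s → Fin N) : Matrix (Fin N) (Fin N) K := Rep (Xm N ϖ) (Gm ϖ γ s) u

lemma Mu_map {K L : Type} [CommRing K] [CommRing L] (φ : K →+* L) {N s : ℕ} (ϖ : K)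
    (γ : Fin N → K) (u : Fin s → Fin N) :
    φ (Mu ϖ γ u).det = (Mu (φ ϖ) (fun i => φ (γ i)) u).det := by
  rw [RingHom.map_det]
  congr 1
  ext x i
  simp only [Mu, Rep, RingHom.mapMatrix_apply, Matrix.map_apply, Matrix.of_apply]
  split_ifs <;> simp [Gm, Xm]

lemma Mu_mul {K : Type} [CommRing K] {N s : ℕ} (ϖ η : K) (γ : Fin N → K) (u : Fin s → Fin N) :
    ∃ k : ℕ, (Mu ϖ (fun i => γ i * η) u).det = η ^ k * (Mu ϖ γ u).det := by
  refine ⟨(Finset.univ.filter fun x : Fin N => ∃ v, u v = x).card, ?_⟩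
  have : Mu ϖ (fun i => γ i * η) u =
      Matrix.diagonal (fun x : Fin N => if ∃ v, u v = x then η else 1) * Mu ϖ γ u := by
    ext x i
    rw [Matrix.diagonal_mul]
    simp only [Mu, Rep, Matrix.of_apply]
    split_ifs
    · simp only [Gm, Matrix.of_apply]
      ring
    · rw [one_mul]
  rw [this, Matrix.det_mul, Matrix.det_diagonal, Finset.prod_ite]
  simp

lemma Mu_le {K : Type} [NormedField K] [IsUltrametricDist K] {N s : ℕ} {ϖ : K} (h : ‖ϖ‖ = 1)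
    (γ : Fin N → K) (u : Fin s → Fin N) : ‖(Mu ϖ γ u).det‖ ≤ ∏ i, max 1 ‖γ i‖ :=
  ndet_le _ fun x i => by
    simp only [Mu, Rep, Matrix.of_apply]
    split_ifs <;> simp [Gm, Xm, h]

variable {p : ℕ} [hp : Fact p.Prime]

lemma qlocU {A : Subgroup (LA p)} (hp2 : p ≠ 2) {ω ρ : Om p} (hω : IsPrimitiveRoot ω p)
    (h : TInv A (ρ ^ p)) (hb : Fx A (ρ ^ p)) (h1 : ‖ρ - 1‖ < 1) (γ : Fin p → Om p)
    (hγ : ∀ σ ∈ A, ∀ i j : Fin p, σ (ω ^ (i : ℕ) * ρ) = ω ^ (j : ℕ) * ρ → σ (γ i) = γ j)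
    (a : ℕ) {s : ℕ} (r : Fin s → Fin p) : ‖(Mu (ω ^ a) γ r).det‖ ^ 2 * ‖(p : Om p)‖ ^ 4 ≤
      ‖(p : Om p)‖ ^ p * (∏ i, max 1 ‖γ i‖) ^ 2 := by
  obtain ⟨v, g, hv, hg, hQ⟩ := loc_lat hp2 hω h hb h1
  have hρ : ‖ρ‖ = 1 := by simpa using norm_one_add h1
  have hρ0 : ρ ≠ 0 := norm_pos_iff.1 (hρ ▸ one_pos)
  have hω1 := norm_root hp.out.pos hω.pow_eq_one
  obtain ⟨u, hu⟩ : ∃ u : Fin p → Om p, ∀ i, u i = if ‖γ i‖ ≤ 1 then 1 else (γ i)⁻¹ := ⟨_, fun _ => rfl⟩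
  have u1 : ∀ i, ‖u i‖ * max 1 ‖γ i‖ = 1 := fun i => by
    rw [hu]
    split_ifs with h
    · simp [h]
    · rw [max_eq_right (not_le.1 h).le, norm_inv, inv_mul_cancel₀ (by linarith)]
  have u2 : ∀ σ ∈ A, ∀ i j : Fin p, σ (ω ^ (i : ℕ) * ρ) = ω ^ (j : ℕ) * ρ → σ (u i) = u j :=
    fun σ hσ i j h => by
      rw [hu, hu, ← hγ σ hσ i j h, niso]
      split_ifs <;> simp
  have key : ∀ (y : Fin p → Om p) (e : ℕ), (∀ i, ‖y i‖ ≤ max 1 ‖γ i‖) →
      (∀ σ ∈ A, ∀ i j : Fin p, σ (ω ^ (i : ℕ) * ρ) = ω ^ (j : ℕ) * ρ → σ (y i) = y j) →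
      ∃ Q : (Om p)[X], Q.degree < p ∧ IntP Q ∧
        ∀ i, y i * ((ω ^ a) ^ (i : ℕ)) ^ e * (u i * g i) = Q.eval (v i) := by
    intro y e h2 h3
    obtain ⟨Q, h4, h5, h6⟩ := hQ (fun i => u i * y i * (ω ^ (i : ℕ) * ρ) ^ (a * e))
      (fun i => by
        simp only [norm_mul, norm_pow, hω1, hρ, one_pow, mul_one]
        exact (mul_le_mul_of_nonneg_left (h2 i) (norm_nonneg _)).trans_eq (u1 i))
      fun σ hσ i j h => by rw [map_mul, map_mul, map_pow, h, u2 σ hσ i j h, h3 σ hσ i j h]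
    refine ⟨C (ρ ^ (a * e))⁻¹ * Q, ?_, (intP_C (by simp [hρ])).mul h5, fun i => ?_⟩
    · rwa [degree_C_mul (inv_ne_zero (pow_ne_zero _ hρ0))]
    · rw [eval_mul, eval_C, ← h6]
      field_simp
      ring
  have h2 := qdet hω hv (u := fun i => u i * g i) (Mu (ω ^ a) γ r) fun x => by
    simp only [Mu, Rep, Matrix.of_apply]
    split_ifs
    · exact key γ _ (fun _ => le_max_right _ _) hγ
    · simpa [Xm] using key (fun _ => 1) x (fun _ => by simp) fun _ _ _ _ _ => map_one _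
  have h3 : (∏ i, ‖u i‖) * ∏ i, max 1 ‖γ i‖ = 1 := by
    rw [← Finset.prod_mul_distrib]; exact Finset.prod_eq_one fun i _ => u1 i
  simp only [norm_mul, Finset.prod_mul_distrib] at h2
  calc _ ≤ ‖(Mu (ω ^ a) γ r).det‖ ^ 2 * (∏ i, ‖g i‖) ^ 2 := by
        rw [show 4 = 2 * 2 by rfl, pow_mul]; gcongr
    _ = (‖(Mu (ω ^ a) γ r).det‖ * ((∏ i, ‖u i‖) * ∏ i, ‖g i‖)) ^ 2 * (∏ i, max 1 ‖γ i‖) ^ 2 := by
        rw [← mul_pow, ← mul_pow, mul_assoc, mul_right_comm (∏ i, ‖u i‖), h3, one_mul]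
    _ ≤ _ := by gcongr

lemma qglobU (hp2 : p ≠ 2) {W : Subgroup GA} (hW : UnrG p W) {x ω : Qb} {k : ℕ} (hx : Un p x)
    (hk : Fx W (x ^ p ^ (k + 1))) (hω : IsPrimitiveRoot ω p) (γ : Fin p → Qb)
    (hγ : ∀ σ ∈ W, ∀ i j : Fin p, σ (ω ^ (i : ℕ) * x) = ω ^ (j : ℕ) * x → σ (γ i) = γ j)
    (a : ℕ) {s : ℕ} (r : Fin s → Fin p) (τ : GA) :
    ‖io p (τ (Mu (ω ^ a) γ r).det)‖ ^ 2 * ‖(p : Om p)‖ ^ 4 ≤
      ‖(p : Om p)‖ ^ p * (∏ i, max 1 ‖io p (τ (γ i))‖) ^ 2 := by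
  obtain ⟨m, hm, hW⟩ := hW τ
  obtain ⟨m', hm', c, h1, h2⟩ := near_root (hx τ).le
  have h3 : c ^ m' = 1 := h1.resolve_left fun h => by simp [h, hx τ] at h2
  have hm0 : 0 < m' := Nat.pos_of_ne_zero fun h => hm' (h ▸ dvd_zero p)
  have hc := norm_root hm0 h3
  have hc0 : c ≠ 0 := norm_pos_iff.1 (hc ▸ one_pos)
  have h4 : ‖io p (τ x) / c - 1‖ < 1 := by rwa [div_sub_one hc0, norm_div, hc, div_one]
  have h5 : ∀ σ ∈ In p (m * m'), σ c = c := fun σ hσ =>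
    mem_In.1 (In_mono (dvd_mul_left _ _) hσ) c h3
  let φ : Qb →+* Om p := (io p).toRingHom.comp (τ : Qb →+* Qb)
  have hφ : ∀ y, φ y = io p (τ y) := fun _ => rfl
  have := qlocU (A := In p (m * m') ⊓ St ℚ_[p] ((io p (τ x) / c) ^ p)) hp2
    (hω.map_of_injective φ.injective) (tinv hp2 (val_In fun h => (hp.out.dvd_mul.1 h).elim hm hm') k
      (fun σ hσ => ?_) (lt_of_le_of_lt (by
        simpa using pow_sub_le_one (by rw [norm_div, hc, hx τ, div_one]) (norm_one (α := Om p)).le p)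
        h4)) (Fx.of_le inf_le_right) h4 (fun i => φ (γ i)) (fun σ hσ i j h => ?_) a r
  · rwa [← map_pow, ← Mu_map] at this
  · obtain ⟨g, hg⟩ := res_ex σ
    rw [← pow_mul, ← pow_succ', div_pow, map_div₀, map_pow σ c, h5 σ hσ, ← map_pow, ← map_pow,
      act_eq hg, hk _ (hW σ (In_mono (dvd_mul_right _ _) hσ) g hg)]
  · obtain ⟨g, hg⟩ := res_ex σ
    rw [← mul_div_assoc, ← mul_div_assoc, map_div₀, h5 σ hσ.1, div_left_inj' hc0, ← hφ, ← map_pow,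
      ← map_pow, ← map_mul, ← map_mul, hφ, act_eq hg, ← hφ] at h
    rw [hφ, act_eq hg, hγ _ (hW σ (In_mono (dvd_mul_right _ _) hσ.1) g hg) i j (φ.injective h), hφ]

lemma win (hp2 : p ≠ 2) {W : Subgroup GA} (hW : UnrG p W) {x ω η : Qb} {k : ℕ} (hx : Un p x)
    (hk : Fx W (x ^ p ^ (k + 1))) (hω : IsPrimitiveRoot ω p) (γ : Fin p → Qb)
    (hγ : ∀ σ ∈ W, ∀ i j : Fin p, σ (ω ^ (i : ℕ) * x) = ω ^ (j : ℕ) * x → σ (γ i) = γ j)
    (hη : Un p η) {a s m : ℕ} (ha : a.Coprime p) (hm : 0 < m) {ι : Type} [Fintype ι]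
    (y : Fin p → ι → Qb) {D : ℝ}
    (h1 : ∀ (τ : GA) i, ‖(τ (γ i * η) : ℂ)‖ ≤ D * ∏ j, max 1 ‖(τ (y i j) : ℂ)‖)
    (h2 : ∀ (τ : GA) (l : ℕ) [Fact l.Prime] i,
      ‖io l (τ (γ i * η))‖ ≤ ∏ j, max 1 ‖io l (τ (y i j))‖)
    {u : Fin m → Fin s → Fin p} (hu : Function.Injective (Function.uncurry u))
    (h3 : ∀ j, (Mu (ω ^ a) γ (u j)).det ≠ 0) :
    s * (log m - D ^ 2) ≤ 4 * log p + 2 * ∑ i, ∑ j, ht (y i j) := by
  choose e he using fun j => Mu_mul (ω ^ a) η γ (u j)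
  have hη0 : η ≠ 0 := fun h => by simpa [h] using hη 1
  have hϖ := hω.pow_of_coprime a ha
  have hp0 : (0 : ℝ) < p := Nat.cast_pos.2 hp.out.pos
  have hm0 : (0 : ℝ) < m := Nat.cast_pos.2 hm
  have h4 : ∀ f : Qb → ℝ, ∏ b : Fin m × Fin p × ι, f (y b.2.1 b.2.2) = (∏ i, ∏ j, f (y i j)) ^ m :=
    fun f => by simp [Fintype.prod_prod_type]
  have h5 : ∀ (τ : GA) (l : ℕ) [Fact l.Prime], ∏ i, max 1 ‖io l (τ (γ i * η))‖ ≤
      ∏ i, ∏ j, max 1 ‖io l (τ (y i j))‖ := fun τ l _ =>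
    Finset.prod_le_prod (fun _ _ => by positivity) fun i _ =>
      max_le (Finset.one_le_prod fun _ _ => le_max_left _ _) (h2 τ l i)
  have := pf_ineq (Δ := ∏ j, (Mu (ω ^ a) (fun i => γ i * η) (u j)).det ^ 2)
    (Finset.prod_ne_zero_iff.2 fun j _ => by simp [he, hη0, h3])
    (fun b : Fin m × Fin p × ι => y b.2.1 b.2.2) p (a := (p ^ p * exp (s * D ^ 2) / m ^ s) ^ m)
    (b := (p ^ 4 / p ^ p) ^ m) (by positivity) (by positivity)
    (fun τ => ?_) (fun τ => ?_) fun τ l _ => ?_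
  · rw [log_pow, log_pow, log_div (by positivity) (by positivity), log_div (by positivity)
      (by positivity), log_mul (by positivity) (by positivity), log_exp, log_pow, log_pow, log_pow,
      show ∑ b : Fin m × Fin p × ι, ht (y b.2.1 b.2.2) = m * ∑ i, ∑ j, ht (y i j) by
        simp [Fintype.sum_prod_type]] at this
    push_cast at this
    refine le_of_mul_le_mul_left ?_ hm0
    linarith
  · let φ : Qb →+* ℂ := (algebraMap Qb ℂ).comp (τ : Qb →+* Qb)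
    have := arch_m (hϖ.map_of_injective φ.injective) hp.out.pos (fun i => φ (γ i * η))
      (fun i => Finset.one_le_prod fun _ _ => le_max_left _ _) (h1 τ) hu
    rw [h4 fun t => max 1 ‖(τ t : ℂ)‖, ← pow_mul, mul_comm m, pow_mul, ← mul_pow]
    refine le_of_eq_of_le ?_ this
    change ‖φ _‖ = _
    rw [map_prod, norm_prod]
    exact Finset.prod_congr rfl fun j _ => by rw [map_pow, norm_pow, Mu_map]; rfl
  · rw [h4 fun t => max 1 ‖io p (τ t)‖, ← pow_mul, mul_comm m, pow_mul, ← mul_pow, map_prod,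
      map_prod, norm_prod]
    refine (Finset.prod_le_prod (fun _ _ => norm_nonneg _) fun j _ => ?_).trans_eq (Fin.prod_const _ _)
    have h6 := qglobU hp2 hW hx hk hω γ hγ a (u j) τ
    have h7 := h5 τ p
    simp only [map_mul, norm_mul, hη τ, mul_one] at h7
    simp only [he, map_mul, map_pow, norm_mul, norm_pow, hη τ, one_pow, one_mul]
    rw [np_eq, inv_pow, inv_pow, ← div_eq_mul_inv, div_le_iff₀ (by positivity)] at h6
    refine h6.trans (le_of_eq_of_le (by ring) (mul_le_mul_of_nonneg_left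
      (pow_le_pow_left₀ (by positivity) h7 2) (by positivity)))
  · let φ : Qb →+* Om l := (io l).toRingHom.comp (τ : Qb →+* Qb)
    rw [h4 fun t => max 1 ‖io l (τ t)‖, ← pow_mul, mul_comm m, pow_mul, map_prod,
      map_prod, norm_prod]
    refine (Finset.prod_le_prod (fun _ _ => norm_nonneg _) fun j _ => ?_).trans_eq (Fin.prod_const _ _)
    have h6 := Mu_le (norm_root hp.out.pos (hϖ.map_of_injective φ.injective).pow_eq_one)
      (fun i => φ (γ i * η)) (u j)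
    rw [← Mu_map] at h6
    rw [map_pow, map_pow, norm_pow]
    exact pow_le_pow_left₀ (norm_nonneg _) (h6.trans (h5 τ l)) 2

end Pool.Agent.Lib.MP_f61260_nt
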