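import Pool.Agent.Lib.MP_f61260_nt.Bd.Ab
import Pool.Agent.Lib.MP_f61260_nt.Bd.Win
import Pool.Agent.Lib.MP_f61260_nt.Bd.Spa
import Pool.Agent.Lib.MP_f61260_nt.Bd.Lift

set_option autoImplicit false

namespace Pool.Agent.Lib.MP_f61260_nt

open Polynomial Finset Real

section

variable {L : Type} [Field L] [CharZero L] {N : ℕ}

/-- the Fourier coefficients -/
noncomputable def cf (ω : L) (γ : Fin N → L) (e : ℤ) : L :=
  (N : L)⁻¹ * ∑ i, γ i * (ω ^ (i : ℕ)) ^ (-e)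

lemma cf_inv {ω ϖ : L} (h : IsPrimitiveRoot ϖ N) {a : ℤ} (ha : ϖ = ω ^ a) (γ : Fin N → L) (v : ℕ)
    (i : Fin N) : ∑ e : Fin N, cf ω γ (a * ((e : ℕ) - v)) * (ϖ ^ (i : ℕ)) ^ (e : ℕ) =
      γ i * (ϖ ^ (i : ℕ)) ^ v := by
  have hN := i.pos
  have h0 := h.ne_zero hN.ne'
  have h1 : ∀ j : Fin N, ∑ e : Fin N, (ϖ ^ (i : ℕ) / ϖ ^ (j : ℕ)) ^ (e : ℕ) =
      if j = i then (N : L) else 0 := fun j => by
    split_ifs with hj
    · simp [hj, h0]
    · have h2 : ϖ ^ (i : ℕ) / ϖ ^ (j : ℕ) ≠ 1 := fun h2 => hj (Fin.ext (h.pow_inj j.2 i.2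
        ((div_eq_one_iff_eq (pow_ne_zero _ h0)).1 h2).symm))
      rw [Fin.sum_univ_eq_sum_range fun e => (ϖ ^ (i : ℕ) / ϖ ^ (j : ℕ)) ^ e, geom_sum_eq h2,
        div_pow, ← pow_mul, ← pow_mul, mul_comm, mul_comm (j : ℕ), pow_mul, pow_mul, h.pow_eq_one]
      simp
  have h2 : ∀ (j : ℕ) (e : ℤ), (ω ^ j) ^ (-(a * e)) = (ϖ ^ j) ^ (-e) := fun j e => by
    rw [ha, ← zpow_natCast, ← zpow_natCast, ← zpow_mul, ← zpow_mul, ← zpow_mul]
    congr 1
    ring
  calc _ = (N : L)⁻¹ * ∑ j : Fin N, γ j * (ϖ ^ (j : ℕ)) ^ v *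
        ∑ e : Fin N, (ϖ ^ (i : ℕ) / ϖ ^ (j : ℕ)) ^ (e : ℕ) := by
        simp only [cf, h2, mul_sum, sum_mul]
        rw [sum_comm]
        refine sum_congr rfl fun j _ => sum_congr rfl fun e _ => ?_
        rw [neg_sub, zpow_sub₀ (pow_ne_zero _ h0), zpow_natCast, zpow_natCast, div_pow]
        ring
    _ = _ := by
        have : (N : L) ≠ 0 := Nat.cast_ne_zero.2 hN.ne'
        simp only [h1, mul_ite, mul_zero, sum_ite_eq', mem_univ, if_true]
        field_simp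

lemma coeff_le {K : Type} [NormedField K] (φ : L →+* K) (η : K) (O : Finset L) {t : ℕ}
    (ht : t ≤ O.card) : ∃ f : Finset L → K,
      φ ((∏ β ∈ O, (X - C β)).coeff t) * η ^ (O.card - t) =
        ∑ A ∈ O.powersetCard (O.card - t), f A ∧
      ∀ A ∈ O.powersetCard (O.card - t), ‖f A‖ ≤ ∏ β : O, max 1 ‖φ β * η‖ := by
  refine ⟨fun A => ∏ β ∈ A, -(φ β * η), ?_, fun A hA => ?_⟩
  · simp only [sub_eq_add_neg, ← C_neg]
    rw [prod_X_add_C_coeff _ _ ht, map_sum, sum_mul]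
    refine sum_congr rfl fun A hA => ?_
    rw [← (mem_powersetCard.1 hA).2, map_prod, ← prod_const, ← prod_mul_distrib]
    simp
  · rw [norm_prod, prod_coe_sort O fun β => max 1 ‖φ β * η‖]
    exact (prod_le_prod (fun _ _ => norm_nonneg _) fun β _ => by simp).trans
      (prod_le_prod_of_subset_of_one_le (mem_powersetCard.1 hA).1 (fun _ _ => by positivity)
        fun _ _ _ => le_max_left _ _)

end

lemma few {p m s : ℕ} [hp : Fact p.Prime] (hs0 : 0 < s) (hs : 100 * (m + 1) ^ 4 * s < p) {σ : GA}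
    {ω x γ : Qb} (hω : IsPrimitiveRoot ω p) (h1 : σ x = ω * x) (h2 : σ ω = ω) (hx : x ≠ 0)
    (hγ : (σ ^ p) γ = γ) (h : ∀ a : ℕ, a.Coprime p → ∀ u : Fin m → Fin s → Fin p,
      Function.Injective (Function.uncurry u) →
      ∃ j, (Mu (ω ^ a) (fun i : Fin p => (σ ^ (i : ℕ)) γ) (u j)).det = 0) :
    ∃ (c : ℕ → Qb) (E : Finset ℕ), E.card ≤ m ∧ (∀ e, σ (c e) = ω ^ e * c e) ∧
      ∑ e ∈ E, c e = γ := by
  classical
  have hω0 := hω.ne_zero hp.out.ne_zero
  set g : Fin p → Qb := fun i => (σ ^ (i : ℕ)) γ with hg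
  have h3 : ∀ e : ℤ, σ (cf ω g e) = ω ^ e * cf ω g e := fun e => by
    have e1 := sum_range_succ' (fun i => (σ ^ i) γ * (ω ^ i) ^ (-e)) p
    rw [sum_range_succ, hγ, hω.pow_eq_one, pow_zero, pow_zero, AlgEquiv.one_apply,
      add_left_inj] at e1
    rw [cf, hg, Fin.sum_univ_eq_sum_range fun i => (σ ^ i) γ * (ω ^ i) ^ (-e), map_mul, map_inv₀,
      map_natCast, map_sum, mul_left_comm, e1, mul_sum (range p) _ (ω ^ e)]
    congr 1
    refine sum_congr rfl fun i _ => ?_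
    rw [map_mul, map_zpow₀, map_pow, h2, pow_succ' σ, AlgEquiv.mul_apply, pow_succ, mul_zpow,
      zpow_neg ω]
    field_simp
  have h4 : ∀ e : ℤ, σ (x ^ e) = ω ^ e * x ^ e := fun e => by rw [map_zpow₀, h1, mul_zpow]
  have h5 : ω ^ (p : ℤ) = 1 := by rw [zpow_natCast, hω.pow_eq_one]
  let k := FixedBy.subfield Qb σ
  let kap : ℤ → k := fun e => ⟨cf ω g e / x ^ e, by
    change σ _ = _
    rw [map_div₀, h3, h4, mul_div_mul_left _ _ (zpow_ne_zero _ hω0)]⟩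
  have h6 := Bd.sparse hp.out hs0 hs kap (b := ⟨(x ^ (p : ℤ))⁻¹, by
      change σ _ = _
      rw [map_inv₀, h4, h5, one_mul]⟩) (fun a y ha hy => ?_) (fun e => Subtype.ext ?_)
    fun a ha R hR hi => ?_
  · refine ⟨fun e => cf ω g e, _, h6, fun e => by rw [h3, zpow_natCast], ?_⟩
    have e1 : ∀ e ∈ range p, cf ω g e ≠ 0 → kap e ≠ 0 := fun e _ he hk =>
      he ((div_eq_zero_iff.1 (show cf ω g e / x ^ (e : ℤ) = 0 from
        congrArg Subtype.val hk)).resolve_right (zpow_ne_zero _ hx))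
    refine Eq.trans (b := ∑ e ∈ range p, cf ω g e) (by convert sum_filter_of_ne e1) ?_
    rw [← Fin.sum_univ_eq_sum_range fun e => cf ω g e]
    simpa [hg] using cf_inv hω (zpow_one ω).symm g 0 ⟨0, hp.out.pos⟩
  · have e1 : (y.1 * x ^ a) ^ p = 1 := by
      rw [mul_pow, show y.1 ^ p = ((x ^ (p : ℤ))⁻¹) ^ a from congrArg Subtype.val hy,
        ← zpow_natCast, ← zpow_mul, mul_comm a, zpow_mul, ← mul_zpow,
        inv_mul_cancel₀ (zpow_ne_zero _ hx), one_zpow]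
    have : NeZero p := ⟨hp.out.ne_zero⟩
    obtain ⟨j, -, e2⟩ := hω.eq_pow_of_pow_eq_one e1
    have e3 := congrArg σ e2
    rw [map_pow, h2, map_mul, show σ y.1 = y.1 from y.2, h4, mul_left_comm, ← e2,
      right_eq_mul₀ (pow_ne_zero _ hω0)] at e3
    exact ha ((hω.zpow_eq_one_iff_dvd a).1 e3)
  · have e1 : cf ω g (e + p) = cf ω g e := by
      simp only [cf, neg_add, zpow_add₀ (pow_ne_zero _ hω0), zpow_neg, zpow_natCast, ← pow_mul,
        mul_comm _ p]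
      simp [pow_mul, hω.pow_eq_one]
    change cf ω g (e + p) / x ^ (e + p) = (x ^ (p : ℤ))⁻¹ * (cf ω g e / x ^ e)
    rw [e1, zpow_add₀ hx]
    field_simp
  · have hp0 : (p : ℤ) ≠ 0 := Nat.cast_ne_zero.2 hp.out.ne_zero
    have e1 : ((a % p).toNat : ℤ) = a % p := Int.toNat_of_nonneg (Int.emod_nonneg a hp0)
    have e2 : (a % p).toNat.Coprime p := ((Nat.Prime.coprime_iff_not_dvd hp.out).2 fun h =>
      ha (Int.emod_add_mul_ediv a p ▸ dvd_add (e1 ▸ Int.natCast_dvd_natCast.2 h)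
        (dvd_mul_right _ _))).symm
    have e3 : ω ^ (a % p).toNat = ω ^ a := by
      conv_rhs => rw [← Int.emod_add_mul_ediv a p, zpow_add₀ hω0, zpow_mul, h5, one_zpow, mul_one]
      rw [← zpow_natCast, e1]
    have hϖ := hω.pow_of_coprime _ e2
    have hu : Function.Injective (Function.uncurry fun i r => (⟨R i r, hR i r⟩ : Fin p)) :=
      fun y y' e => hi (congrArg Fin.val e)
    obtain ⟨j, hj⟩ := h _ e2 _ hu
    refine ⟨j, k.subtype.injective ?_⟩
    have e4 : Gm (ω ^ (a % p).toNat) g s = (Matrix.of fun (v : Fin s) (e : Fin p) =>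
        cf ω g (a * ((e : ℕ) - (v : ℕ)))) * Xm p (ω ^ (a % p).toNat) := by
      exact Matrix.ext fun v i => (cf_inv hϖ e3 g v i).symm
    rw [Mu, e4, det_rep _ _ (u := fun r => (⟨R j r, hR j r⟩ : Fin p))
      fun v v' hv => (Prod.ext_iff.1 (@hu (j, v) (j, v') hv)).2,
      mul_eq_zero, or_iff_left (Xm_det hϖ), ← Matrix.det_transpose] at hj
    rw [RingHom.map_det, map_zero, show k.subtype.mapMatrix (Matrix.of fun r y : Fin s =>
        kap (a * ((R j r : ℤ) - (y : ℕ)))) = Matrix.diagonal (fun r => (x ^ (a * R j r))⁻¹) *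
        _ * Matrix.diagonal fun y : Fin s => x ^ (a * (y : ℕ)) from ?_, Matrix.det_mul,
      Matrix.det_mul, hj, mul_zero, zero_mul]
    refine Matrix.ext fun r y => ?_
    rw [Matrix.mul_diagonal, Matrix.diagonal_mul]
    change cf ω g (a * (R j r - (y : ℕ))) / x ^ (a * (R j r - (y : ℕ))) =
      _ * cf ω g (a * (R j r - (y : ℕ))) * _
    rw [mul_sub a, zpow_sub₀ hx]
    field_simp

lemma num {K p s m D ε : ℝ} (hK : 1 ≤ K) (hp : 2 * K + 64 * K * K ≤ p) (hs : p < K * (s + 1))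
    (hm : 1 ≤ log m - D) (h : s * (log m - D) ≤ 4 * log p + 2 * (p * ε)) (hε : 8 * K * ε ≤ 1) :
    False := by
  have hp0 : 0 < p := by nlinarith
  have h1 := log_le_sub_one_of_pos (show 0 < p / (16 * K) by positivity)
  have h2 := log_le_sub_one_of_pos (show 0 < K by positivity)
  have h3 : log 16 ≤ 3 := by
    rw [show (16 : ℝ) = 2 ^ 4 by norm_num, log_pow]
    have := log_two_lt_d9
    push_cast
    linarith
  rw [log_div hp0.ne' (by positivity), log_mul (by positivity) (by positivity)] at h1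
  have h4 : 0 ≤ s := by nlinarith
  have h5 : s ≤ 4 * (p / (16 * K) + 1 + K) + 2 * (p * ε) := by nlinarith
  have h6 := mul_le_mul_of_nonneg_left h5 (show 0 ≤ K by positivity)
  have h7 : K * (p / (16 * K)) = p / 16 := by field_simp
  nlinarith

theorem detqD (D : ℕ) : ∃ (P0 : ℕ) (ε : ℝ), 0 < ε ∧ ∀ (p : ℕ) [Fact p.Prime], P0 ≤ p →
    ∀ W : Subgroup GA, UnrG p W → ∀ (x ω α η : Qb) (k : ℕ), Un p x → Fx W (x ^ p ^ (k + 1)) →
    IsPrimitiveRoot ω p → ∀ σ ∈ W, σ x = ω * x → σ ω = ω → Orb (W ⊓ St ℚ x) α D → Un p η →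
    (∀ g ∈ W, ht (g α * η) ≤ ε) →
    ∃ (e : ℤ) (N : ℕ), ¬ p ∣ N ∧ (σ ^ N) (α * x ^ e) = α * x ^ e := by
  classical
  obtain ⟨m, hm⟩ := exists_nat_gt (exp (1 + (2 ^ D) ^ 2))
  have hm0 : (0 : ℝ) < m := (exp_pos _).trans hm
  obtain ⟨P1, ε, hε, H⟩ := lift_step D m
  obtain ⟨K, hK⟩ : ∃ K, K = 100 * (m + 1) ^ 4 + 1 := ⟨_, rfl⟩
  have hK0 : 0 < K := by omega
  have hK1 : (1 : ℝ) ≤ K := by exact_mod_cast hK0
  refine ⟨P1 + (2 * K + 64 * K * K), min ε (1 / (8 * K * (D + 1))), by positivity,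
    fun p hp hP W hW x ω α η k hx hk hω σ hσ h1 h2 ⟨R, hR, hO⟩ hη hht => ?_⟩
  rcases eq_or_ne α 0 with rfl | hα
  · exact ⟨0, 1, hp.out.not_dvd_one, by simp⟩
  have hx0 : x ≠ 0 := fun h => by simpa [h] using hx 1
  have hη0 : η ≠ 0 := fun h => by simpa [h] using hη 1
  have h3 := pow_act h1 h2
  obtain ⟨O, hO1, hO2⟩ : ∃ O : Finset Qb, O.card ≤ D ∧ ∀ β, β ∈ O ↔ ∃ g ∈ W ⊓ St ℚ x, g α = β :=
    ⟨R.filter fun β => ∃ g ∈ W ⊓ St ℚ x, g α = β, (card_filter_le _ _).trans hR, fun β =>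
      mem_filter.trans (and_iff_right_of_imp fun ⟨g, hg, e⟩ => e ▸ hO g hg)⟩
  set P : Qb[X] := ∏ β ∈ O, (X - C β) with hPd
  have h4 : ∀ t, Fx (W ⊓ St ℚ x) (P.coeff t) := fun t g hg => by
    have e1 : O.image g = O := eq_of_subset_of_card_le (fun β hβ => by
      obtain ⟨β', hβ', rfl⟩ := mem_image.1 hβ
      obtain ⟨g', hg', rfl⟩ := (hO2 β').1 hβ'
      exact (hO2 _).2 ⟨g * g', Subgroup.mul_mem _ hg hg', rfl⟩)
      (card_image_of_injective _ g.injective).ge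
    have e2 : P.map (g : Qb →+* Qb) = P := by
      conv_rhs => rw [hPd, ← e1, prod_image fun _ _ _ _ e => g.injective e]
      simp [hPd, Polynomial.map_prod]
    exact (coeff_map (g : Qb →+* Qb) t).symm.trans (congrArg (coeff · t) e2)
  have h5 : ∀ t, ∃ (c : ℕ → Qb) (E : Finset ℕ), E.card ≤ m ∧ (∀ e, σ (c e) = ω ^ e * c e) ∧
      (t < O.card → ∑ e ∈ E, c e = P.coeff t) := fun t => by
    by_cases hto : t < O.card
    swap
    · exact ⟨0, ∅, by simp, by simp, fun h => absurd h hto⟩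
    have hs := Nat.mul_div_le p K
    have hs0 : 0 < p / K := Nat.div_pos (by omega) hK0
    refine (few (m := m) (γ := P.coeff t) hs0 (by nlinarith) hω h1 h2 hx0
      (h4 t _ ⟨W.pow_mem hσ _, mem_St.2 (by rw [h3, hω.pow_eq_one, one_mul])⟩)
      fun a ha u hu => by_contra fun h6 => ?_).imp fun c => Exists.imp fun E h =>
        ⟨h.1, h.2.1, fun _ => h.2.2⟩
    have h7 : ∀ (F : Type) [NormedField F] (φ : Qb →+* F) (τ : GA) (i : Fin p), ∃ f : Finset Qb → F,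
        φ (τ ((σ ^ (i : ℕ)) (P.coeff t) * η ^ (O.card - t))) =
          ∑ A ∈ O.powersetCard (O.card - t), f A ∧ ∀ A ∈ O.powersetCard (O.card - t),
          ‖f A‖ ≤ ∏ β : O, max 1 ‖φ (τ ((σ ^ (i : ℕ)) β * η))‖ := fun F _ φ τ i => by
      simpa using coeff_le (φ.comp (τ * σ ^ (i : ℕ) : GA)) (φ (τ η)) O hto.le
    have h8 := win (by nlinarith) hW hx hk hω (fun i : Fin p => (σ ^ (i : ℕ)) (P.coeff t))
      (fun g hg i j h => by
        have := h4 t ((σ ^ (j : ℕ))⁻¹ * g * σ ^ (i : ℕ)) ⟨W.mul_mem (W.mul_mem (W.inv_mem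
          (W.pow_mem hσ _)) hg) (W.pow_mem hσ _), mem_St.2 (by
            rw [AlgEquiv.mul_apply, AlgEquiv.mul_apply, h3, h, ← h3,
              ← AlgEquiv.mul_apply, inv_mul_cancel, AlgEquiv.one_apply])⟩
        rw [AlgEquiv.mul_apply, AlgEquiv.mul_apply] at this
        conv_rhs => rw [← this, ← AlgEquiv.mul_apply, mul_inv_cancel, AlgEquiv.one_apply])
      (η := η ^ (O.card - t)) (fun τ => by rw [map_pow, map_pow, norm_pow, hη, one_pow]) ha
      (Nat.cast_pos.1 hm0) (fun i (β : O) => (σ ^ (i : ℕ)) β * η) (D := 2 ^ D)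
      (fun τ i => by
        obtain ⟨f, e1, e2⟩ := h7 ℂ (algebraMap Qb ℂ) τ i
        refine (congrArg norm e1).trans_le ((norm_sum_le _ _).trans
          ((sum_le_card_nsmul _ _ _ e2).trans ?_))
        rw [nsmul_eq_mul, card_powersetCard]
        refine mul_le_mul_of_nonneg_right ?_ (by positivity)
        exact_mod_cast (Nat.choose_le_two_pow _ _).trans (Nat.pow_le_pow_right two_pos hO1))
      (fun τ l _ i => by
        obtain ⟨f, e1, e2⟩ := h7 (Om l) (io l) τ i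
        exact (congrArg norm e1).trans_le (nsum_le (by positivity) e2))
      hu fun j hj => h6 ⟨j, hj⟩
    have h9 : ∑ i : Fin p, ∑ β : O, ht ((σ ^ (i : ℕ)) β * η) ≤
        p * ((D + 1) * (1 / (8 * K * (D + 1)))) := by
      refine (sum_le_card_nsmul _ _ ((D + 1) * (1 / (8 * K * (D + 1))) : ℝ) fun i _ =>
        (sum_le_card_nsmul _ _ (1 / (8 * K * (D + 1)) : ℝ) fun β _ => ?_).trans ?_).trans (by simp)
      · obtain ⟨g, hg, e⟩ := (hO2 _).1 β.2
        rw [← e]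
        exact (hht (σ ^ (i : ℕ) * g) (W.mul_mem (W.pow_mem hσ _) hg.1)).trans (min_le_right _ _)
      · rw [nsmul_eq_mul, card_univ, Fintype.card_coe]
        refine mul_le_mul_of_nonneg_right ?_ (by positivity)
        exact_mod_cast hO1.trans D.le_succ
    refine num (s := (p / K : ℕ)) (p := p) (ε := (D + 1) * (1 / (8 * K * (D + 1)))) hK1
      (by exact_mod_cast (by omega : 2 * K + 64 * K * K ≤ p))
      (by exact_mod_cast Nat.lt_mul_div_succ p hK0) ?_ (h8.trans (by gcongr))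
      (le_of_eq (by field_simp))
    have := (lt_log_iff_exp_lt hm0).2 hm
    linarith
  choose c E h6 h7 h8 using h5
  refine H p (by omega) σ ω x α η hω h2 h1 hx0 hα hη0 (fun i => (hht _ (W.pow_mem hσ i)).trans
    (min_le_left _ _)) O.card hO1 c E (fun t _ => h6 t) h7 ?_
  have e1 : P.Monic := monic_prod_of_monic _ _ fun _ _ => monic_X_sub_C _
  have e2 : P.natDegree = O.card := natDegree_finsetProd_X_sub_C_eq_card _ _
  have e3 : P.eval α = 0 := by
    rw [hPd, eval_prod]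
    exact prod_eq_zero ((hO2 α).2 ⟨1, Subgroup.one_mem _, rfl⟩) (by simp)
  rw [eval_eq_sum_range, sum_range_succ, e1.coeff_natDegree, one_mul, e2, add_comm] at e3
  rwa [sum_congr rfl fun t ht => by rw [h8 t (mem_range.1 ht)]]

end Pool.Agent.Lib.MP_f61260_nt
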