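import Pool.Agent.Lib.MP_f61260_nt.Bd.Tow

set_option autoImplicit false

namespace Pool.Agent.Lib.MP_f61260_nt

open Real

lemma Bd.dir_adj {J : Type} (A : J → Subgroup GA) (j₀ : J)
    (hA : ∀ i j, ∃ k, A k ≤ A i ∧ A k ≤ A j) {s : Set ℂ}
    (hs : ∀ u ∈ s, ∃ x : Qb, (x : ℂ) = u ∧ ∃ j, Fx (A j) x) {u : ℂ}
    (hu : u ∈ IntermediateField.adjoin ℚ s) : ∃ x : Qb, (x : ℂ) = u ∧ ∃ j, Fx (A j) x := by
  induction hu using IntermediateField.adjoin_induction with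
  | mem x hx => exact hs x hx
  | algebraMap q => exact ⟨algebraMap ℚ Qb q, rfl, j₀, fun σ _ => σ.commutes q⟩
  | add _ _ _ _ h1 h2 =>
    obtain ⟨x, rfl, i, h1⟩ := h1
    obtain ⟨x', rfl, j, h2⟩ := h2
    obtain ⟨k, h3, h4⟩ := hA i j
    exact ⟨x + x', rfl, k, (h1.mono h3).add (h2.mono h4)⟩
  | inv _ _ h1 =>
    obtain ⟨x, rfl, i, h1⟩ := h1
    exact ⟨x⁻¹, rfl, i, h1.inv⟩
  | mul _ _ _ _ h1 h2 =>
    obtain ⟨x, rfl, i, h1⟩ := h1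
    obtain ⟨x', rfl, j, h2⟩ := h2
    obtain ⟨k, h3, h4⟩ := hA i j
    exact ⟨x * x', rfl, k, (h1.mono h3).mul (h2.mono h4)⟩

lemma Bd.orb_of {J K : Type} [Field K] [Algebra K ℂ] (A : J → Subgroup GA) (j₀ : J)
    (hA : ∀ i j, ∃ k, A k ≤ A i ∧ A k ≤ A j)
    (hK : ∀ u : K, ∃ x : Qb, (x : ℂ) = algebraMap K ℂ u ∧ ∃ j, Fx (A j) x) {α : Qb}
    (hα : IsIntegral K (α : ℂ)) {D : ℕ} (hD : (minpoly K (α : ℂ)).natDegree ≤ D) :
    ∃ j, Orb (A j) α D := by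
  classical
  choose x hx f hf using hK
  set P := minpoly K (α : ℂ)
  obtain ⟨j, hj⟩ : ∃ j, ∀ i ∈ Finset.range (D + 1), A j ≤ A (f (P.coeff i)) := by
    induction Finset.range (D + 1) using Finset.induction_on with
    | empty => exact ⟨j₀, by simp⟩
    | insert a T _ ih =>
      obtain ⟨j, hj⟩ := ih
      obtain ⟨k, h1, h2⟩ := hA j (f (P.coeff a))
      exact ⟨k, fun i hi => (Finset.mem_insert.1 hi).elim (· ▸ h2) fun h => h1.trans (hj i h)⟩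
  let Q : Polynomial Qb := ∑ i ∈ Finset.range (D + 1), Polynomial.monomial i (x (P.coeff i))
  have h1 : Q.map (algebraMap Qb ℂ) = P.map (algebraMap K ℂ) := by
    conv_rhs => rw [P.as_sum_range' (D + 1) (Nat.lt_succ_of_le hD)]
    simp only [Q, Polynomial.map_sum, Polynomial.map_monomial, ← hx]
    rfl
  have h2 : Q ≠ 0 := fun h => ((minpoly.monic hα).map (algebraMap K ℂ)).ne_zero (by
    rw [← h1, h, Polynomial.map_zero])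
  have h3 : Q.eval α = 0 := (algebraMap Qb ℂ).injective (by
    rw [← Polynomial.eval₂_at_apply, ← Polynomial.eval_map, h1, map_zero, Polynomial.eval_map]
    exact minpoly.aeval K (α : ℂ))
  refine ⟨j, Q.roots.toFinset, (Multiset.toFinset_card_le _).trans (Q.card_roots'.trans ?_),
    fun g hg => ?_⟩
  · rw [← Q.natDegree_map (algebraMap Qb ℂ), h1, Polynomial.natDegree_map]
    exact hD
  · rw [Multiset.mem_toFinset, Polynomial.mem_roots h2, Polynomial.IsRoot, ← map_zero g, ← h3]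
    simp only [Q, Polynomial.eval_finsetSum, Polynomial.eval_monomial, map_sum, map_mul, map_pow]
    exact Finset.sum_congr rfl fun i hi => by rw [hf _ g (hj i hi hg)]

theorem bounded_bound (S : Finset ℕ) (Γ : Subgroup ℂˣ) (hΓ : Γ.FG)
    (halg : ∀ g ∈ Γ, IsAlgebraic ℚ (g : ℂ)) (θ : ℂ) (hθ : IsAlgebraic ℚ θ) (D : ℕ) :
    ∃ c : ℝ, 0 < c ∧ ∀ z ∈ {z : ℂ | z ≠ 0 ∧ ∃ n : ℕ, 1 ≤ n ∧ ∃ g ∈ Γ, (g : ℂ) = z ^ n},
      ∀ α : ℂ, α ≠ 0 → α ∉ {z : ℂ | z ≠ 0 ∧ ∃ n : ℕ, 1 ≤ n ∧ ∃ g ∈ Γ, (g : ℂ) = z ^ n} →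
      (minpoly (IntermediateField.adjoin ℚ ({θ, z} ∪
        {y : ℂ | ∃ n : ℕ, 1 ≤ n ∧ n.primeFactors ⊆ S ∧ ∃ g ∈ Γ, (g : ℂ) = y ^ n} ∪
        {t : ℂ | t ∈ IntermediateField.adjoin ℚ {ζ : ℂ | ∃ n : ℕ, 1 ≤ n ∧ ζ ^ n = 1} ∧
          (minpoly ℚ t).natDegree ≤ D})) α).natDegree ≤ D →
      ∀ η ∈ {z : ℂ | z ≠ 0 ∧ ∃ n : ℕ, 1 ≤ n ∧ ∃ g ∈ Γ, (g : ℂ) = z ^ n},
      ∀ f : Polynomial ℤ, Irreducible f → Polynomial.aeval (α * η) f = 0 →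
        c ≤ Real.log (Polynomial.mahlerMeasure (f.map (Int.castRingHom ℂ))) / (f.natDegree : ℝ) := by
  classical
  obtain ⟨ι, _, γ, N, hN, h1, h2, h3⟩ := fg_basis Γ hΓ
  choose t ht1 ht2 using fun a => exists_sys (Complex.log (γ a)) (by
    rw [Complex.exp_log (γ a).ne_zero]; exact halg _ (h1 a))
  obtain ⟨z, hz1, hz2⟩ := exists_sys (2 * π * Complex.I) (by
    rw [Complex.exp_two_pi_mul_I]; exact isAlgebraic_one)
  let c : Ctx ι := ⟨z, t, hz1, fun n hn => IsPrimitiveRoot.coe_submonoidClass_iff.1 (by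
    rw [hz2]; exact Complex.isPrimitiveRoot_exp n hn.ne'), ht1⟩
  have h4 : ∀ w : ι → ℤ, ((∏ a, c.t a 1 ^ w a : Qb) : ℂ) = ((∏ a, γ a ^ w a : ℂˣ) : ℂ) := fun w => by
    simp only [Units.coe_prod, Units.val_zpow_eq_zpow_val]
    refine (map_prod (algebraMap Qb ℂ) _ _).trans (Finset.prod_congr rfl fun a _ => ?_)
    rw [map_zpow₀]
    exact congrArg (· ^ w a) ((ht2 a 1).trans (by simp [Complex.exp_log (γ _).ne_zero]))
  have h5 : ∀ x : Qb, c.Dv x ↔ (x : ℂ) ≠ 0 ∧ ∃ n : ℕ, 1 ≤ n ∧ ∃ g ∈ Γ, (g : ℂ) = (x : ℂ) ^ n := by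
    refine fun x => ⟨fun h => ⟨fun h' => h.ne (Subtype.ext h'), ?_⟩, fun ⟨_, n, hn, g, hg, h⟩ => ?_⟩
    · obtain ⟨n, hn, w, h⟩ := h
      exact ⟨n, hn, _, Γ.prod_mem fun a _ => Γ.zpow_mem (h1 a) (w a), by
        rw [← h4, ← h]; rfl⟩
    · obtain ⟨w, hw⟩ := h3 g hg
      exact ⟨n * N, Nat.mul_pos hn hN, w, Subtype.ext (by
        rw [h4, ← hw, pow_mul]; simp [h])⟩
  have hq : ∀ (y : ℂ) (n : ℕ), 1 ≤ n → IsAlgebraic ℚ (y ^ n) → ∃ x : Qb, (x : ℂ) = y :=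
    fun y n hn h => ⟨⟨y, mem_algebraicClosure_iff.2 (h.of_pow hn)⟩, rfl⟩
  lift θ to Qb using mem_algebraicClosure_iff.2 hθ
  set S' := S.filter Nat.Prime ∪ N.primeFactors with hS'
  obtain ⟨C, hC, h6⟩ := c.simpleD S' (fun p hp => by
    rcases Finset.mem_union.1 hp with h | h
    · exact (Finset.mem_filter.1 h).2
    · exact Nat.prime_of_mem_primeFactors h) (fun w ⟨n, hn, h⟩ => by
      have := h2 (fun a => w a * n) (Units.ext (by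
        simp only [zpow_mul, zpow_natCast, Finset.prod_pow, Units.val_pow_eq_pow_val, ← h4]
        exact congrArg Subtype.val h))
      exact funext fun a => (mul_eq_zero.1 (congrFun this a)).resolve_right
        (by exact_mod_cast hn.ne')) θ D D.factorial_pos
  refine ⟨C, hC, fun y hy α h0 hnd hdeg η hη f hf hfα => ?_⟩
  have hD : ∀ η ∈ {z : ℂ | z ≠ 0 ∧ ∃ n : ℕ, 1 ≤ n ∧ ∃ g ∈ Γ, (g : ℂ) = z ^ n}, ∃ x : Qb, (x : ℂ) = η :=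
    fun η ⟨_, n, hn, g, hg, h⟩ => hq η n hn (h ▸ halg g hg)
  obtain ⟨η, rfl⟩ := hD η hη
  obtain ⟨y, rfl⟩ := hD y hy
  obtain ⟨β, hβ⟩ := hq (α * η) 1 le_rfl (by
    rw [pow_one]
    exact (IsAlgebraic.extendScalars (RingHom.injective_int (algebraMap ℤ ℚ))
      ⟨f, hf.ne_zero, hfα⟩))
  obtain ⟨α, rfl⟩ : ∃ x : Qb, (x : ℂ) = α := ⟨β / η, by
    rw [IntermediateField.coe_div, hβ, mul_div_cancel_right₀ _ hη.1]⟩
  have hi : ∀ x : Qb, IsIntegral ℚ (x : ℂ) := fun x => (mem_algebraicClosure_iff.1 x.2).isIntegral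
  let A : {u : ℕ × ℕ // 0 < u.1 ∧ u.1.primeFactors ⊆ S' ∧ 0 < u.2} → Subgroup GA := fun u =>
    St ℚ θ ⊓ c.Lv u.1.1 u.1.1 ⊓ St ℚ y ⊓ c.Pw D.factorial u.1.2
  have hA : ∀ i j, ∃ k, A k ≤ A i ∧ A k ≤ A j := by
    rintro ⟨⟨n, M⟩, h7, h8, h9⟩ ⟨⟨n', M'⟩, h7', h8', h9'⟩
    have := Nat.mul_pos h7 h7'
    refine ⟨⟨(n * n', M * M'), this, ?_, Nat.mul_pos h9 h9'⟩, ?_, ?_⟩
    · rw [Nat.primeFactors_mul h7.ne' h7'.ne']; exact Finset.union_subset h8 h8'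
    all_goals exact inf_le_inf (inf_le_inf_right _ (inf_le_inf_left _
      (Ctx.Lv_mono this this (by simp) (by simp)))) (Ctx.Pw_mono (Nat.mul_pos h9 h9') (by simp))
  let j₀ : {u : ℕ × ℕ // 0 < u.1 ∧ u.1.primeFactors ⊆ S' ∧ 0 < u.2} := ⟨(1, 1), by simp⟩
  suffices h : ∃ j, Orb (A j) α D by
    obtain ⟨⟨⟨n, M⟩, h7, h8, h9⟩, h10⟩ := h
    exact (h6 n M y α h7 h8 h9 ((h5 y).2 hy) (fun h => h0 (congrArg Subtype.val h))
      (fun h => hnd ((h5 α).1 h)) h10 η ((h5 η).2 hη)).trans (ht_le_mahler hf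
        ((algebraMap Qb ℂ).injective (by
          rw [← Polynomial.aeval_algebraMap_apply, map_zero]; exact hfα)))
  refine Bd.orb_of A j₀ hA ?_ (hi α).tower_top hdeg
  refine fun u => Bd.dir_adj A j₀ hA ?_ u.2
  intro x hx
  rcases hx with ((rfl | rfl) | ⟨n, hn, hnS, g, hg, h⟩) | ⟨h7, h8⟩
  · exact ⟨θ, rfl, j₀, fun _ h => h.1.1.1⟩
  · exact ⟨y, rfl, j₀, fun _ h => h.1.2⟩
  · obtain ⟨x, rfl⟩ := hq x n hn (h ▸ halg g hg)
    obtain ⟨w, hw⟩ := h3 g hg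
    refine ⟨x, rfl, ⟨(n * N, 1), Nat.mul_pos hn hN, ?_, one_pos⟩, (Ctx.fx_rad (w := w)
      (Nat.mul_pos hn hN) (Subtype.ext (by rw [h4, ← hw, pow_mul]; simp [h]))).mono
        (inf_le_left.trans (inf_le_left.trans inf_le_right))⟩
    rw [Nat.primeFactors_mul (by omega) hN.ne']
    exact Finset.union_subset_union_left fun p hp =>
      Finset.mem_filter.2 ⟨hnS hp, Nat.prime_of_mem_primeFactors hp⟩
  · obtain ⟨x, rfl, M, hM⟩ := Bd.dir_adj (s := {ζ : ℂ | ∃ n : ℕ, 1 ≤ n ∧ ζ ^ n = 1})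
      (fun M : ℕ+ => St ℚ (c.z M)) 1
      (fun i j => ⟨i * j, fun _ h => c.hz.fix_dvd (i * j).pos (by simp) h,
        fun _ h => c.hz.fix_dvd (i * j).pos (by simp) h⟩)
      (fun u hu => by
        obtain ⟨n, hn, h⟩ := hu
        obtain ⟨x, rfl⟩ := hq u n hn (h ▸ isAlgebraic_one)
        exact ⟨x, rfl, ⟨n, hn⟩, fun σ hσ => Ctx.fix hn hσ dvd_rfl (Subtype.ext (by simpa using h))⟩)
      h7
    obtain ⟨_, h9⟩ := Bd.orb_of (fun _ : Unit => ⊤) () (fun _ _ => ⟨(), le_rfl, le_rfl⟩)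
      (fun q : ℚ => ⟨algebraMap ℚ Qb q, rfl, (), fun σ _ => σ.commutes q⟩) (hi x) h8
    exact ⟨x, rfl, ⟨(1, M), one_pos, by simp, M.pos⟩,
      (Ctx.fx_Pw M.pos hM h9.pow_fact).mono inf_le_right⟩

end Pool.Agent.Lib.MP_f61260_nt
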