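import Pool.Agent.Lib.MP_f61260_nt.Bd.Step

set_option autoImplicit false

namespace Pool.Agent.Lib.MP_f61260_nt

open Filter

namespace Ctx

variable {ι : Type} [Fintype ι] {c : Ctx ι}

lemma Dv.zpw {x : Qb} (hx : c.Dv x) (e : ℤ) : c.Dv (x ^ e) := by
  rcases e with e | e
  · simpa using hx.pow e
  · simpa using (hx.pow (e + 1)).inv

lemma towerD {p D e : ℕ} [hp : Fact p.Prime] {ε : ℝ} {W U Q : Subgroup GA}
    (H : ∀ (x ω α η : Qb) (k : ℕ), Un p x → Fx W (x ^ p ^ (k + 1)) →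
      IsPrimitiveRoot ω p → ∀ σ ∈ W, σ x = ω * x → σ ω = ω → Orb (W ⊓ St ℚ x) α (e * D) → Un p η →
      (∀ g ∈ W, ht (g α * η) ≤ ε) →
      ∃ (e : ℤ) (N : ℕ), ¬ p ∣ N ∧ (σ ^ N) (α * x ^ e) = α * x ^ e)
    (hun : ∀ η, c.Dv η → Un p η) (hG : W ≤ c.G0) (hU : U ≤ W ⊓ Q) (hQ : IdxLe ⊤ Q e) (he : e < p)
    {K : ℕ} (hK : ∀ σ ∈ U, ∀ ξ : Qb, ξ ^ p ^ K = 1 → σ ξ = ξ) (k : ℕ) (hk : k ≤ K) :
    ∀ x α : Qb, c.Dv x → Fx W (x ^ p ^ k) → Orb (W ⊓ Q ⊓ St ℚ x) α D →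
      (∀ η, c.Dv η → ε ≤ ht (α * η)) ∨ ∃ β y, c.Dv y ∧ α = β * y ∧ Orb U β D := by
  induction k with
  | zero => exact fun x α hx h1 h2 => Or.inr ⟨α, 1, dv_tor ⟨1, one_pos, one_pow 1⟩, (mul_one _).symm,
      h2.mono (le_inf hU ((hU.trans inf_le_left).trans (by simpa using h1.le)))⟩
  | succ k ih =>
    intro x α hx h1 h2
    by_cases hA : ∃ σ ∈ W, ∃ ω, IsPrimitiveRoot ω p ∧ σ x = ω * x ∧ σ ω = ω
    · obtain ⟨σ, hσ, ω, hω, h3, h4⟩ := hA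
      by_cases hB : ∀ η, c.Dv η → ε ≤ ht (α * η)
      · exact Or.inl hB
      push Not at hB
      obtain ⟨η, hη, hB⟩ := hB
      obtain ⟨u, N, h5, h6⟩ := H x ω α η k (hun x hx) h1 hω σ hσ h3 h4
        ((h2.mono (inf_right_comm _ _ _).le).idx hQ) (hun η hη) fun g hg => by
          obtain ⟨ξ, h5, h6⟩ := hη.act _ (hG hg)
          rw [← h5.ht, mul_left_comm, ← h6, ← map_mul, ht_conj]
          exact hB.le
      obtain ⟨j, j0, je, hj⟩ := hQ.pow_mem (σ ^ N)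
      have h7 := hx.zpw (-u)
      have h8 : α = α * x ^ u * x ^ (-u) := by
        rw [zpow_neg, mul_inv_cancel_right₀ (zpow_ne_zero _ hx.ne)]
      have h9 : ((σ ^ N) ^ j) x = ω ^ (N * j) * x := by rw [← pow_mul, pow_act h3 h4]
      have h10 := hω.pow_of_coprime (N * j) ((hp.out.coprime_iff_not_dvd.2 fun h =>
        (hp.out.dvd_mul.1 h).elim h5 (Nat.not_dvd_of_pos_of_lt j0 (by omega))).symm)
      rcases ih (by omega) (x ^ p) (α * x ^ u) (hx.pow p) (by rwa [← pow_mul, ← pow_succ'])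
        (Orb.up hx.ne h10 hp.out.pos (fun _ h => h.2) (h := (σ ^ N) ^ j)
          ⟨⟨W.pow_mem (W.pow_mem hσ _) _, hj⟩, mem_St.2 (by
            rw [map_pow, h9, mul_pow, h10.pow_eq_one, one_mul])⟩ h9
          (by rw [map_pow, mem_St.1 ((St ℚ ω).pow_mem ((St ℚ ω).pow_mem h4 _) _)])
          ((St ℚ _).pow_mem h6 j) ((h2.mul (((Fx.st x).mono inf_le_right).zpow u)).mono
            (inf_le_inf_right _ inf_le_left))) with h | ⟨β', y, h11, h12, h13⟩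
      · exact absurd (h _ (h7.mul hη)) (by rwa [← mul_assoc, ← h8, not_le])
      · exact Or.inr ⟨β', y * x ^ (-u), h11.mul h7, by rw [← mul_assoc, ← h12, ← h8], h13⟩
    refine Or.inr ⟨α, 1, dv_tor ⟨1, one_pos, one_pow 1⟩, (mul_one _).symm,
      h2.mono (le_inf hU fun σ hσ => ?_)⟩
    obtain ⟨ξ, h3, h4⟩ := mult_ex σ hx.ne (h1 σ (hU hσ).1)
    have h5 := hK σ hσ ξ (by
      obtain ⟨l, rfl⟩ := Nat.exists_eq_add_of_le hk; rw [pow_add, pow_mul, h3, one_pow])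
    have h6 : ∀ j, ξ ^ p ^ j = 1 → ξ = 1 := fun j => by
      induction j with
      | zero => simp
      | succ j ih =>
        refine fun h => ih (by_contra fun h' => hA ⟨σ ^ p ^ j, W.pow_mem (hU hσ).1 _, _,
          prim_of_ne hp.out (by rwa [← pow_mul, ← pow_succ]) h', pow_act h4 h5 _, ?_⟩)
        rw [map_pow, mem_St.1 ((St ℚ ξ).pow_mem h5 _)]
    rw [mem_St, h4, h6 _ h3, one_mul]

theorem simpleD (S : Finset ℕ) (hS : ∀ p ∈ S, p.Prime)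
    (hind : ∀ w : ι → ℤ, Tor (∏ a, c.t a 1 ^ w a) → w = 0) (θ : Qb) (D : ℕ) {e : ℕ} (he : 0 < e) :
    ∃ C : ℝ, 0 < C ∧ ∀ (n M : ℕ) (x α : Qb), 0 < n → n.primeFactors ⊆ S → 0 < M → c.Dv x → α ≠ 0 →
      ¬ c.Dv α → Orb (St ℚ θ ⊓ c.Lv n n ⊓ St ℚ x ⊓ c.Pw e M) α D →
      ∀ η, c.Dv η → C ≤ ht (α * η) := by
  classical
  obtain ⟨P0, ε, hε, H⟩ := detqD (e * D)
  obtain ⟨Q, hQ⟩ := eventually_atTop.1 (((eventually_ge_atTop (P0 + e + 3)).and (ev_unr θ)).and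
    (eventually_all.2 fun a => (ev_unr (c.t a 1)).and (ev_un (c.t a 1))))
  set S' := S ∪ (Finset.range Q).filter Nat.Prime with hS'
  obtain ⟨C, hC, h⟩ := c.main' S' (fun p hp => (Finset.mem_union.1 hp).elim (hS p)
    fun h => (Finset.mem_filter.1 h).2) hind one_pos
  obtain ⟨D0, hD⟩ := fiG θ
  have hg : ∀ w : ι → ℤ, Fx c.G0 (∏ a, c.t a 1 ^ w a) := fun w =>
    Fx.prod _ fun a _ => Fx.zpow (fun _ hσ => mem_G0.1 hσ a) _
  have key : ∀ N : ℕ, 0 < N → ∀ (m n : ℕ) (x α : Qb) (w : ι → ℤ), 0 < m → n ∣ m →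
      n.primeFactors ⊆ S' → (∀ q, q.Prime → q ∣ N → q ∣ m → q ∈ S') → x ^ N = ∏ a, c.t a 1 ^ w a →
      α ≠ 0 → ¬ c.Dv α → Orb (St ℚ θ ⊓ c.Lv m n ⊓ St ℚ x ⊓ c.Pw e N) α D → ∀ η, c.Dv η →
      min (C / ((D0 * D + 1 : ℕ) : ℝ) ^ (2 + 1 : ℝ)) ε ≤ ht (α * η) := by
    intro N
    induction N using Nat.recOnPrimePow with
    | zero => simp
    | one =>
      intro _ m n x α w h1 h2 h3 _ h4 h5 h6 h7 η hη
      refine (min_le_left _ _).trans (h α m n _ ⟨h1, h2, h3, h5, h6,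
        ((h7.mono (A' := c.Lv m n ⊓ St ℚ θ) fun σ hσ => ⟨⟨⟨hσ.2, hσ.1⟩, ?_⟩,
          Pw_one (c := c) ▸ Subgroup.mem_top σ⟩).idx hD).idxLe.mono (Nat.le_succ _)⟩ η hη)
      change σ x = x
      rw [← pow_one x, h4]
      exact hg w σ (Lv_le (Nat.pos_of_dvd_of_pos h2 h1) hσ.1)
    | prime_pow_mul a q k hq hqa hk ih =>
      intro hN m n x α w h1 h2 h3 h4 h5 h6 h7 h8
      have ha := Nat.pos_of_mul_pos_left hN
      have hn := Nat.pos_of_dvd_of_pos h2 h1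
      have hqk := pow_pos hq.pos k
      have hm := Nat.mul_pos h1 hqk
      have hx : c.Dv x := ⟨_, hN, w, h5⟩
      have hco := (hq.coprime_iff_not_dvd.2 hqa).pow_left k
      have h9 : ∀ q', q'.Prime → q' ∣ a → q' ∣ m * q ^ k → q' ∈ S' := fun q' hq' h h' =>
        h4 q' hq' (h.mul_left _) ((hq'.dvd_mul.1 h').resolve_right fun h'' => hqa
          ((Nat.prime_dvd_prime_iff_eq hq' hq).1 (hq'.dvd_of_dvd_pow h'') ▸ h))
      have h10 : St ℚ (x ^ q ^ k) ⊓ St ℚ (x ^ a) ≤ St ℚ x := fun σ hσ =>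
        fix_coprime hx.ne hco hσ.1 hσ.2
      have h11 : (x ^ q ^ k) ^ a = ∏ a, c.t a 1 ^ w a := by rwa [← pow_mul]
      have h12 : (x ^ a) ^ q ^ k = ∏ a, c.t a 1 ^ w a := by rwa [← pow_mul, mul_comm]
      have h13 : ∀ n, c.Lv (m * q ^ k) n ≤ c.Pw e (q ^ k) := fun n σ hσ =>
        st_le_Pw (c.hz.fix_dvd hm (dvd_mul_left _ _) hσ.1)
      by_cases hqS : q ∈ S'
      · refine ih ha (m * q ^ k) (n * q ^ k) _ α w hm (mul_dvd_mul_right h2 _) ?_ h9 h11 h6 h7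
          (h8.mono fun σ hσ => ⟨⟨⟨hσ.1.1.1, Lv_mono hm (Nat.mul_pos hn hqk) (dvd_mul_right _ _)
            (dvd_mul_right _ _) hσ.1.1.2⟩, h10 ⟨hσ.1.2, fx_rad hqk h12 σ (Lv_mono hm
              (Nat.mul_pos hn hqk) (dvd_mul_left _ _) (dvd_mul_left _ _) hσ.1.1.2)⟩⟩,
                Pw_inf hqk ha hco ⟨h13 _ hσ.1.1.2, hσ.2⟩⟩)
        rw [Nat.primeFactors_mul hn.ne' hqk.ne', Nat.primeFactors_prime_pow hk.ne' hq]
        exact Finset.union_subset h3 (by simpa using hqS)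
      have : Fact q.Prime := ⟨hq⟩
      obtain ⟨⟨g1, g2⟩, g3⟩ := hQ q (not_lt.1 fun h => hqS (by simp [hS', h, hq]))
      have hun : ∀ η, c.Dv η → Un q η := fun η ⟨N, hN, w, h⟩ => Un.of_pow hN fun τ => by
        simp [h, (g3 _).2 ((c.hs _).ne 1) τ]
      have hqm : ¬ q ∣ m := fun h => hqS (h4 q hq ((dvd_pow_self q hk.ne').mul_right _) h)
      have hz : ∀ m, 0 < m → ¬ q ∣ m → UnrG q (St ℚ (c.z m)) := fun m h1 hqm =>
        unrG_root unrG_top (hun _ (dv_tor ⟨m, h1, (c.prim m h1).pow_eq_one⟩)) hqm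
          (by rw [(c.prim m h1).pow_eq_one]; exact Fx.one)
      have hG : St ℚ θ ⊓ c.Lv m n ⊓ St ℚ (x ^ q ^ k) ⊓ c.Pw e a ≤ c.G0 :=
        inf_le_left.trans (inf_le_left.trans (inf_le_right.trans (Lv_le hn)))
      rcases towerD (U := St ℚ θ ⊓ c.Lv (m * q ^ k) n ⊓ St ℚ (x ^ q ^ k) ⊓ c.Pw e a)
        (H q (by omega) _ (((g2.inf ((hz m h1 hqm).inf (unrG_iInf fun a => unrG_root (g3 a).1
            (hun _ (dv_t a hn)) (fun h => hqm (h.trans h2)) (by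
              rw [(c.hs a).pw1 hn]; exact Fx.st _)))).inf
          (unrG_root (unrG_iInf fun a => (g3 a).1) (hun _ (hx.pow _)) hqa (h11 ▸ hg w))).inf
            ((hz a ha hqa).mono st_le_Pw))) hun hG
        (le_inf (inf_le_inf_right _ (inf_le_inf_right _ (inf_le_inf_left _
          (Lv_mono hm hn (dvd_mul_right _ _) dvd_rfl)))) fun σ hσ => h13 _ hσ.1.1.2)
        (idx_Pw hq (by omega) he k) (by omega)
        (fun σ hσ ξ hξ => fix hm hσ.1.1.2.1 (dvd_mul_left _ _) hξ) k le_rfl (x ^ a) α (hx.pow a)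
        (h12 ▸ (hg w).mono hG) (h8.mono fun σ hσ => ⟨⟨hσ.1.1.1.1, h10 ⟨hσ.1.1.1.2, hσ.2⟩⟩,
          Pw_inf hqk ha hco ⟨hσ.1.2, hσ.1.1.2⟩⟩) with h13 | ⟨β, y, h13, rfl, h14⟩
      · exact fun η hη => (min_le_right _ _).trans (h13 η hη)
      · intro η hη
        rw [mul_assoc]
        exact ih ha _ n _ β w hm (h2.mul_right _) h3 h9 h11 (left_ne_zero_of_mul h6)
          (fun h => h7 (h.mul h13)) h14 _ (h13.mul hη)
  refine ⟨_, lt_min (by positivity) hε, fun n M x α hn h1 hM ⟨N, hN, w, h2⟩ h3 h4 h5 =>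
    key (N * M) (Nat.mul_pos hN hM) n n x α (fun a => w a * M) hn dvd_rfl
      (h1.trans Finset.subset_union_left) (fun q hq _ h =>
        Finset.mem_union_left _ (h1 (Nat.mem_primeFactors.2 ⟨hq, h, hn.ne'⟩)))
      (by simp only [pow_mul, h2, zpow_mul, zpow_natCast, Finset.prod_pow]) h3 h4
      (h5.mono (inf_le_inf_left _ (Pw_mono (Nat.mul_pos hN hM) (dvd_mul_left _ _))))⟩

end Ctx

end Pool.Agent.Lib.MP_f61260_nt
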